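import Pool.Agent.AlgD.Defs

/-! # COARSE. The exactness relation for the visible clusters. `d`-fold version of `SqrtDC.coarse`.
1. `cum_gp_powD`: `cum R (f^i) = Σ_{e ∈ A^i, Σ e ≤ R} ∏ v (e_j)`.
2. `cum R (P.comp f) = Σ_{i ≤ d} P.coeff i * cum R (f^i)`.
3. `regroup`: for every `G : (Fin i → ℕ) → K`: `Σ_{e ∈ A^i} G (stt ∘ e) ∏ v (e_j) =
   Σ_{x ∈ vis^i} G x ∏ mass (x_j)`.
4. Bad `R` in `[a, a+W)`: `R ∈ [s-Λ, s)`, `s ∈ ss A d` (`≤ t^d * Λ` values), or
   `R ∈ [Σ stt e_j, Σ e_j)` for some `e ∈ A^d` (`≤ t^d * (d*(t*γ))` values, `le_stt'`). Tuples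
   `e ∈ A^i`, `i ≤ d`, are padded with `0 ∈ A` (`stt A γ 0 = 0`). For the other `R`:
   `Σ e ≤ R ↔ Σ stt e ≤ R` for all `e ∈ A^i`, `i ≤ d`, and `h.ex` applies. -/

open Finset Polynomial

namespace Pool.Agent.AlgD

open Pool.Agent.SqrtDC Pool.Agent.DigitA

section coarse

variable {K : Type*} [Field K]

theorem coarse_gp_pow (A : Finset ℕ) (v : ℕ → K) (i : ℕ) :
    (gp A v) ^ i = ∑ u ∈ tup A i, C (∏ j, v (u j)) * X ^ (∑ j, u j) := by
  have h1 : (gp A v) ^ i = ∏ _j : Fin i, ∑ e ∈ A, C (v e) * X ^ e := by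
    rw [Finset.prod_const, Finset.card_univ, Fintype.card_fin]
    rfl
  rw [h1, Finset.prod_univ_sum]
  refine Finset.sum_congr rfl (fun u _ => ?_)
  rw [Finset.prod_mul_distrib, ← map_prod, Finset.prod_pow_eq_pow_sum]

theorem cum_gp_powD (A : Finset ℕ) (v : ℕ → K) (i R : ℕ) :
    cum R ((gp A v) ^ i) = ∑ u ∈ (tup A i).filter (fun u => ∑ j, u j ≤ R), ∏ j, v (u j) := by
  rw [coarse_gp_pow, cum_sum, Finset.sum_filter]
  refine Finset.sum_congr rfl (fun u _ => ?_)
  rw [cum_monomial]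

theorem coarse_cum_C_mul (R : ℕ) (a : K) (f : K[X]) : cum R (C a * f) = a * cum R f := by
  unfold cum
  rw [Finset.mul_sum]
  exact Finset.sum_congr rfl (fun s _ => coeff_C_mul f)

theorem coarse_comp (P f : K[X]) (R : ℕ) :
    cum R (P.comp f) = ∑ i ∈ range (P.natDegree + 1), P.coeff i * cum R (f ^ i) := by
  rw [Polynomial.comp, eval₂_eq_sum_range, cum_sum]
  exact Finset.sum_congr rfl (fun i _ => coarse_cum_C_mul R _ _)

variable [DecidableEq K]

theorem coarse_regroup (A : Finset ℕ) (v : ℕ → K) (γ i : ℕ) (G : (Fin i → ℕ) → K) :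
    ∑ u ∈ tup A i, G (fun j => stt A γ (u j)) * ∏ j, v (u j) =
      ∑ x ∈ tup (vis A v γ) i, G x * ∏ j, mass A v γ (x j) := by
  have h1 : ∑ u ∈ tup A i, G (fun j => stt A γ (u j)) * ∏ j, v (u j) =
      ∑ x ∈ tup (starts A γ) i, G x * ∏ j, mass A v γ (x j) := by
    rw [← Finset.sum_fiberwise_of_maps_to (s := tup A i) (t := tup (starts A γ) i)
      (g := fun u j => stt A γ (u j))]
    · refine Finset.sum_congr rfl (fun x _ => ?_)
      have h2 : (tup A i).filter (fun u => (fun j => stt A γ (u j)) = x) =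
          Fintype.piFinset (fun j => A.filter (fun e => stt A γ e = x j)) := by
        ext u
        simp only [tup, Finset.mem_filter, Fintype.mem_piFinset, funext_iff]
        constructor
        · rintro ⟨a, b⟩ j
          exact ⟨a j, b j⟩
        · intro a
          exact ⟨fun j => (a j).1, fun j => (a j).2⟩
      have h3 : ∑ u ∈ (tup A i).filter (fun u => (fun j => stt A γ (u j)) = x),
          G (fun j => stt A γ (u j)) * ∏ j, v (u j) =
          ∑ u ∈ (tup A i).filter (fun u => (fun j => stt A γ (u j)) = x),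
          G x * ∏ j, v (u j) := by
        refine Finset.sum_congr rfl (fun u hu => ?_)
        rw [(Finset.mem_filter.1 hu).2]
      rw [h3, ← Finset.mul_sum, h2, ← Finset.prod_univ_sum]
      rfl
    · intro u hu
      rw [tup, Fintype.mem_piFinset] at hu ⊢
      exact fun j => stt_mem' A (hu j)
  rw [h1]
  symm
  refine Finset.sum_subset ?_ ?_
  · intro x hx
    rw [tup, Fintype.mem_piFinset] at hx ⊢
    exact fun j => (Finset.mem_filter.1 (hx j)).1
  · intro x hx hx'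
    rw [tup, Fintype.mem_piFinset] at hx hx'
    push Not at hx'
    obtain ⟨j, hj⟩ := hx'
    have h2 : mass A v γ (x j) = 0 := by
      by_contra hne
      exact hj (Finset.mem_filter.2 ⟨hx j, hne⟩)
    rw [Finset.prod_eq_zero (Finset.mem_univ j) h2, mul_zero]

end coarse

theorem coarse_sum_stt_le (A : Finset ℕ) (γ : ℕ) {i : ℕ} (u : Fin i → ℕ) :
    ∑ j, stt A γ (u j) ≤ ∑ j, u j :=
  Finset.sum_le_sum (fun j _ => stt_le A γ (u j))

theorem coarse_pad {A : Finset ℕ} (h0 : 0 ∈ A) (γ R : ℕ) (i m : ℕ)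
    (h : ∀ u ∈ tup A (i + m), ¬ (∑ j, stt A γ (u j) ≤ R ∧ R < ∑ j, u j)) :
    ∀ u ∈ tup A i, (∑ j, u j ≤ R ↔ ∑ j, stt A γ (u j) ≤ R) := by
  intro u hu
  constructor
  · intro h1
    exact (coarse_sum_stt_le A γ u).trans h1
  · intro h1
    by_contra h2
    push Not at h2
    have hz : stt A γ 0 = 0 := Nat.le_zero.1 (stt_le A γ 0)
    apply h (Fin.append u (fun _ => 0))
    · rw [tup, Fintype.mem_piFinset] at hu ⊢
      intro j
      refine Fin.addCases (fun a => ?_) (fun a => ?_) j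
      · rw [Fin.append_left]
        exact hu a
      · rw [Fin.append_right]
        exact h0
    · rw [Fin.sum_univ_add, Fin.sum_univ_add]
      simp only [Fin.append_left, Fin.append_right, hz, Finset.sum_const_zero, add_zero]
      exact ⟨h1, h2⟩

variable {p : ℕ} [Fact p.Prime] {P : (ZMod p)[X]} {A : Finset ℕ} {v : ℕ → ZMod p} {N Λ : ℕ}

theorem coarseP (h : ExP p P A v N Λ) {d : ℕ} (hd : P.natDegree = d) (t γ W : ℕ) (ht : #A ≤ t)
    (hW : (Λ + d*(t*γ)) * t^d + 1 ≤ W) (a : ℕ) (ha : a + W + Λ ≤ N) :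
    ∃ R, a ≤ R ∧ R < a + W ∧ tsm P.coeff d (vis A v γ) (mass A v γ) R = 0 := by
  classical
  let B1 : Finset ℕ := (ss A d).biUnion (fun s => Finset.Ico (s - Λ) s)
  let B2 : Finset ℕ := (tup A d).biUnion
    (fun u => Finset.Ico (∑ j, stt A γ (u j)) (∑ j, u j))
  have hc1 : #(ss A d) ≤ t ^ d := (ss_card A d).trans (Nat.pow_le_pow_left ht d)
  have hc2 : #(tup A d) ≤ t ^ d := by
    rw [tup, Fintype.card_piFinset_const]
    exact Nat.pow_le_pow_left ht d
  have hB1 : #B1 ≤ t ^ d * Λ := by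
    refine (Finset.card_biUnion_le_card_mul _ _ Λ ?_).trans (Nat.mul_le_mul_right _ hc1)
    intro s _
    rw [Nat.card_Ico]
    omega
  have hB2 : #B2 ≤ t ^ d * (d * (t * γ)) := by
    refine (Finset.card_biUnion_le_card_mul _ _ (d * (t * γ)) ?_).trans
      (Nat.mul_le_mul_right _ hc2)
    intro u hu
    rw [tup, Fintype.mem_piFinset] at hu
    rw [Nat.card_Ico]
    have h1 : ∑ j, u j ≤ ∑ j : Fin d, (stt A γ (u j) + t * γ) :=
      Finset.sum_le_sum (fun j _ => le_stt' A γ (u j) t ht (hu j))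
    rw [Finset.sum_add_distrib, Finset.sum_const, Finset.card_univ, Fintype.card_fin,
      smul_eq_mul] at h1
    omega
  have hlt : #(B1 ∪ B2) < #(Finset.Ico a (a + W)) := by
    rw [Nat.card_Ico]
    have h1 := Finset.card_union_le B1 B2
    have h2 : t ^ d * Λ + t ^ d * (d * (t * γ)) = (Λ + d*(t*γ)) * t^d := by ring
    omega
  obtain ⟨R, hR1, hR2⟩ := Finset.exists_mem_notMem_of_card_lt_card hlt
  rw [Finset.mem_Ico] at hR1
  rw [Finset.mem_union, not_or] at hR2
  refine ⟨R, hR1.1, hR1.2, ?_⟩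
  have hgood : ∀ u ∈ tup A d, ¬ (∑ j, stt A γ (u j) ≤ R ∧ R < ∑ j, u j) := by
    intro u hu hcon
    apply hR2.2
    rw [Finset.mem_biUnion]
    exact ⟨u, hu, Finset.mem_Ico.2 hcon⟩
  have hex : cum R (P.comp (gp A v)) = 0 := by
    apply h.ex R (by omega)
    rw [hd]
    intro s hs hcon
    apply hR2.1
    rw [Finset.mem_biUnion]
    exact ⟨s, hs, Finset.mem_Ico.2 ⟨by omega, hcon.1⟩⟩
  rw [← hex, coarse_comp, hd]
  unfold tsm
  refine Finset.sum_congr rfl (fun i hi => ?_)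
  congr 1
  have hi' : i ≤ d := by
    have := Finset.mem_range.1 hi
    omega
  obtain ⟨m, hm⟩ := Nat.exists_eq_add_of_le hi'
  have hiff := coarse_pad h.zero γ R i m (by rw [← hm]; exact hgood)
  rw [cum_gp_powD, Finset.sum_filter, Finset.sum_filter]
  have h1 := coarse_regroup A v γ i (fun x => if ∑ j, x j ≤ R then 1 else 0)
  have h2 : ∑ x ∈ tup (vis A v γ) i, (if ∑ j, x j ≤ R then ∏ j, mass A v γ (x j) else 0) =
      ∑ x ∈ tup (vis A v γ) i, (if ∑ j, x j ≤ R then 1 else 0) * ∏ j, mass A v γ (x j) := by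
    refine Finset.sum_congr rfl (fun x _ => ?_)
    rw [ite_mul, one_mul, zero_mul]
  rw [h2, ← h1]
  refine Finset.sum_congr rfl (fun u hu => ?_)
  rw [ite_mul, one_mul, zero_mul]
  exact if_congr (hiff u hu).symm rfl rfl

end Pool.Agent.AlgD
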