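import Pool.Agent.AlgD.Defs
import Pool.Agent.DigitA.SysOf

/-! # SYS. The endgame data from good sources (`d`-fold version of `DigitA/SysOf.lean`). -/

open Finset

namespace Pool.Agent.AlgD

open Pool.Agent.SqrtDC Pool.Agent.DigitA

/-- elements generated by the sources in `T` -/
def sWT (V : Finset ℕ) (e : ℕ) {m : ℕ} (v : Fin (m+1) → ℕ) (T : Finset (Fin (m+1))) (u : ℕ) :
    Prop :=
  ∃ a : Fin (m+1) → ℕ, (∀ l, a l ∈ V) ∧ (∀ l, l ∉ T → a l = v l) ∧
    |sm a - sm v| ≤ ((#T)^2 * e : ℕ) ∧ ∃ i ∈ T, a i = u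

lemma sWT.mono {V : Finset ℕ} {e m : ℕ} {v : Fin (m+1) → ℕ} {T T' : Finset (Fin (m+1))}
    (h : T ⊆ T') {u : ℕ} (hu : sWT V e v T u) : sWT V e v T' u := by
  obtain ⟨a, ha, hoff, hs, i, hi, hiu⟩ := hu
  refine ⟨a, ha, fun l hl => hoff l (fun h' => hl (h h')), ?_, i, h hi, hiu⟩
  refine hs.trans ?_
  have : (#T)^2 * e ≤ (#T')^2 * e :=
    Nat.mul_le_mul_right _ (Nat.pow_le_pow_left (Finset.card_le_card h) 2)
  exact_mod_cast this

lemma sWT.get {V : Finset ℕ} {e m : ℕ} {v : Fin (m+1) → ℕ} {T : Finset (Fin (m+1))} {u : ℕ}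
    (hu : sWT V e v T u) : ∃ a : Fin (m+1) → ℕ, (∀ l, a l ∈ V) ∧
      (∀ l, l ∉ T → a l = v l) ∧ |sm a - sm v| ≤ ((m+1)^2 * e : ℕ) ∧ ∃ i ∈ T, a i = u := by
  obtain ⟨a, ha, hoff, hs, i, hi, hiu⟩ := hu
  refine ⟨a, ha, hoff, hs.trans ?_, i, hi, hiu⟩
  have h1 : #T ≤ m+1 := by simpa using Finset.card_le_univ T
  have : (#T)^2 * e ≤ (m+1)^2 * e := Nat.mul_le_mul_right _ (Nat.pow_le_pow_left h1 2)
  exact_mod_cast this

lemma sys_sq {d : ℕ} (hd : 2 ≤ d) (x : Fin d → ℕ) (hx : ∀ i, 1 ≤ x i) :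
    ∑ i, (x i)^2 + 1 ≤ (∑ i, x i)^2 := by
  have h1 : ∀ i, x i + 1 ≤ ∑ j, x j := by
    intro i
    obtain ⟨j, hj⟩ : ∃ j : Fin d, j ≠ i := by
      by_cases h : (i : ℕ) = 0
      · exact ⟨⟨1, by omega⟩, fun h' => by rw [← h'] at h; simp at h⟩
      · exact ⟨⟨0, by omega⟩, fun h' => h (by rw [← h'])⟩
    have h2 : ∑ k ∈ ({i, j} : Finset (Fin d)), x k ≤ ∑ k, x k :=
      Finset.sum_le_sum_of_subset (Finset.subset_univ _)
    rw [Finset.sum_pair (Ne.symm hj)] at h2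
    have := hx j
    omega
  have h2 : ∑ i, x i * (x i + 1) ≤ ∑ i, x i * ∑ j, x j :=
    Finset.sum_le_sum fun i _ => Nat.mul_le_mul_left _ (h1 i)
  rw [← Finset.sum_mul] at h2
  have h3 : ∑ i, x i * (x i + 1) = ∑ i, (x i)^2 + ∑ i, x i := by
    rw [← Finset.sum_add_distrib]
    exact Finset.sum_congr rfl fun i _ => by ring
  have h4 := h1 ⟨0, by omega⟩
  rw [sq (∑ i, x i)]
  omega

lemma sWT_clos {V : Finset ℕ} {e m d : ℕ} (hd : 2 ≤ d) {v : Fin (m+1) → ℕ}
    {T : Fin d → Finset (Fin (m+1))} (hdis : ∀ i j, i ≠ j → Disjoint (T i) (T j))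
    {w u : Fin d → ℕ} (hw : ∀ i, sWT V e v (T i) (w i)) (hv : ∀ l, v l ∈ V)
    (hu : ∀ i, u i ∈ V) (hn : |sm u - sm w| ≤ e) (i₀ : Fin d) :
    sWT V e v (univ.biUnion T) (u i₀) := by
  classical
  choose a ha hoff hs k hk hkw using hw
  set c : Fin (m+1) → ℕ := fun l => if h : ∃ i, l ∈ T i then
    (if l = k h.choose then u h.choose else a h.choose l) else v l with hcdef
  have hcT : ∀ i, ∀ l ∈ T i, c l = if l = k i then u i else a i l := by
    intro i l hl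
    have h : ∃ i, l ∈ T i := ⟨i, hl⟩
    have h1 : h.choose = i := by
      by_contra hne
      exact (Finset.disjoint_left.1 (hdis _ _ hne)) h.choose_spec hl
    simp only [hcdef, dif_pos h, h1]
  have hcoff : ∀ l, l ∉ univ.biUnion T → c l = v l := by
    intro l hl
    have h : ¬ ∃ i, l ∈ T i := by
      rintro ⟨i, hi⟩
      exact hl (Finset.mem_biUnion.2 ⟨i, mem_univ i, hi⟩)
    simp only [hcdef, dif_neg h]
  have hcV : ∀ l, c l ∈ V := by
    intro l
    by_cases h : ∃ i, l ∈ T i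
    · obtain ⟨i, hi⟩ := h
      rw [hcT i l hi]
      split_ifs
      · exact hu i
      · exact ha i l
    · rw [hcoff l (fun h' => by
        obtain ⟨i, -, hi⟩ := Finset.mem_biUnion.1 h'
        exact h ⟨i, hi⟩)]
      exact hv l
  have hsm : ∀ x : Fin (m+1) → ℕ, ∀ T' : Finset (Fin (m+1)), (∀ l, l ∉ T' → x l = v l) →
      sm x - sm v = ∑ l ∈ T', ((x l : ℤ) - v l) := by
    intro x T' hx
    unfold sm
    rw [← Finset.sum_sub_distrib]
    symm
    apply Finset.sum_subset (Finset.subset_univ _)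
    intro l _ hl
    rw [hx l hl, sub_self]
  have hsum : sm c - sm v = ∑ i, (sm (a i) - sm v) + (sm u - sm w) := by
    rw [hsm c _ hcoff, Finset.sum_biUnion (fun i _ j _ hij => hdis i j hij)]
    have h0 : sm u - sm w = ∑ i, ((u i : ℤ) - w i) := by
      unfold sm; rw [Finset.sum_sub_distrib]
    rw [h0, ← Finset.sum_add_distrib]
    refine Finset.sum_congr rfl fun i _ => ?_
    rw [hsm (a i) (T i) (hoff i)]
    have h1 : ∑ l ∈ T i, ((c l : ℤ) - v l) = ∑ l ∈ T i, (((a i l : ℤ) - v l) +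
        (if l = k i then ((u i : ℤ) - w i) else 0)) := by
      refine Finset.sum_congr rfl fun l hl => ?_
      rw [hcT i l hl]
      by_cases h : l = k i
      · rw [if_pos h, if_pos h, h, hkw i]
        ring
      · rw [if_neg h, if_neg h, add_zero]
    rw [h1, Finset.sum_add_distrib, Finset.sum_ite_eq', if_pos (hk i)]
  have hcard : #(univ.biUnion T) = ∑ i, #(T i) :=
    Finset.card_biUnion (fun i _ j _ hij => hdis i j hij)
  have hpos : ∀ i, 1 ≤ #(T i) := fun i => Finset.card_pos.mpr ⟨_, hk i⟩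
  have hbound : |sm c - sm v| ≤ ((#(univ.biUnion T))^2 * e : ℕ) := by
    rw [hsum, hcard]
    have h1 : |∑ i, (sm (a i) - sm v)| ≤ ∑ i, (((#(T i))^2 * e : ℕ) : ℤ) :=
      (Finset.abs_sum_le_sum_abs _ _).trans (Finset.sum_le_sum fun i _ => hs i)
    have h2 : (∑ i, (#(T i))^2) * e + e ≤ (∑ i, #(T i))^2 * e := by
      have h3 := Nat.mul_le_mul_right e (sys_sq hd (fun i => #(T i)) hpos)
      rw [add_mul, one_mul] at h3
      exact h3
    have h3 : ∑ i, (((#(T i))^2 * e : ℕ) : ℤ) = (((∑ i, (#(T i))^2) * e : ℕ) : ℤ) := by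
      rw [Finset.sum_mul]
      push_cast
      rfl
    rw [h3] at h1
    have h4 : (((∑ i, (#(T i))^2) * e : ℕ) : ℤ) + (e : ℤ) ≤ (((∑ i, #(T i))^2 * e : ℕ) : ℤ) := by
      exact_mod_cast h2
    have h5 := abs_add_le (∑ i, (sm (a i) - sm v)) (sm u - sm w)
    linarith
  refine ⟨c, hcV, hcoff, hbound, k i₀, Finset.mem_biUnion.2 ⟨i₀, mem_univ i₀, hk i₀⟩, ?_⟩
  rw [hcT i₀ _ (hk i₀), if_pos rfl]

theorem end_of_good {V : Finset ℕ} {r : ℕ → ℕ} {t m : ℕ} (hG : Gr V r t (m+1))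
    {p d A A' y f z X : ℕ} [Fact p.Prime] (hd : 2 ≤ d) (hy : 2 ≤ y)
    (hty : t < y^(A+1)) (hz : 2 ≤ z) (hyz : 4*f^2*z ≤ y) (hf : 1 ≤ f) (hym : 2*(m+1) ≤ y)
    (htz : t < z^(A'+1)) (F a : ℕ → ZMod p) (ha : a d ≠ 0) (h0 : 0 ∈ V)
    (hx : ∃ x ∈ V, 0 < x ∧ x ≤ r 20) (hF : ∀ v ∈ V, v ≠ 0 → F v ≠ 0)
    {v : Fin (m+1) → ℕ} (hgood : Pool.Agent.DigitA.Good V r y f m v)
    (hX : ∀ i, d * ((m+1) * v i + (m+1)^2 * r 1) ≤ X)
    (hN1 : ∀ σ, r 2 ≤ σ → σ ≤ X → ∃ α β : ℕ, α ≤ σ ∧ σ ≤ β ∧ σ ≤ α + r 1 ∧ β ≤ σ + r 1 ∧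
      wsum a d V F α β = 0) :
    Nonempty (EndD (ZMod p) (Finset (Fin (12*A'))) d (m+1) (4*A)) := by
  classical
  have hr1 : 1 ≤ r 1 := hG.pos.trans (hG.rmono (Nat.zero_le 1))
  have hvv : |sm v - sm v| ≤ ((m+1)^2 * r 1 : ℕ) := by
    rw [sub_self, abs_zero]; exact Int.natCast_nonneg _
  obtain ⟨K, hK⟩ := cl_top hG
  -- large levels of the sources
  obtain ⟨L, hLj⟩ : ∃ L : Fin (m+1) → Finset ℕ, ∀ j, L j = so_LL V r z K (v j) :=
    ⟨fun j => so_LL V r z K (v j), fun _ => rfl⟩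
  have hLcard : ∀ j, #(L j) ≤ 12*A' := by
    intro j
    apply count_LL hG hz htz (hgood.mem j)
    intro k hk
    rw [hLj, so_LL, Finset.mem_filter] at hk
    exact hk.2
  have hLjump : ∀ j : Fin (m+1), ∀ k ∈ L j, Jump V r y k (v j) := by
    intro j k hk
    rw [hLj, so_LL, Finset.mem_filter] at hk
    unfold Jump
    calc (y+1) * #(cl V r k (v j)) ≤ (y * z) * #(cl V r k (v j)) :=
          Nat.mul_le_mul_right _ (by nlinarith)
      _ = y * (z * #(cl V r k (v j))) := by ring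
      _ ≤ y * #(cl V r (k+12) (v j)) := Nat.mul_le_mul_left _ hk.2
  have hLmem : ∀ j : Fin (m+1), ∀ k, z * #(cl V r k (v j)) ≤ #(cl V r (k+12) (v j)) → k ∈ L j := by
    intro j k hk
    rw [hLj, so_LL, Finset.mem_filter]
    refine ⟨?_, hk⟩
    rw [Finset.mem_range]
    by_contra hKk
    push Not at hKk
    rw [hK k hKk _ (hgood.mem j), hK (k+12) (by omega) _ (hgood.mem j)] at hk
    have : 0 < #V := Finset.card_pos.mpr ⟨_, hgood.mem j⟩
    nlinarith
  -- the letters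
  let code : ℕ → Fin (m+1) → Finset (Fin (12*A')) := fun w j => so_letter V r y (12*A') (L j) w
  -- zero is not generated
  have hzero : ∀ T : Finset (Fin (m+1)), ∀ w, sWT V (r 1) v T w → w ≠ 0 := by
    intro T w hw hw0
    obtain ⟨a', ha', hoff, hs, i, hi, hiu⟩ := hw.get
    obtain ⟨hT1a, hT2a⟩ := hgood.g0 a' ha' hs
    obtain ⟨x, hxV, hx0, hx20⟩ := hx
    have hi0 : a' i = 0 := hiu.trans hw0
    have h1 : x ∈ cl V r 20 (a' i) := by
      rw [hi0]
      apply mem_cl_of_near hxV h0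
      rw [Nat.cast_zero, sub_zero, abs_of_nonneg (Int.natCast_nonneg _)]
      exact_mod_cast hx20
    have h2 := Finset.card_le_one.mp (hT2a i) x h1 (a' i) (self_mem_cl (ha' i))
    rw [hi0] at h2
    omega
  -- isolation
  have hiso20 : ∀ T : Finset (Fin (m+1)), ∀ w, sWT V (r 1) v T w → ∀ u ∈ V,
      |(u : ℤ) - w| ≤ r 20 → u = w := by
    intro T w hw u hu hle
    obtain ⟨a', ha', hoff, hs, i, hi, hiu⟩ := hw.get
    obtain ⟨hT1a, hT2a⟩ := hgood.g0 a' ha' hs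
    have hwV : w ∈ V := by rw [← hiu]; exact ha' i
    have h2 : u ∈ cl V r 20 w := mem_cl_of_near hu hwV hle
    rw [← hiu] at h2 ⊢
    exact Finset.card_le_one.mp (hT2a i) u h2 (a' i) (self_mem_cl (ha' i))
  have h4r : 4 * r 1 ≤ r 20 := by
    have := hG.so_four 18
    have h2 : 4 * 1 * r 1 ≤ 4 * (m+1)^2 * r 1 :=
      Nat.mul_le_mul_right _ (Nat.mul_le_mul_left _ (Nat.one_le_pow _ _ (by omega)))
    have h3 : r (18+2) = r 20 := rfl
    omega
  -- Big levels of generated elements are levels of some source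
  have hU : ∀ T : Finset (Fin (m+1)), ∀ w, sWT V (r 1) v T w → ∀ k, Big V r y k w →
      ∃ j : Fin (m+1), k ∈ L j := by
    intro T w hw k hk
    obtain ⟨a', ha', hoff, hs, i, hi, hiu⟩ := hw.get
    obtain ⟨hT1v, hT2v⟩ := hgood.g0 v hgood.mem hvv
    obtain ⟨hT1a, hT2a⟩ := hgood.g0 a' ha' hs
    rw [← hiu] at hk
    obtain ⟨j, hj⟩ := U1 hG le_rfl hz hyz hf hym (so_mem_gt.mpr ⟨hgood.mem, hT1v, hT2v⟩)
      (so_mem_gt.mpr ⟨ha', hT1a, hT2a⟩) (fun k hk => hgood.g1 a' ha' hs k hk) hk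
    exact ⟨j, hLmem j k hj⟩
  refine ⟨{
    V := V
    F := F
    a := a
    r := r 1
    WW := fun T => {u | u ∈ V ∧ sWT V (r 1) v T u}
    code := code
    a_ne := ha
    zero_mem := h0
    zero_not := fun h => hzero _ _ h.2 rfl
    F_ne := fun w hw => hF w hw.1 (hzero _ _ hw.2)
    WW_sub := fun T w hw => hw.1
    WW_mono := fun T T' h w hw => ⟨hw.1, hw.2.mono h⟩
    supp_sub := ?_
    code_inj := ?_
    supp_card := ?_
    sep := ?_
    closed := fun T hT w hw u hu hn i =>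
      ⟨hu i, sWT_clos hd hT (fun i => (hw i).2) hgood.mem hu hn i⟩
    vs := v
    src := fun j => ⟨hgood.mem j, v, hgood.mem, fun l _ => rfl, by
      rw [sub_self, abs_zero]; exact Int.natCast_nonneg _, j, by simp, rfl⟩
    src_inj := hgood.g3
    arith := ?_ }⟩
  · -- supp_sub
    intro T w hw j hj
    obtain ⟨k, hk, hb⟩ := so_letter_ne hj
    by_contra hjT
    obtain ⟨a', ha', hoff, hs, i, hi, hiu⟩ := hw.2.get
    obtain ⟨hT1a, hT2a⟩ := hgood.g0 a' ha' hs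
    have h1 := hLjump j k hk
    rw [← hoff j hjT] at h1
    rw [← hiu] at hb
    have h2 := hT1a k i j (Big.jump hG hy (ha' i) hb) h1
    rw [h2] at hi
    exact hjT hi
  · -- code_inj
    intro w hw w' hw' hc
    obtain ⟨a', ha', hoff, hs, i, hi, hiu⟩ := hw.2.get
    obtain ⟨b, hb, hoffb, hsb, i', hi', hiu'⟩ := hw'.2.get
    rw [← hiu, ← hiu']
    apply claimA hG hy hgood ha' hb hs hsb
    intro k
    rw [hiu, hiu']
    constructor
    · intro hk
      obtain ⟨j, hj⟩ := hU _ w hw.2 k hk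
      exact so_letter_eq (hLcard j) (congrFun hc j) hj hk
    · intro hk
      obtain ⟨j, hj⟩ := hU _ w' hw'.2 k hk
      exact so_letter_eq (hLcard j) (congrFun hc j).symm hj hk
  · -- supp_card
    intro w hw s hs
    have h1 : ∀ j ∈ s, ∃ k ∈ L j, Big V r y k w := fun j hj => so_letter_ne (hs j hj)
    choose! kk hkk hkb using h1
    obtain ⟨hT1v, hT2v⟩ := hgood.g0 v hgood.mem hvv
    have hinj : Set.InjOn kk s := by
      intro j hj j' hj' heq
      have h2 := hLjump j (kk j) (hkk j hj)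
      have h3 := hLjump j' (kk j') (hkk j' hj')
      rw [heq] at h2
      exact hT1v _ _ _ h2 h3
    rw [← Finset.card_image_of_injOn hinj]
    apply count_big hG hy hty hw.1 4
    intro k hk
    rw [Finset.mem_image] at hk
    obtain ⟨j, hj, rfl⟩ := hk
    exact hkb j hj
  · -- sep
    intro w hw u hu hne
    by_contra hle
    push Not at hle
    apply hne
    apply hiso20 _ w hw.2 u hu
    have h1' : (4 * r 1 : ℤ) ≤ r 20 := by exact_mod_cast h4r
    have h2 : (0:ℤ) ≤ r 1 := Int.natCast_nonneg _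
    linarith
  · -- arith
    intro w hw
    have hd0 : 0 < d := by omega
    -- a maximal source
    obtain ⟨i₀, -, hi₀⟩ := Finset.exists_max_image Finset.univ v ⟨0, Finset.mem_univ _⟩
    have hsv : sm v ≤ (m+1) * v i₀ := by
      unfold sm
      calc ∑ l, (v l : ℤ) ≤ ∑ l : Fin (m+1), (v i₀ : ℤ) :=
            Finset.sum_le_sum (fun l _ => by exact_mod_cast hi₀ l (Finset.mem_univ _))
        _ = (m+1) * v i₀ := by simp
    have hle : ∀ (c : Fin (m+1) → ℕ) (l : Fin (m+1)), (c l : ℤ) ≤ sm c := by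
      intro c l
      unfold sm
      exact Finset.single_le_sum (f := fun l => (c l : ℤ)) (fun l _ => Int.natCast_nonneg _)
        (Finset.mem_univ l)
    have hwi : ∀ i, w i ≤ (m+1) * v i₀ + (m+1)^2 * r 1 := by
      intro i
      obtain ⟨a', ha', hoff, hs, j, hj, hju⟩ := (hw i).2.get
      have h1 := hle a' j
      rw [hju] at h1
      push_cast at hs
      rw [abs_le] at hs
      have : (w i : ℤ) ≤ (m+1) * v i₀ + (m+1)^2 * r 1 := by linarith
      exact_mod_cast this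
    have hXX : ∑ i, w i ≤ X := by
      refine le_trans (Finset.sum_le_card_nsmul _ _ _ (fun i _ => hwi i)) ?_
      rw [Finset.card_univ, Fintype.card_fin, smul_eq_mul]
      exact hX i₀
    have hr2 : r 2 ≤ ∑ i, w i := by
      have h1 : w ⟨0, hd0⟩ ≤ ∑ i, w i :=
        Finset.single_le_sum (f := w) (fun _ _ => Nat.zero_le _) (mem_univ _)
      refine le_trans ?_ h1
      by_contra hlt
      push Not at hlt
      have h20 : r 2 ≤ r 20 := hG.rmono (by omega)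
      have h2 := hiso20 _ _ (hw ⟨0, hd0⟩).2 0 h0 (by
        rw [abs_le]
        constructor <;> omega)
      exact hzero _ _ (hw ⟨0, hd0⟩).2 h2.symm
    exact hN1 _ hr2 hXX

end Pool.Agent.AlgD
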