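import Pool.Agent.AlgD.Game
import Pool.Agent.AlgD.Sys
import Pool.Agent.DigitA.Src

/-! # CORE. The combinatorial core of the `d`-fold argument. -/

open Finset

namespace Pool.Agent.AlgD

open Pool.Agent.SqrtDC Pool.Agent.DigitA

theorem coreD (A p d : ℕ) [Fact p.Prime] (hd : 2 ≤ d) (hp : 2^(d*(d*(4*A))) < p) :
    ∃ m y₀ : ℕ, ∀ y, y₀ ≤ y →
    ∀ (l t X : ℕ) (V V₀ : Finset ℕ) (r : ℕ → ℕ) (F a : ℕ → ZMod p),
    Gr V r t (m+1) → t < y^(A+1) → t < 2^l → l^2 ≤ y → V₀ ⊆ V → #V ≤ 2 * #V₀ → y ≤ #V →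
    (∀ k, y^2 * #(V.filter (fun v => Jump V r y k v)) ≤ 10 * #V) →
    y * #(V.filter (fun v => 2 ≤ #(cl V r 20 v))) ≤ 2 * #V →
    a d ≠ 0 → 0 ∈ V → (∃ x ∈ V, 0 < x ∧ x ≤ r 20) → (∀ v ∈ V, v ≠ 0 → F v ≠ 0) →
    (∀ v ∈ V₀, d * ((m+1) * v + (m+1)^2 * r 1) ≤ X) →
    (∀ σ, r 2 ≤ σ → σ ≤ X → ∃ α β : ℕ, α ≤ σ ∧ σ ≤ β ∧ σ ≤ α + r 1 ∧ β ≤ σ + r 1 ∧
      wsum a d V F α β = 0) →
    False := by
  have hK : ∀ n : ℕ, 1 ≤ n → n ≤ 2^(d*(d*(4*A))) → (n : ZMod p) ≠ 0 := by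
    intro n hn1 hn2 h0
    rw [ZMod.natCast_eq_zero_iff] at h0
    have h1 := Nat.le_of_dvd (by omega) h0
    exact absurd (lt_of_le_of_lt (h1.trans hn2) hp) (lt_irrefl p)
  have hfin : Finite (ZMod p) := inferInstance
  obtain ⟨m, hm⟩ := endgameD (ZMod p) (Finset (Fin (12*(3*A+2)))) d (4*A) hd hK
  obtain ⟨f, y₁, hf, hy₁⟩ := good_exists A m
  refine ⟨m, y₁ + (4*f^2+3)^2 + 2*(m+1) + 2, ?_⟩
  intro y hy l t X V V₀ r F a hG hty htl hly hV0 hVV hyV hsp hiso ha h0 hx hF hX hN1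
  obtain ⟨v, hv0, hgood⟩ := hy₁ y (by omega) l t V V₀ r hG hty htl hly hV0 hVV hyV hsp hiso
  have hz1 : 4*f^2+3 ≤ Nat.sqrt y := by
    rw [Nat.le_sqrt']
    omega
  have hz2 : Nat.sqrt y * Nat.sqrt y ≤ y := Nat.sqrt_le y
  have hz3 : y < (Nat.sqrt y + 1) * (Nat.sqrt y + 1) := Nat.lt_succ_sqrt y
  set z := Nat.sqrt y with hz
  have hyz : 4*f^2*z ≤ y := le_trans (Nat.mul_le_mul_right z (by omega)) hz2
  have hz4 : y ≤ z^3 := by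
    have h1 : (z+1)*(z+1) ≤ z^3 := by
      have h3 : 3 ≤ z := by omega
      nlinarith [Nat.mul_le_mul h3 (le_refl (z*z)), h3]
    omega
  have htz : t < z^(3*A+2+1) := by
    have h1 : z^(3*A+2+1) = (z^3)^(A+1) := by rw [← pow_mul]; ring_nf
    rw [h1]
    exact lt_of_lt_of_le hty (Nat.pow_le_pow_left hz4 _)
  obtain ⟨S⟩ := end_of_good hG (p := p) (d := d) (A := A) (A' := 3*A+2) (y := y) (f := f) (z := z)
    (X := X) hd (by omega) hty (by omega) hyz hf (by omega) htz F a ha h0 hx hF hgood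
    (fun i => hX (v i) (hv0 i)) hN1
  exact hm (m+1) (by omega) S

end Pool.Agent.AlgD
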