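import Pool.Agent.AlgD.ExactB

/-! # EXDIG. The exactness structure modulo `p`. -/

open Finset Polynomial

namespace Pool.Agent.AlgD

open Pool.Agent.SqrtDC

lemma ExDig_gp (b : ℕ) (p : ℕ) [Fact p.Prime] (N : ℕ) (e : ℕ → ℤ) :
    gp (EE e N) (vb b e p) =
      ((∑ k ∈ range (N+1), Polynomial.C (e k) * X^k : ℤ[X]).map (Int.castRingHom (ZMod p))).comp
        (Polynomial.C ((b : ZMod p)⁻¹) * X) := by
  ext s
  rw [coeff_gp, Polynomial.comp_C_mul_X_coeff, Polynomial.coeff_map, Polynomial.finsetSum_coeff]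
  have h1 : ∑ k ∈ range (N+1), (Polynomial.C (e k) * X^k : ℤ[X]).coeff s
      = if s ∈ range (N+1) then e s else 0 := by
    simp only [Polynomial.coeff_C_mul_X_pow]
    rw [Finset.sum_ite_eq]
  rw [h1]
  unfold vb EE
  by_cases hs : s ∈ range (N+1)
  · rw [if_pos hs]
    by_cases he : e s = 0
    · rw [if_neg (by simp [he]), he]; simp
    · rw [if_pos (Finset.mem_filter.2 ⟨hs, he⟩)]; simp
  · rw [if_neg hs, if_neg (fun h => hs (Finset.mem_filter.1 h).1)]; simp

theorem exP_of_dig (b : ℕ) (hb : 2 ≤ b) (P : ℤ[X]) (hP : 2 ≤ P.natDegree) (α : ℝ)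
    (hα : aeval α P = 0) :
    ∃ C : ℕ, ∀ (p : ℕ) [Fact p.Prime], ¬ p ∣ b → ¬ (p:ℤ) ∣ P.leadingCoeff →
      (∀ x : ZMod p, (P.map (Int.castRingHom (ZMod p))).eval x ≠ 0) →
      ∀ (Bn N Λ : ℕ) (e : ℕ → ℤ), DigB b Bn N α e → C * ((N+1) * Bn)^P.natDegree < b^Λ →
      ExP p (P.map (Int.castRingHom (ZMod p))) (EE e N) (vb b e p) N Λ := by
  obtain ⟨C, hC⟩ := exactB b hb P (by omega) α hα
  refine ⟨C, ?_⟩
  intro p _ hpb hlc hroot Bn N Λ e hdig hlt
  have hdeg : (P.map (Int.castRingHom (ZMod p))).natDegree = P.natDegree := by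
    apply Polynomial.natDegree_map_of_leadingCoeff_ne_zero
    intro h0
    apply hlc
    rw [← ZMod.intCast_zmod_eq_zero_iff_dvd]
    simpa using h0
  have hb0 : (b : ZMod p) ≠ 0 := by
    intro h0
    rw [ZMod.natCast_eq_zero_iff] at h0
    exact hpb h0
  refine ⟨?_, by rw [hdeg]; exact hP, hroot, ?_⟩
  · simp [EE, hdig.zero]
  · intro R hR hs
    rw [hdeg] at hs
    have h1 := hC Bn N Λ R e hdig hR hlt hs
    rw [ExDig_gp, ← Polynomial.comp_assoc, ← Polynomial.map_comp]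
    set c := P.comp (∑ k ∈ range (N+1), Polynomial.C (e k) * X^k) with hc
    unfold cum
    have h2 : ∑ s ∈ range (R+1), ((c.map (Int.castRingHom (ZMod p))).comp
        (Polynomial.C ((b : ZMod p)⁻¹) * X)).coeff s
        = ((b : ZMod p)⁻¹)^R * (((∑ s ∈ range (R+1), c.coeff s * (b:ℤ)^(R-s) : ℤ)) : ZMod p) := by
      push_cast
      rw [Finset.mul_sum]
      refine Finset.sum_congr rfl fun s hs => ?_
      have hle : s ≤ R := by
        have := Finset.mem_range.1 hs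
        omega
      rw [Polynomial.comp_C_mul_X_coeff, Polynomial.coeff_map]
      have h3 : ((b : ZMod p)⁻¹)^R = ((b : ZMod p)⁻¹)^(R-s) * ((b : ZMod p)⁻¹)^s := by
        rw [← pow_add]; congr 1; omega
      have h4 : ((b : ZMod p)⁻¹)^(R-s) * (b : ZMod p)^(R-s) = 1 := by
        rw [← mul_pow, inv_mul_cancel₀ hb0, one_pow]
      rw [h3]
      simp only [eq_intCast]
      linear_combination (-((c.coeff s : ℤ) : ZMod p) * ((b : ZMod p)⁻¹)^s) * h4
    rw [h2, h1]
    simp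

end Pool.Agent.AlgD
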