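import Pool.Agent.AlgD.Defs

/-! # GRP. Grouping digits in blocks of length `l`, base `b`. -/

open Finset

namespace Pool.Agent.AlgD

lemma Grp_zero (b l : ℕ) (e : ℕ → ℤ) : grpB b l e 0 = e 0 := by simp [grpB]

lemma Grp_mul {b l : ℕ} (hl : 1 ≤ l) (e : ℕ → ℤ) (q : ℕ) :
    grpB b l e (q*l+l) = ∑ k ∈ Ioc (q*l) (q*l+l), e k * (b:ℤ)^(q*l+l-k) := by
  have h0 : q*l+l ≠ 0 := by omega
  have h2 : l ∣ q*l+l := ⟨q+1, by ring⟩
  rw [grpB, if_neg h0, if_pos h2, Nat.add_sub_cancel]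

lemma Grp_not {b l k : ℕ} (hk : k ≠ 0) (h : ¬ l ∣ k) (e : ℕ → ℤ) : grpB b l e k = 0 := by
  rw [grpB, if_neg hk, if_neg h]

lemma Grp_between {b l q k : ℕ} (e : ℕ → ℤ) (h1 : q*l < k) (h2 : k < q*l+l) :
    grpB b l e k = 0 := by
  rw [Grp_not (by omega)]
  rintro ⟨c, hc⟩
  have e1 : q * l < c * l := by rw [mul_comm c l, ← hc]; exact h1
  have e2 : c * l < (q+1) * l := by rw [mul_comm c l, ← hc, add_mul, one_mul]; exact h2
  have e3 := Nat.lt_of_mul_lt_mul_right e1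
  have e4 := Nat.lt_of_mul_lt_mul_right e2
  omega

lemma Grp_Ioc {M : Type*} [AddCommMonoid M] (f : ℕ → M) (R r : ℕ) :
    ∑ k ∈ Ioc R (R+r), f k = ∑ x ∈ range r, f (R+1+x) := by
  have h : Ioc R (R+r) = Ico (R+1) (R+1+r) := by
    ext k
    simp only [mem_Ioc, mem_Ico]
    omega
  rw [h, Finset.sum_Ico_eq_sum_range]
  congr 2
  omega

lemma Grp_sum {b l : ℕ} (hb : 2 ≤ b) (hl : 1 ≤ l) (e : ℕ → ℤ) (q : ℕ) :
    ∑ k ∈ range (q*l+1), (grpB b l e k : ℝ) / (b:ℝ)^k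
      = ∑ k ∈ range (q*l+1), (e k : ℝ) / (b:ℝ)^k := by
  have hb0 : (b:ℝ) ≠ 0 := by
    have : (0:ℝ) < b := by exact_mod_cast (by omega : 0 < b)
    exact this.ne'
  induction q with
  | zero => simp [grpB]
  | succ q ih =>
    have h1 : (q+1)*l+1 = (q*l+1) + l := by ring
    rw [h1, Finset.sum_range_add _ (q*l+1) l, Finset.sum_range_add _ (q*l+1) l, ih]
    congr 1
    rw [Finset.sum_eq_single (l-1)]
    · have h2 : q*l+1+(l-1) = q*l+l := by omega
      rw [h2, Grp_mul hl]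
      push_cast
      rw [Finset.sum_div, Grp_Ioc (fun k => (e k : ℝ) * (b:ℝ)^(q*l+l-k) / (b:ℝ)^(q*l+l))]
      refine Finset.sum_congr rfl fun x hx => ?_
      have hx' := Finset.mem_range.1 hx
      have h3 : (b:ℝ)^(q*l+l) = (b:ℝ)^(q*l+l-(q*l+1+x)) * (b:ℝ)^(q*l+1+x) := by
        rw [← pow_add]; congr 1; omega
      rw [h3]
      field_simp
    · intro x hx hne
      have hx' := Finset.mem_range.1 hx
      rw [Grp_between (q := q) e (by omega) (by omega)]
      simp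
    · intro h
      exact absurd (Finset.mem_range.2 (by omega)) h

lemma Grp_sumM {b l : ℕ} (hb : 2 ≤ b) (hl : 1 ≤ l) (e : ℕ → ℤ) (q r : ℕ) (hr : r < l) :
    ∑ k ∈ range (q*l+r+1), (grpB b l e k : ℝ) / (b:ℝ)^k
      = ∑ k ∈ range (q*l+1), (e k : ℝ) / (b:ℝ)^k := by
  have h1 : q*l+r+1 = (q*l+1) + r := by ring
  rw [h1, Finset.sum_range_add _ (q*l+1) r, Grp_sum hb hl]
  rw [add_eq_left]
  refine Finset.sum_eq_zero fun x hx => ?_
  have hx' := Finset.mem_range.1 hx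
  rw [Grp_between (q := q) e (by omega) (by omega)]
  simp

lemma Grp_geom (b : ℕ) (hb : 2 ≤ b) (r : ℕ) : ∑ x ∈ range r, (b:ℤ)^x ≤ (b:ℤ)^r := by
  induction r with
  | zero => simp
  | succ r ih =>
    rw [Finset.sum_range_succ, pow_succ]
    have h1 : (2:ℤ) ≤ b := by exact_mod_cast hb
    have h2 : (0:ℤ) < (b:ℤ)^r := by positivity
    nlinarith

lemma Grp_tail {b B : ℕ} (hb : 2 ≤ b) {α : ℝ} {e : ℕ → ℤ} (h : DigS b B α e) :
    ∃ C : ℝ, 0 ≤ C ∧ ∀ M : ℕ, |∑ k ∈ range (M+1), (e k : ℝ) / (b:ℝ)^k - α| ≤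
      C * ((M:ℝ)+1)^B / (b:ℝ)^M := by
  have hb0 : (0:ℝ) < b := by exact_mod_cast (by omega : 0 < b)
  have hb1 : (1:ℝ) < b := by exact_mod_cast (by omega : 1 < b)
  set r : ℝ := (b:ℝ)⁻¹ with hr
  have hr0 : 0 < r := by positivity
  have hr1 : r < 1 := inv_lt_one_of_one_lt₀ hb1
  have hsm : Summable (fun i : ℕ => (((i+2:ℕ):ℝ))^B * r^(i+2)) := by
    have h1 := summable_pow_mul_geometric_of_norm_lt_one (R := ℝ) B (r := r)
      (by rw [Real.norm_eq_abs, abs_of_pos hr0]; exact hr1)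
    exact (summable_nat_add_iff (f := fun n : ℕ => (n:ℝ)^B * r^n) 2).2 h1
  set T : ℝ := ∑' i : ℕ, (((i+2:ℕ):ℝ))^B * r^(i+2) with hT
  have hT0 : 0 ≤ T := tsum_nonneg fun i => by positivity
  refine ⟨b * (B * T), by positivity, fun M => ?_⟩
  have h1 := h.sum
  have h2 : Summable (fun k => (e k : ℝ) / (b:ℝ)^k) := h1.summable
  have h3 := h2.sum_add_tsum_nat_add (M+1)
  rw [h1.tsum_eq] at h3
  have hg : HasSum (fun i : ℕ => (b * ((M:ℝ)+1)^B / (b:ℝ)^M * B) *
      ((((i+2:ℕ):ℝ))^B * r^(i+2))) ((b * ((M:ℝ)+1)^B / (b:ℝ)^M * B) * T) :=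
    (hsm.hasSum).mul_left _
  have h4 : ‖∑' k, (e (k + (M+1)) : ℝ) / (b:ℝ)^(k + (M+1))‖ ≤
      (b * ((M:ℝ)+1)^B / (b:ℝ)^M * B) * T := by
    apply tsum_of_norm_bounded hg
    intro k
    rw [Real.norm_eq_abs, abs_div, abs_of_pos (by positivity : (0:ℝ) < (b:ℝ)^(k + (M+1)))]
    have h5 : |(e (k + (M+1)) : ℝ)| ≤ B * (((k + (M+1) : ℕ):ℝ)+1)^B := by
      have := h.bd (k + (M+1))
      exact_mod_cast this
    have h6 : (((k + (M+1) : ℕ):ℝ)+1)^B ≤ (((M:ℝ)+1) * ((k+2:ℕ):ℝ))^B := by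
      apply pow_le_pow_left₀ (by positivity)
      push_cast
      have : (0:ℝ) ≤ M := by positivity
      have : (0:ℝ) ≤ k := by positivity
      nlinarith [mul_nonneg (by positivity : (0:ℝ) ≤ M) (by positivity : (0:ℝ) ≤ k)]
    calc |(e (k + (M+1)) : ℝ)| / (b:ℝ)^(k + (M+1))
        ≤ (B * (((M:ℝ)+1) * ((k+2:ℕ):ℝ))^B) / (b:ℝ)^(k + (M+1)) := by
          gcongr
          exact h5.trans (by gcongr)
      _ = (b * ((M:ℝ)+1)^B / (b:ℝ)^M * B) * ((((k+2:ℕ):ℝ))^B * r^(k+2)) := by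
          rw [hr, mul_pow, inv_pow, pow_add, pow_add, pow_add]
          field_simp
  rw [Real.norm_eq_abs] at h4
  have h5 : ∑ k ∈ range (M+1), (e k : ℝ) / (b:ℝ)^k - α
      = - ∑' k, (e (k + (M+1)) : ℝ) / (b:ℝ)^(k + (M+1)) := by
    rw [← h3]; ring
  rw [h5, abs_neg]
  calc _ ≤ _ := h4
    _ = _ := by ring

theorem digB_grp {b B : ℕ} (hb : 2 ≤ b) {α : ℝ} {e : ℕ → ℤ} (h : DigS b B α e) :
    ∃ B' : ℕ, 1 ≤ B' ∧ ∀ l, 1 ≤ l → ∀ N, DigB b (B' * (N+1)^B' * b^l) N α (grpB b l e) := by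
  obtain ⟨C, hC0, hC⟩ := Grp_tail hb h
  obtain ⟨c, hc⟩ := exists_nat_ge C
  refine ⟨B + c + 1, by omega, fun l hl N => ?_⟩
  have hb0 : (0:ℝ) < b := by exact_mod_cast (by omega : 0 < b)
  have hb1 : (1:ℝ) ≤ b := by exact_mod_cast (by omega : 1 ≤ b)
  have hbl : 1 ≤ b^l := Nat.one_le_pow _ _ (by omega)
  -- the bound
  have hpow : (N+1)^B ≤ (N+1)^(B+c+1) := Nat.pow_le_pow_right (by omega) (by omega)
  have hBb : B * (N+1)^B * b^l ≤ (B+c+1) * (N+1)^(B+c+1) * b^l := by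
    apply Nat.mul_le_mul_right
    exact Nat.mul_le_mul (by omega) hpow
  refine ⟨by rw [Grp_zero]; exact h.zero, ?_, ?_⟩
  · intro k hkN
    have hmain : |grpB b l e k| ≤ ((B * (N+1)^B * b^l : ℕ) : ℤ) := by
      by_cases hk : k = 0
      · subst hk
        rw [Grp_zero]
        have h1 := h.bd 0
        have h2 : (B:ℤ) * (((0:ℕ):ℤ) + 1)^B ≤ ((B * (N+1)^B * b^l : ℕ) : ℤ) := by
          have h3 : B * (0+1)^B ≤ B * (N+1)^B * b^l := by
            calc B * (0+1)^B ≤ B * (N+1)^B := Nat.mul_le_mul_left _ (Nat.pow_le_pow_left (by omega) _)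
              _ ≤ B * (N+1)^B * b^l := Nat.le_mul_of_pos_right _ hbl
          exact_mod_cast h3
        exact h1.trans h2
      · by_cases hlk : l ∣ k
        · obtain ⟨c', rfl⟩ := hlk
          obtain ⟨q, rfl⟩ : ∃ q, c' = q + 1 := by
            refine ⟨c' - 1, ?_⟩
            have : c' ≠ 0 := by rintro rfl; simp at hk
            omega
          have e1 : l * (q+1) = q*l + l := by ring
          rw [e1] at hkN ⊢
          rw [Grp_mul hl]
          calc |∑ k ∈ Ioc (q*l) (q*l+l), e k * (b:ℤ)^(q*l+l-k)|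
              ≤ ∑ k ∈ Ioc (q*l) (q*l+l), |e k * (b:ℤ)^(q*l+l-k)| :=
                Finset.abs_sum_le_sum_abs _ _
            _ ≤ ∑ k ∈ Ioc (q*l) (q*l+l), ((B:ℤ) * ((N:ℤ)+1)^B) * (b:ℤ)^(q*l+l-k) := by
                refine Finset.sum_le_sum fun k hk => ?_
                rw [abs_mul, abs_of_nonneg (by positivity : (0:ℤ) ≤ (b:ℤ)^(q*l+l-k))]
                apply mul_le_mul_of_nonneg_right _ (by positivity)
                refine (h.bd k).trans ?_
                apply mul_le_mul_of_nonneg_left _ (by positivity)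
                apply pow_le_pow_left₀ (by positivity)
                have := (Finset.mem_Ioc.1 hk).2
                have h4 : (k:ℤ) ≤ N := by exact_mod_cast this.trans hkN
                linarith
            _ = ((B:ℤ) * ((N:ℤ)+1)^B) * ∑ k ∈ Ioc (q*l) (q*l+l), (b:ℤ)^(q*l+l-k) := by
                rw [Finset.mul_sum]
            _ ≤ ((B:ℤ) * ((N:ℤ)+1)^B) * (b:ℤ)^l := by
                apply mul_le_mul_of_nonneg_left _ (by positivity)
                rw [Grp_Ioc (fun k => (b:ℤ)^(q*l+l-k))]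
                have h5 : ∑ x ∈ range l, (b:ℤ)^(q*l+l-(q*l+1+x)) = ∑ x ∈ range l, (b:ℤ)^x := by
                  rw [← Finset.sum_range_reflect]
                  refine Finset.sum_congr rfl fun x hx => ?_
                  have := Finset.mem_range.1 hx
                  congr 1
                  omega
                rw [h5]
                exact Grp_geom b hb l
            _ = _ := by push_cast; ring
        · rw [Grp_not hk hlk, abs_zero]; positivity
    refine hmain.trans ?_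
    exact_mod_cast hBb
  · set q := N / l with hq
    set r := N % l with hrr
    have hM : N = q*l + r := by rw [hq, hrr, mul_comm]; exact (Nat.div_add_mod N l).symm
    have hrl : r < l := Nat.mod_lt _ (by omega)
    have h1 : ∑ k ∈ range (N+1), (grpB b l e k : ℝ) / (b:ℝ)^k
        = ∑ k ∈ range (q*l+1), (e k : ℝ) / (b:ℝ)^k := by
      conv_lhs => rw [hM]
      exact Grp_sumM hb hl e q r hrl
    rw [h1]
    refine (hC (q*l)).trans ?_
    have hqN : ((q*l : ℕ):ℝ) ≤ N := by exact_mod_cast (by omega : q*l ≤ N)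
    have hN0 : (0:ℝ) ≤ N := by positivity
    have h2 : (((q*l : ℕ):ℝ)+1)^B ≤ ((N:ℝ)+1)^(B+c+1) := by
      calc (((q*l : ℕ):ℝ)+1)^B ≤ ((N:ℝ)+1)^B := by
            apply pow_le_pow_left₀ (by positivity); linarith
        _ ≤ ((N:ℝ)+1)^(B+c+1) := pow_le_pow_right₀ (by linarith) (by omega)
    have h3 : C ≤ ((B+c+1 : ℕ):ℝ) := by
      push_cast
      have : (0:ℝ) ≤ B := by positivity
      linarith
    have h4 : (1:ℝ) / (b:ℝ)^(q*l) ≤ (b:ℝ)^l / (b:ℝ)^N := by
      rw [div_le_div_iff₀ (by positivity) (by positivity), one_mul, ← pow_add]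
      apply pow_le_pow_right₀ hb1
      omega
    calc C * (((q*l : ℕ):ℝ)+1)^B / (b:ℝ)^(q*l)
        = C * (((q*l : ℕ):ℝ)+1)^B * (1 / (b:ℝ)^(q*l)) := by ring
      _ ≤ ((B+c+1 : ℕ):ℝ) * ((N:ℝ)+1)^(B+c+1) * ((b:ℝ)^l / (b:ℝ)^N) := by
          apply mul_le_mul _ h4 (by positivity) (by positivity)
          exact mul_le_mul h3 h2 (by positivity) (by positivity)
      _ = _ := by push_cast; ring

theorem card_grpB {b : ℕ} {e : ℕ → ℤ} {n L : ℕ} (S : Finset ℕ)
    (hS : ∀ k, 1 ≤ k → k ≤ n → e k ≠ 0 → ∃ s ∈ S, s ≤ k ∧ k ≤ s + L) :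
    #(EE (grpB b (L+1) e) n) ≤ 2 * #S + 1 := by
  classical
  have hsub : EE (grpB b (L+1) e) n ⊆
      insert 0 (S.image (fun s => (L+1) * ((s + L) / (L+1))) ∪
        S.image (fun s => (L+1) * ((s + L) / (L+1) + 1))) := by
    intro k hk
    rw [EE, Finset.mem_filter, Finset.mem_range] at hk
    rw [Finset.mem_insert, Finset.mem_union, Finset.mem_image, Finset.mem_image]
    by_cases h0 : k = 0
    · exact Or.inl h0
    right
    have hdiv : (L+1) ∣ k := by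
      by_contra hcon
      exact hk.2 (Grp_not h0 hcon e)
    have he2 := hk.2
    rw [grpB, if_neg h0, if_pos hdiv] at he2
    obtain ⟨j, hj, hj'⟩ := Finset.exists_ne_zero_of_sum_ne_zero he2
    rw [Finset.mem_Ioc] at hj
    have hdk : e j ≠ 0 := left_ne_zero_of_mul hj'
    obtain ⟨s, hs, hs1, hs2⟩ := hS j (by omega) (by omega) hdk
    obtain ⟨c, hc⟩ := hdiv
    have hLe : L + 1 ≤ k := by
      have : c ≠ 0 := by rintro rfl; simp at hc; exact h0 hc
      rw [hc]; exact Nat.le_mul_of_pos_right _ (by omega)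
    have b1 : s ≤ (L+1) * c := by omega
    have b2 : (L+1) * c ≤ s + L + L := by omega
    have hq1 : (s + L) / (L+1) ≤ c := by
      apply Nat.le_of_lt_succ
      rw [Nat.div_lt_iff_lt_mul (by omega), Nat.succ_mul, mul_comm c]
      omega
    have hq2 : c ≤ (s + L) / (L+1) + 1 := by
      have h1 : c - 1 ≤ (s + L) / (L+1) := by
        rw [Nat.le_div_iff_mul_le (by omega), Nat.sub_mul, mul_comm c, one_mul]
        omega
      omega
    rcases (by omega : c = (s + L) / (L+1) ∨ c = (s + L) / (L+1) + 1) with h | h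
    · left; exact ⟨s, hs, by rw [hc, h]⟩
    · right; exact ⟨s, hs, by rw [hc, h]⟩
  have h1 := (Finset.card_le_card hsub).trans (Finset.card_insert_le _ _)
  have h2 := Finset.card_union_le (S.image (fun s => (L+1) * ((s + L) / (L+1))))
    (S.image (fun s => (L+1) * ((s + L) / (L+1) + 1)))
  have h3 : #(S.image (fun s => (L+1) * ((s + L) / (L+1)))) ≤ #S := Finset.card_image_le
  have h4 : #(S.image (fun s => (L+1) * ((s + L) / (L+1) + 1))) ≤ #S := Finset.card_image_le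
  omega

end Pool.Agent.AlgD
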