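import Pool.Agent.AlgD.Defs

/-! # ROOTIDEAL. `K = ℚ[X]/(P)`: for all large primes `p`, a root of `P` modulo `p` gives an ideal of
norm `p`. `θ` = root of `P` in `K = AdjoinRoot (P.map ℚ)`, `ℓ` = leading coefficient, `η = ℓ θ` is
integral, root of the monic integer polynomial `Q = P.integralNormalization`-like; a root `a` of `P` mod `p`
gives the root `ℓ a` of `minpoly ℤ η` mod `p`. Kummer–Dedekind
(`Mathlib/NumberTheory/NumberField/Ideal/KummerDedekind.lean`, `p ∤ exponent η`). -/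

open Polynomial NumberField

namespace Pool.Agent.AlgD

/-- every algebraic integer of `ℚ(η)` has a multiple in `ℤ[η]` -/
theorem RootIdeal_mul {K : Type} [Field K] [NumberField K] (η : 𝓞 K)
    (hK : IntermediateField.adjoin ℚ {(η : K)} = ⊤) (x : 𝓞 K) :
    ∃ d : ℕ, 0 < d ∧ (d : 𝓞 K) * x ∈ Algebra.adjoin ℤ {η} := by
  have hx : (x : K) ∈ IntermediateField.adjoin ℚ {(η : K)} := by rw [hK]; trivial
  have hint : IsIntegral ℚ (η : K) := Algebra.IsIntegral.isIntegral _
  have hx2 : (x : K) ∈ (IntermediateField.adjoin ℚ {(η : K)}).toSubalgebra := hx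
  rw [IntermediateField.adjoin_simple_toSubalgebra_of_isAlgebraic hint.isAlgebraic] at hx2
  rw [Algebra.adjoin_singleton_eq_range_aeval] at hx2
  obtain ⟨q, hq⟩ := hx2
  obtain ⟨b, hbm, hb⟩ := IsLocalization.integerNormalization_spec (nonZeroDivisors ℤ) q
  set R := IsLocalization.integerNormalization (nonZeroDivisors ℤ) q with hR
  have hb0 : (b : ℤ) ≠ 0 := nonZeroDivisors.ne_zero hbm
  have h1 : aeval η R = ((b : ℤ) : 𝓞 K) * x := by
    apply RingOfIntegers.ext
    have h2 : ((aeval η R : 𝓞 K) : K) = aeval (η : K) R := by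
      have := (aeval_algebraMap_apply K η R).symm
      exact this
    rw [h2]
    have h3 : aeval (η : K) R = aeval (η : K) (R.map (algebraMap ℤ ℚ)) := by
      rw [aeval_map_algebraMap]
    rw [h3, hb, map_zsmul]
    have hq' : aeval (η : K) q = (x : K) := hq
    rw [hq', zsmul_eq_mul]
    simp
  refine ⟨(b : ℤ).natAbs, Int.natAbs_pos.2 hb0, ?_⟩
  have h4 : ((b : ℤ) : 𝓞 K) * x ∈ Algebra.adjoin ℤ {η} := by
    rw [← h1]; exact aeval_mem_adjoin_singleton ℤ η
  rcases Int.natAbs_eq (b : ℤ) with h | h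
  · have h5 : (((b : ℤ).natAbs : ℕ) : 𝓞 K) = ((b : ℤ) : 𝓞 K) := by
      conv_rhs => rw [h]
      simp
    rw [h5]; exact h4
  · have h5 : (((b : ℤ).natAbs : ℕ) : 𝓞 K) = - ((b : ℤ) : 𝓞 K) := by
      conv_rhs => rw [h]
      simp
    rw [h5, neg_mul]
    exact neg_mem h4

theorem RootIdeal_conductor {K : Type} [Field K] [NumberField K] (η : 𝓞 K)
    (hK : IntermediateField.adjoin ℚ {(η : K)} = ⊤) :
    ∃ d : ℕ, 0 < d ∧ ∀ x : 𝓞 K, (d : 𝓞 K) * x ∈ Algebra.adjoin ℤ {η} := by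
  classical
  obtain ⟨S, hS⟩ := (inferInstance : Module.Finite ℤ (𝓞 K)).1
  choose f hf0 hf using RootIdeal_mul η hK
  refine ⟨∏ s ∈ S, f s, Finset.prod_pos fun s _ => hf0 s, fun x => ?_⟩
  have hx : x ∈ Submodule.span ℤ (S : Set (𝓞 K)) := by rw [hS]; trivial
  refine Submodule.span_induction (p := fun x _ => ((∏ s ∈ S, f s : ℕ) : 𝓞 K) * x ∈
    Algebra.adjoin ℤ {η}) ?_ ?_ ?_ ?_ hx
  · intro s hs
    rw [← Finset.mul_prod_erase S f hs]
    have h1 : ((f s * ∏ t ∈ S.erase s, f t : ℕ) : 𝓞 K) * s =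
        ((∏ t ∈ S.erase s, f t : ℕ) : 𝓞 K) * ((f s : 𝓞 K) * s) := by
      push_cast; ring
    rw [h1]
    exact mul_mem (natCast_mem _ _) (hf s)
  · simp
  · intro a b _ _ ha hb
    rw [mul_add]; exact add_mem ha hb
  · intro a b _ hb
    rw [mul_smul_comm]
    exact Subalgebra.smul_mem _ hb a

theorem root_ideal (P : ℤ[X]) (hirr : Irreducible (P.map (Int.castRingHom ℚ)))
    (K : Type) [Field K] [NumberField K] (θ : K) (hθ : aeval θ P = 0)
    (hK : IntermediateField.adjoin ℚ {θ} = ⊤) :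
    ∃ M : ℕ, ∀ p : ℕ, ∀ _ : Fact p.Prime, M < p →
      (∃ x : ZMod p, (P.map (Int.castRingHom (ZMod p))).eval x = 0) → aF K p ≠ 0 := by
  classical
  -- an integral multiple
  have halg : IsAlgebraic ℤ θ := by
    rw [IsFractionRing.isAlgebraic_iff ℤ ℚ K]
    exact Algebra.IsAlgebraic.isAlgebraic θ
  obtain ⟨ℓ, hℓ0, hℓ⟩ := halg.exists_integral_multiple
  set η : 𝓞 K := ⟨ℓ • θ, hℓ⟩ with hη
  have hηK : (η : K) = (ℓ : K) * θ := by
    change ℓ • θ = _
    rw [zsmul_eq_mul]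
  have hℓK : (ℓ : K) ≠ 0 := by exact_mod_cast hℓ0
  have hKη : IntermediateField.adjoin ℚ {(η : K)} = ⊤ := by
    rw [eq_top_iff, ← hK, IntermediateField.adjoin_simple_le_iff]
    have h1 : (η : K) ∈ IntermediateField.adjoin ℚ {(η : K)} :=
      IntermediateField.mem_adjoin_simple_self ℚ _
    have h2 : θ = (ℓ : K)⁻¹ * (η : K) := by
      rw [hηK, inv_mul_cancel_left₀ hℓK]
    have h3 : (ℓ : K) ∈ IntermediateField.adjoin ℚ {(η : K)} := intCast_mem _ _
    have h4 : (ℓ : K)⁻¹ * (η : K) ∈ IntermediateField.adjoin ℚ {(η : K)} :=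
      mul_mem (inv_mem h3) h1
    rwa [← h2] at h4
  obtain ⟨d, hd0, hd⟩ := RootIdeal_conductor η hKη
  -- the polynomial identity
  set Q : ℤ[X] := minpoly ℤ η with hQ
  set Q1 : ℤ[X] := Q.comp (C ℓ * X) with hQ1
  have hQ1θ : aeval θ Q1 = 0 := by
    rw [hQ1, aeval_comp]
    have h1 : aeval θ (C ℓ * X : ℤ[X]) = (η : K) := by
      rw [map_mul, aeval_C, aeval_X, hηK]; simp
    rw [h1]
    have h2 : aeval (η : K) Q = ((aeval η Q : 𝓞 K) : K) := aeval_algebraMap_apply K η Q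
    rw [h2, hQ, minpoly.aeval]
    rfl
  have hdvd : P.map (Int.castRingHom ℚ) ∣ Q1.map (Int.castRingHom ℚ) := by
    have hint : IsIntegral ℚ θ := Algebra.IsIntegral.isIntegral _
    have e1 : aeval θ (P.map (Int.castRingHom ℚ)) = 0 := by
      rw [← hθ]; exact aeval_map_algebraMap ℚ θ P
    have e2 : aeval θ (Q1.map (Int.castRingHom ℚ)) = 0 := by
      rw [← hQ1θ]; exact aeval_map_algebraMap ℚ θ Q1
    have h1 : minpoly ℚ θ ∣ P.map (Int.castRingHom ℚ) := minpoly.dvd ℚ θ e1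
    have h2 : P.map (Int.castRingHom ℚ) ∣ minpoly ℚ θ :=
      (minpoly.irreducible hint).dvd_symm hirr h1
    exact h2.trans (minpoly.dvd ℚ θ e2)
  obtain ⟨R, hR⟩ := hdvd
  obtain ⟨b, hbm, hb⟩ := IsLocalization.integerNormalization_spec (nonZeroDivisors ℤ) R
  set R1 := IsLocalization.integerNormalization (nonZeroDivisors ℤ) R with hR1
  have hb0 : (b : ℤ) ≠ 0 := nonZeroDivisors.ne_zero hbm
  have hid : C (b : ℤ) * Q1 = P * R1 := by
    apply Polynomial.map_injective (Int.castRingHom ℚ) (RingHom.injective_int _)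
    have hb' : R1.map (Int.castRingHom ℚ) = (b : ℤ) • R := hb
    rw [Polynomial.map_mul, Polynomial.map_mul, hb', hR, Polynomial.map_C, zsmul_eq_mul]
    have : (C ((Int.castRingHom ℚ) (b : ℤ)) : ℚ[X]) = (((b : ℤ)) : ℚ[X]) := by simp
    rw [this]; ring
  refine ⟨max d (b : ℤ).natAbs, fun p hp hpM ⟨a, ha⟩ => ?_⟩
  have hpd : d < p := lt_of_le_of_lt (le_max_left _ _) hpM
  have hpb : (b : ℤ).natAbs < p := lt_of_le_of_lt (le_max_right _ _) hpM
  have hexp : ¬ p ∣ RingOfIntegers.exponent η := by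
    intro h
    have h1 : ((d : ℤ)) ∈ Ideal.under ℤ (conductor ℤ η) := by
      rw [Ideal.mem_comap, mem_conductor_iff]
      intro x
      have := hd x
      simpa using this
    rw [← Int.ideal_span_absNorm_eq_self (Ideal.under ℤ (conductor ℤ η)),
      Ideal.mem_span_singleton] at h1
    have h2 : RingOfIntegers.exponent η ∣ d := by
      rw [RingOfIntegers.exponent]
      exact_mod_cast h1
    exact absurd (Nat.le_of_dvd hd0 (h.trans h2)) (not_le.2 hpd)
  have hbp : ((b : ℤ) : ZMod p) ≠ 0 := by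
    intro h
    rw [ZMod.intCast_zmod_eq_zero_iff_dvd] at h
    have h1 : p ∣ (b : ℤ).natAbs := Int.natCast_dvd.1 h
    exact absurd (Nat.le_of_dvd (Int.natAbs_pos.2 hb0) h1) (not_le.2 hpb)
  -- the root of `minpoly η`
  set c : ZMod p := (ℓ : ZMod p) * a with hc
  have hroot : (Q.map (Int.castRingHom (ZMod p))).eval c = 0 := by
    have h1 := congrArg (fun f : ℤ[X] => (f.map (Int.castRingHom (ZMod p))).eval a) hid
    simp only [Polynomial.map_mul, eval_mul, ha, zero_mul, Polynomial.map_C, eval_C] at h1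
    have h2 : (Q1.map (Int.castRingHom (ZMod p))).eval a = 0 := by
      rcases mul_eq_zero.1 h1 with h | h
      · exact absurd h hbp
      · exact h
    rw [hQ1, Polynomial.map_comp, eval_comp] at h2
    simpa [hc] using h2
  -- the homomorphism
  have hlift : ∀ x ∈ Ideal.span {Q.map (Int.castRingHom (ZMod p))}, evalRingHom c x = 0 := by
    intro x hx
    rw [Ideal.mem_span_singleton] at hx
    obtain ⟨y, rfl⟩ := hx
    rw [map_mul, coe_evalRingHom, hroot, zero_mul]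
  let f1 : ((ZMod p)[X] ⧸ Ideal.span {Q.map (Int.castRingHom (ZMod p))}) →+* ZMod p :=
    Ideal.Quotient.lift _ (evalRingHom c) hlift
  let f : 𝓞 K →+* ZMod p :=
    (f1.comp (RingOfIntegers.ZModXQuotSpanEquivQuotSpan hexp).symm.toRingHom).comp
      (Ideal.Quotient.mk (Ideal.span {(p : 𝓞 K)}))
  have hsurj : Function.Surjective f := ZMod.ringHom_surjective f
  have hnorm : Ideal.absNorm (RingHom.ker f) = p := by
    rw [Ideal.absNorm_apply, Submodule.cardQuot_apply]
    rw [Nat.card_congr (RingHom.quotientKerEquivOfSurjective hsurj).toEquiv, Nat.card_zmod]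
  unfold aF
  rw [Nat.cast_ne_zero, Nat.card_ne_zero]
  exact ⟨⟨⟨RingHom.ker f, hnorm⟩⟩, Ideal.finite_setOfPred_absNorm_eq p⟩

end Pool.Agent.AlgD
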