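import Pool.Agent.AlgD.NoRootField
import Pool.Agent.AlgD.RootIdeal
import Pool.Agent.AlgD.SepDvd

/-! # ROOTFREE. `K = AdjoinRoot (P.map ℚ)`, `L = SplittingField (P.map ℚ)` (number fields);
`P` is separable of degree `≥ 2`, so it has two different roots in `L`, which give two different homs
`K → L` (`AdjoinRoot.lift`). `no_root_field`, `root_ideal`; for the rest take `p` larger than `M`, the
leading coefficient, and the bound of `sqfree_large`; `dvd_frob`. -/

open Polynomial NumberField

namespace Pool.Agent.AlgD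

lemma RootFree_adjoin {K : Type} [Field K] [CharZero K] (θ : K)
    (h : ∀ x : K, ∃ g : ℚ[X], x = g.eval₂ (Rat.castHom K) θ) :
    IntermediateField.adjoin ℚ {θ} = ⊤ := by
  rw [eq_top_iff]
  intro x _
  obtain ⟨g, rfl⟩ := h x
  have h1 : aeval θ g ∈ Algebra.adjoin ℚ ({θ} : Set K) := Polynomial.aeval_mem_adjoin_singleton ℚ θ
  have h2 := IntermediateField.algebra_adjoin_le_adjoin ℚ ({θ} : Set K) h1
  rw [Polynomial.aeval_def] at h2
  have h3 : algebraMap ℚ K = Rat.castHom K := Subsingleton.elim _ _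
  rw [h3] at h2
  exact h2

lemma RootFree_aeval {K : Type} [Field K] [CharZero K] (θ : K) (P : ℤ[X])
    (h : (P.map (Int.castRingHom ℚ)).eval₂ (Rat.castHom K) θ = 0) : aeval θ P = 0 := by
  rw [Polynomial.eval₂_map] at h
  rw [Polynomial.aeval_def]
  have h3 : algebraMap ℤ K = (Rat.castHom K).comp (Int.castRingHom ℚ) := Subsingleton.elim _ _
  rw [h3]
  exact h

theorem root_free (P : ℤ[X]) (hirr : Irreducible (P.map (Int.castRingHom ℚ)))
    (hd : 2 ≤ P.natDegree) (M : ℕ) :
    ∃ p : ℕ, ∃ _ : Fact p.Prime, M < p ∧ ¬ (p : ℤ) ∣ P.leadingCoeff ∧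
      (∀ x : ZMod p, (P.map (Int.castRingHom (ZMod p))).eval x ≠ 0) ∧
      ∃ i₀ : ℕ, 1 ≤ i₀ ∧ P.map (Int.castRingHom (ZMod p)) ∣ X^(p^i₀) - X := by
  set f : ℚ[X] := P.map (Int.castRingHom ℚ) with hf
  have : Fact (Irreducible f) := ⟨hirr⟩
  have hf0 : f ≠ 0 := hirr.ne_zero
  have hfd : 2 ≤ f.natDegree := by
    rw [hf, Polynomial.natDegree_map_eq_of_injective (RingHom.injective_int _)]
    exact hd
  -- the field `K`
  have hK1 : Module.Finite ℚ (AdjoinRoot f) := (AdjoinRoot.powerBasis hf0).finite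
  have hK0 : CharZero (AdjoinRoot f) :=
    charZero_of_injective_algebraMap (algebraMap ℚ (AdjoinRoot f)).injective
  have hKN : NumberField (AdjoinRoot f) :=
    { to_charZero := hK0
      to_finiteDimensional := by convert hK1 }
  have hL1 : FiniteDimensional ℚ f.SplittingField := inferInstance
  have hLN : NumberField f.SplittingField :=
    { to_charZero := inferInstance
      to_finiteDimensional := by convert hL1 }
  -- two roots in the splitting field
  have hcard : Fintype.card (f.rootSet f.SplittingField) = f.natDegree :=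
    Polynomial.card_rootSet_eq_natDegree hirr.separable (Polynomial.SplittingField.splits f)
  obtain ⟨x, y, hxy⟩ := Fintype.exists_pair_of_one_lt_card (by rw [hcard]; omega :
    1 < Fintype.card (f.rootSet f.SplittingField))
  have hx : f.eval₂ (algebraMap ℚ f.SplittingField) (x : f.SplittingField) = 0 :=
    (Polynomial.mem_rootSet.1 x.2).2
  have hy : f.eval₂ (algebraMap ℚ f.SplittingField) (y : f.SplittingField) = 0 :=
    (Polynomial.mem_rootSet.1 y.2).2
  have hne : AdjoinRoot.lift (algebraMap ℚ f.SplittingField) (x : f.SplittingField) hx ≠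
      AdjoinRoot.lift (algebraMap ℚ f.SplittingField) (y : f.SplittingField) hy := by
    intro h
    apply hxy
    have h1 := RingHom.congr_fun h (AdjoinRoot.root f)
    rw [AdjoinRoot.lift_root, AdjoinRoot.lift_root] at h1
    exact Subtype.ext h1
  have hof : AdjoinRoot.of f = Rat.castHom (AdjoinRoot f) := Subsingleton.elim _ _
  obtain ⟨M1, hM1⟩ := root_ideal P hirr (AdjoinRoot f) (AdjoinRoot.root f)
    (RootFree_aeval _ _ (by
      rw [← hof]
      exact AdjoinRoot.eval₂_root f))
    (RootFree_adjoin _ (by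
      intro z
      obtain ⟨g, rfl⟩ := AdjoinRoot.mk_surjective z
      refine ⟨g, ?_⟩
      rw [← hof, ← AdjoinRoot.aeval_eq, Polynomial.aeval_def]
      rfl))
  obtain ⟨M2, hM2⟩ := sqfree_large P hirr
  obtain ⟨p, hp, hMp, hpa⟩ := no_root_field _ _ hne
    (max M (max M1 (max M2 P.leadingCoeff.natAbs)))
  have hfp : Fact p.Prime := ⟨hp⟩
  simp only [max_lt_iff] at hMp
  obtain ⟨hp1, hp2, hp3, hp4⟩ := hMp
  refine ⟨p, hfp, hp1, ?_, ?_, ?_⟩
  · intro h0
    have h1 := Int.natAbs_dvd_natAbs.2 h0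
    rw [Int.natAbs_natCast] at h1
    have h2 : 0 < P.leadingCoeff.natAbs := by
      apply Int.natAbs_pos.2
      rw [Ne, Polynomial.leadingCoeff_eq_zero]
      rintro rfl
      simp at hd
    exact absurd (Nat.le_of_dvd h2 h1) (by omega)
  · intro z hz
    exact hM1 p hfp hp2 ⟨z, hz⟩ hpa
  · exact dvd_frob p _ (hM2 p hp hp3)

end Pool.Agent.AlgD
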