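import Pool.Agent.AlgD.MainStep
import Pool.Agent.AlgD.ExDig
import Pool.Agent.AlgD.Grp
import Pool.Agent.AlgD.RootFree
import Pool.Agent.DigitG.Cover

/-! # COVER. The normalised covering theorem in base `b`. -/

open Finset Filter Polynomial

namespace Pool.Agent.AlgD

open Pool.Agent.SqrtDC

theorem int_poly {α : ℝ} (hα : IsAlgebraic ℚ α) (hirr : Irrational α) :
    ∃ P : ℤ[X], Irreducible (P.map (Int.castRingHom ℚ)) ∧ 2 ≤ P.natDegree ∧ aeval α P = 0 := by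
  have hint : IsIntegral ℚ α := hα.isIntegral
  set μ : ℚ[X] := minpoly ℚ α with hμ
  have hμ0 : μ ≠ 0 := minpoly.ne_zero hint
  have hμirr : Irreducible μ := minpoly.irreducible hint
  obtain ⟨c, hcM, hc⟩ := IsLocalization.integerNormalization_spec (nonZeroDivisors ℤ) μ
  have hc0 : c ≠ 0 := nonZeroDivisors.ne_zero hcM
  set P : ℤ[X] := IsLocalization.integerNormalization (nonZeroDivisors ℤ) μ with hP
  have hmap : P.map (Int.castRingHom ℚ) = C ((c : ℤ) : ℚ) * μ := by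
    rw [← algebraMap_int_eq, hc]
    ext i
    rw [Polynomial.coeff_smul, Polynomial.coeff_C_mul]
    simp
  have hcq : (c : ℚ) ≠ 0 := by exact_mod_cast hc0
  have hdegq : (P.map (Int.castRingHom ℚ)).natDegree = μ.natDegree := by
    rw [hmap, natDegree_C_mul hcq]
  have hdeg : P.natDegree = μ.natDegree := by
    rw [← hdegq, Polynomial.natDegree_map_eq_of_injective (RingHom.injective_int _)]
  refine ⟨P, ?_, ?_, ?_⟩
  · rw [hmap]
    have hu : IsUnit (C ((c : ℤ) : ℚ) : ℚ[X]) := isUnit_C.2 (IsUnit.mk0 _ hcq)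
    exact (irreducible_isUnit_mul hu).2 hμirr
  · rw [hdeg]
    by_contra hcon
    have h1 : μ.natDegree = 1 := by
      have h2 := minpoly.natDegree_pos hint
      have h3 : 0 < μ.natDegree := h2
      omega
    have h2 : α ∈ (algebraMap ℚ ℝ).range := by
      apply minpoly.mem_range_of_degree_eq_one
      rw [Polynomial.degree_eq_natDegree hμ0, h1]
      rfl
    obtain ⟨r, hr⟩ := h2
    exact hirr ⟨r, by rw [← hr]; simp⟩
  · have h1 : aeval α (P.map (Int.castRingHom ℚ)) = 0 := by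
      rw [hmap, map_mul, minpoly.aeval, mul_zero]
    have h2 : aeval α P = aeval α (P.map (Int.castRingHom ℚ)) := by
      rw [← algebraMap_int_eq, Polynomial.aeval_map_algebraMap]
    rw [h2, h1]

/-- the precision: `Λ = H (log₂ n + 2) + d (L+1)` is enough -/
lemma cover_prec {b d B' C₀ n Ln L : ℕ} (hb : 2 ≤ b) (hn2 : n < 2^(Ln+1)) :
    C₀ * ((n+1) * (B' * (n+1)^B' * b^(L+1)))^d <
      b^(((B'+1)*d + C₀*B'^d + 1) * (Ln+2) + d*(L+1)) := by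
  have hb0 : 0 < b := by omega
  have h1 : (n+1) * (B' * (n+1)^B' * b^(L+1)) = B' * (n+1)^(B'+1) * b^(L+1) := by
    rw [pow_succ (n+1) B']; ring
  have h2 : C₀ * ((n+1) * (B' * (n+1)^B' * b^(L+1)))^d =
      (C₀ * B'^d) * (n+1)^((B'+1)*d) * b^(d*(L+1)) := by
    rw [h1, mul_pow, mul_pow, ← pow_mul, ← pow_mul, mul_comm (L+1) d]
    ring
  have h3 : (n+1)^((B'+1)*d) ≤ b^((Ln+1)*((B'+1)*d)) := by
    rw [pow_mul b]
    apply Nat.pow_le_pow_left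
    calc n + 1 ≤ 2^(Ln+1) := hn2
      _ ≤ b^(Ln+1) := Nat.pow_le_pow_left hb _
  have h4 : C₀ * B'^d < b^(C₀*B'^d) :=
    lt_of_lt_of_le Nat.lt_two_pow_self (Nat.pow_le_pow_left hb _)
  rw [h2]
  have h5 : (C₀ * B'^d) * (n+1)^((B'+1)*d) * b^(d*(L+1)) <
      b^(C₀*B'^d) * b^((Ln+1)*((B'+1)*d)) * b^(d*(L+1)) := by
    have hp1 : 0 < b^(d*(L+1)) := Nat.pow_pos hb0
    have hp2 : 0 < (n+1)^((B'+1)*d) := Nat.pow_pos (Nat.succ_pos n)
    apply Nat.mul_lt_mul_of_pos_right _ hp1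
    calc (C₀ * B'^d) * (n+1)^((B'+1)*d) < b^(C₀*B'^d) * (n+1)^((B'+1)*d) :=
          Nat.mul_lt_mul_of_pos_right h4 hp2
      _ ≤ _ := Nat.mul_le_mul_left _ h3
  refine lt_of_lt_of_le h5 ?_
  rw [← pow_add, ← pow_add]
  apply Nat.pow_le_pow_right hb0
  generalize C₀*B'^d = u
  generalize (B'+1)*d = w
  generalize d*(L+1) = x
  nlinarith [Nat.zero_le (u*Ln)]

theorem cov_normB {b : ℕ} (hb : 2 ≤ b) {α : ℝ} (hα : IsAlgebraic ℚ α) (hirr : Irrational α)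
    {B : ℕ} {e : ℕ → ℤ} (he : DigS b B α e) (A : ℕ) (δ : ℝ) (hδ : 0 < δ) :
    ∀ᶠ n : ℕ in atTop, ∀ L : ℕ, (L : ℝ) * Real.exp ((Real.log n)^δ) ≤ n →
      ∀ S : Finset ℕ, (#S : ℝ) ≤ (Real.log n)^A →
      ∃ k : ℕ, 1 ≤ k ∧ k ≤ n ∧ e k ≠ 0 ∧ ∀ s ∈ S, k < s ∨ s + L < k := by
  classical
  obtain ⟨K1, hK1⟩ := Pool.Agent.DigitG.choose_y δ hδ
  obtain ⟨A1, hA1⟩ : ∃ A1, A1 = K1*A + 2 := ⟨_, rfl⟩
  obtain ⟨P, hPirr, hPdeg, hPα⟩ := int_poly hα hirr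
  obtain ⟨d, hd⟩ : ∃ d, d = P.natDegree := ⟨_, rfl⟩
  obtain ⟨C₀, hC₀⟩ := exP_of_dig b hb P hPdeg α hPα
  obtain ⟨B', hB'1, hB'⟩ := digB_grp hb he
  -- the prime
  obtain ⟨p, hp, hpM, hplc, hproot, i₀, hi₀, hPq⟩ :=
    root_free P hPirr hPdeg (2^(d*(d*(4*A1))) + b + 3)
  have hMp : 1 ≤ 2^(d*(d*(4*A1))) := Nat.one_le_two_pow
  set Q : (ZMod p)[X] := P.map (Int.castRingHom (ZMod p)) with hQ
  have hQd : Q.natDegree = d := by
    rw [hd]
    apply Polynomial.natDegree_map_of_leadingCoeff_ne_zero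
    intro h0
    apply hplc
    rw [← ZMod.intCast_zmod_eq_zero_iff_dvd]
    simpa using h0
  obtain ⟨q, hq⟩ : ∃ q, q = p^i₀ := ⟨_, rfl⟩
  have hpb : ¬ p ∣ b := fun h => by
    have := Nat.le_of_dvd (by omega) h
    omega
  obtain ⟨m, y₀, hmain⟩ := main_stepD A1 p Q d hQd (by omega) (by omega) (by omega) q i₀ hq hi₀
    (by rw [hq]; exact hPq)
  have hp2' : 2 ≤ q := by
    rw [hq]
    calc 2 ≤ p := by omega
      _ ≤ p^i₀ := Nat.le_self_pow (by omega) p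
  obtain ⟨K, hK⟩ : ∃ K, K = (A1+1)*(m+10+d) + 1 := ⟨_, rfl⟩
  obtain ⟨K2, hK2⟩ : ∃ K2, K2 = K1 + 3 + A1*q := ⟨_, rfl⟩
  obtain ⟨C, hC⟩ : ∃ C, C = 28*(A1+1)^2 + (K2 + q*K) := ⟨_, rfl⟩
  obtain ⟨y₁, hy₁⟩ := Pool.Agent.DigitG.log_sq_small C
  obtain ⟨H, hH⟩ : ∃ H, H = (B'+1)*d + C₀*B'^d + 1 := ⟨_, rfl⟩
  obtain ⟨Y, hY⟩ : ∃ Y, Y = y₀ + y₁ + 512 + 100*d*(m+2)^2 + (3*H + d) := ⟨_, rfl⟩
  filter_upwards [hK1 Y, eventually_ge_atTop 1] with n hn hn1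
  obtain ⟨y, hyY, hylog, hyn, hyL⟩ := hn
  intro L hL S hS
  by_contra hcon
  push Not at hcon
  have hcov : ∀ k, 1 ≤ k → k ≤ n → e k ≠ 0 → ∃ s ∈ S, s ≤ k ∧ k ≤ s + L := hcon
  have hcard := card_grpB (b := b) S hcov
  have hy512 : 512 ≤ y := by omega
  have hym : 100*d*(m+2)^2 ≤ y := by omega
  have hyH : 3*H + d ≤ y := by omega
  have hyp : 0 < y := by omega
  have hn0 : n ≠ 0 := by omega
  -- `n` against `y`
  have h2e : (2:ℝ) ≤ Real.exp 1 := by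
    have := Real.exp_one_gt_d9
    linarith
  have hpow2 : (2:ℝ) * 2^(y^9) ≤ Real.exp ((y:ℝ)^10) := by
    have h1 : y^9 + 1 ≤ y^10 := by
      have : y^10 = y * y^9 := by ring
      have h3 : 1 ≤ y^9 := Nat.one_le_pow _ _ hyp
      have h4 : 2 * y^9 ≤ y * y^9 := Nat.mul_le_mul_right _ (by omega)
      omega
    calc (2:ℝ) * 2^(y^9) = 2^(y^9+1) := by rw [pow_succ]; ring
      _ ≤ 2^(y^10) := pow_le_pow_right₀ (by norm_num) h1
      _ ≤ (Real.exp 1)^(y^10) := pow_le_pow_left₀ (by norm_num) h2e _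
      _ = Real.exp ((y:ℝ)^10) := by rw [← Real.exp_nat_mul]; push_cast; ring_nf
  have hLn : (L+1) * 2^(y^9) ≤ n := by
    have : (((L+1) * 2^(y^9) : ℕ) : ℝ) ≤ (n:ℝ) := by
      push_cast
      rcases Nat.eq_zero_or_pos L with h0 | h0
      · subst h0
        have : (0:ℝ) < 2^(y^9) := by positivity
        push_cast
        linarith
      · have hL1 : (1:ℝ) ≤ L := by exact_mod_cast h0
        calc ((L:ℝ)+1) * 2^(y^9) ≤ (2*L) * 2^(y^9) := by gcongr; linarith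
          _ = L * (2 * 2^(y^9)) := by ring
          _ ≤ L * Real.exp ((Real.log n)^δ) := by gcongr; exact hpow2.trans hyL
          _ ≤ n := hL
    exact_mod_cast this
  -- `log2 n`
  obtain ⟨Ln, hLn'⟩ : ∃ Ln, Ln = Nat.log 2 n := ⟨_, rfl⟩
  have hn2 : n < 2^(Ln+1) := by rw [hLn']; exact Nat.lt_pow_succ_log_self (by norm_num) n
  have hLn1 : Ln ≤ y^(K1+1) := by
    have h1 : (Ln : ℝ) * Real.log 2 ≤ Real.log n := by
      rw [← Real.log_pow]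
      apply Real.log_le_log (by positivity)
      have := Nat.pow_log_le_self 2 hn0
      rw [← hLn'] at this
      exact_mod_cast this
    have h2 : (1/2:ℝ) ≤ Real.log 2 := by
      have := Real.log_two_gt_d9
      linarith
    have h3 : (Ln:ℝ) ≤ 2 * (y:ℝ)^K1 := by
      have : (0:ℝ) ≤ Ln := by positivity
      nlinarith
    have h4 : (2:ℝ) * (y:ℝ)^K1 ≤ (y:ℝ)^(K1+1) := by
      rw [pow_succ, mul_comm]
      have : (2:ℝ) ≤ y := by exact_mod_cast (by omega : 2 ≤ y)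
      gcongr
    have h5 : (Ln:ℝ) ≤ ((y^(K1+1) : ℕ) : ℝ) := by push_cast; linarith
    exact_mod_cast h5
  -- `t`
  obtain ⟨t, ht⟩ : ∃ t, t = y^A1 := ⟨_, rfl⟩
  have hSy : #S ≤ y^(K1*A) := by
    have h1 : (#S : ℝ) ≤ ((y^(K1*A) : ℕ) : ℝ) := by
      refine hS.trans ?_
      push_cast
      rw [pow_mul]
      apply pow_le_pow_left₀ _ hylog
      exact Real.log_natCast_nonneg _
    exact_mod_cast h1
  have hEt : #(EE (grpB b (L+1) e) n) ≤ t := by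
    have h1 : y^A1 = y*(y*y^(K1*A)) := by rw [hA1, pow_add]; ring
    have h2 : 1 ≤ y^(K1*A) := Nat.one_le_pow _ _ hyp
    have h3 : 512 * y^(K1*A) ≤ y * y^(K1*A) := Nat.mul_le_mul_right _ hy512
    have h4 : 1 * (y * y^(K1*A)) ≤ y * (y * y^(K1*A)) := Nat.mul_le_mul_right _ hyp
    omega
  have ht1 : 1 ≤ t := by rw [ht]; exact Nat.one_le_pow _ _ hyp
  have htya : t < y^(A1+1) := by
    rw [ht]
    exact Nat.pow_lt_pow_right (by omega) (by omega)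
  -- `λ`
  obtain ⟨w, hw⟩ : ∃ w, w = Nat.log 2 y + 1 := ⟨_, rfl⟩
  have hw1 : 1 ≤ w := by omega
  have hyw : y ≤ 2^w := by
    rw [hw]
    exact (Nat.lt_pow_succ_log_self (by norm_num) y).le
  have hCw : C * w^2 ≤ y := by
    rw [hw]
    exact hy₁ y (by omega)
  have hww : w ≤ w^2 := Nat.le_self_pow (by norm_num) w
  obtain ⟨l, hl⟩ : ∃ l, l = A1*w + 1 := ⟨_, rfl⟩
  have htl : t < 2^l := by
    have h1 : y^A1 ≤ 2^(A1*w) := by
      calc y^A1 ≤ (2^w)^A1 := Nat.pow_le_pow_left hyw _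
        _ = 2^(A1*w) := by rw [← pow_mul]; congr 1; ring
    have h2 : 2^(A1*w) < 2^l := Nat.pow_lt_pow_right (by norm_num) (by omega)
    omega
  have hl28 : 28*l^2 ≤ y := by
    have h1 : l ≤ (A1+1)*w := by
      rw [hl, add_mul, one_mul]
      omega
    have h2 : l^2 ≤ ((A1+1)*w)^2 := Nat.pow_le_pow_left h1 2
    have h3 : 28*(A1+1)^2 * w^2 ≤ C * w^2 := Nat.mul_le_mul_right _ (by omega)
    have h4 : 28 * ((A1+1)*w)^2 = 28*(A1+1)^2 * w^2 := by ring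
    omega
  -- `Λ`
  obtain ⟨Λ, hΛ⟩ : ∃ Λ, Λ = H * (Ln+2) + d*(L+1) := ⟨_, rfl⟩
  have hΛ2 : C₀ * ((n+1) * (B' * (n+1)^B' * b^(L+1)))^P.natDegree < b^Λ := by
    rw [← hd, hΛ, hH]
    exact cover_prec hb hn2
  have hΛy : Λ ≤ (L+1) * y^(K1+2) := by
    have h1 : y^(K1+2) = y * y^(K1+1) := by rw [pow_succ]; ring
    have h2 : 1 ≤ y^(K1+1) := Nat.one_le_pow _ _ hyp
    have h3 : (3*H + d) * y^(K1+1) ≤ y * y^(K1+1) := Nat.mul_le_mul_right _ hyH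
    have h4 : H * (Ln+2) + d ≤ (3*H+d) * y^(K1+1) := by
      have h5 : Ln + 2 ≤ 3 * y^(K1+1) := by omega
      calc H * (Ln+2) + d ≤ H * (3 * y^(K1+1)) + d * y^(K1+1) :=
            Nat.add_le_add (Nat.mul_le_mul_left _ h5) (Nat.le_mul_of_pos_right _ h2)
        _ = (3*H+d) * y^(K1+1) := by ring
    have h6 : H * (Ln+2) ≤ (L+1) * (H * (Ln+2)) := Nat.le_mul_of_pos_left _ (Nat.succ_pos L)
    calc Λ = H * (Ln+2) + d*(L+1) := hΛ
      _ ≤ (L+1) * (H * (Ln+2)) + d * (L+1) := Nat.add_le_add_right h6 _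
      _ = (L+1) * (H * (Ln+2) + d) := by ring
      _ ≤ (L+1) * y^(K1+2) := Nat.mul_le_mul_left _ (by rw [h1]; exact h4.trans h3)
  -- `ρ`
  obtain ⟨ρ, hρ⟩ : ∃ ρ, ρ = 12*(Λ*t^q+1) := ⟨_, rfl⟩
  have hρy : ρ ≤ (L+1) * y^K2 := by
    have h1 : t^q = y^(A1*q) := by rw [ht, ← pow_mul]
    have h2 : Λ * t^q ≤ (L+1) * (y^(K1+2) * y^(A1*q)) := by
      rw [h1, ← mul_assoc]
      exact Nat.mul_le_mul_right _ hΛy
    have h3 : 1 ≤ (L+1) * (y^(K1+2) * y^(A1*q)) := Nat.one_le_iff_ne_zero.mpr (by positivity)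
    have h4 : (L+1) * y^K2 = y * ((L+1) * (y^(K1+2) * y^(A1*q))) := by
      rw [hK2, ← pow_add]
      have : K1 + 3 + A1*q = (K1 + 2 + A1*q) + 1 := by ring
      rw [this, pow_succ]; ring
    have h5 : 512 * ((L+1) * (y^(K1+2) * y^(A1*q))) ≤ y * ((L+1) * (y^(K1+2) * y^(A1*q))) :=
      Nat.mul_le_mul_right _ hy512
    rw [hρ, h4]
    omega
  -- the number of steps
  obtain ⟨β, hβ⟩ : ∃ β, β = K*w := ⟨_, rfl⟩
  have hB1 : 100 * d * (m+2)^2 * (t+1)^(m+10+d) ≤ q^β := by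
    have h1 : t + 1 ≤ y^(A1+1) := by
      have h2 : y^(A1+1) = y * y^A1 := by rw [pow_succ]; ring
      have h3 : 512 * y^A1 ≤ y * y^A1 := Nat.mul_le_mul_right _ hy512
      omega
    have h2 : (t+1)^(m+10+d) ≤ y^((A1+1)*(m+10+d)) := by
      rw [pow_mul]
      exact Nat.pow_le_pow_left h1 _
    calc 100 * d * (m+2)^2 * (t+1)^(m+10+d)
        ≤ y * y^((A1+1)*(m+10+d)) := Nat.mul_le_mul hym h2
      _ = y^K := by rw [hK, pow_succ]; ring
      _ ≤ (2^w)^K := Nat.pow_le_pow_left hyw K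
      _ = 2^β := by rw [← pow_mul, hβ]; congr 1; ring
      _ ≤ q^β := Nat.pow_le_pow_left hp2' β
  have hBN : ρ * (q^β)^(y^8) ≤ n := by
    have h1 : y^K2 ≤ 2^(K2*w) := by
      calc y^K2 ≤ (2^w)^K2 := Nat.pow_le_pow_left hyw _
        _ = 2^(K2*w) := by rw [← pow_mul]; congr 1; ring
    have h2 : q^β ≤ 2^(q*β) := by
      calc q^β ≤ (2^q)^β := Nat.pow_le_pow_left (Nat.lt_two_pow_self).le β
        _ = 2^(q*β) := by rw [← pow_mul]
    have h3 : (q^β)^(y^8) ≤ 2^(q*β*y^8) := by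
      calc (q^β)^(y^8) ≤ (2^(q*β))^(y^8) := Nat.pow_le_pow_left h2 _
        _ = 2^(q*β*y^8) := by rw [← pow_mul]
    have h4 : K2*w + q*β*y^8 ≤ y^9 := by
      have h5 : 1 ≤ y^8 := Nat.one_le_pow _ _ hyp
      have h6 : K2*w ≤ K2*w*y^8 := Nat.le_mul_of_pos_right _ h5
      have h7 : q*β*y^8 = q*K*w*y^8 := by rw [hβ]; ring
      have h8 : K2*w*y^8 + q*K*w*y^8 = (K2+q*K)*w*y^8 := by ring
      have h9 : (K2+q*K)*w ≤ y := by
        calc (K2+q*K)*w ≤ C * w^2 := Nat.mul_le_mul (by omega) hww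
          _ ≤ y := hCw
      have h10 : (K2+q*K)*w*y^8 ≤ y * y^8 := Nat.mul_le_mul_right _ h9
      have h11 : y * y^8 = y^9 := by ring
      omega
    calc ρ * (q^β)^(y^8) ≤ ((L+1) * 2^(K2*w)) * 2^(q*β*y^8) :=
          Nat.mul_le_mul (hρy.trans (Nat.mul_le_mul_left _ h1)) h3
      _ = (L+1) * 2^(K2*w + q*β*y^8) := by rw [pow_add]; ring
      _ ≤ (L+1) * 2^(y^9) := Nat.mul_le_mul_left _ (Nat.pow_le_pow_right (by norm_num) h4)
      _ ≤ n := hLn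
  have hdigB := hB' (L+1) (by omega) n
  have hexP := hC₀ p hpb hplc hproot _ n Λ _ hdigB hΛ2
  exact hmain y (by omega) l t n Λ ρ β _ _ hexP hEt htya htl hl28 (by omega) hB1 hBN

end Pool.Agent.AlgD
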