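import Mathlib
import Pool.Agent.SqrtDC.Defs
import Pool.Agent.SqrtDC.Frob
import Pool.Agent.SqrtDC.Clus
import Pool.Agent.DigitA.Defs

/-! # Squad ALG: definitions -/

open Finset Polynomial

namespace Pool.Agent.AlgD

open Pool.Agent.SqrtDC Pool.Agent.DigitA

/-- exactness modulo `p`: `P` has no root modulo `p` and, off the neighbourhoods of the `d`-fold sums
(`d = natDegree P`), the truncated sums of `P(f)`, `f = gp A v`, vanish -/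
structure ExP (p : ℕ) [Fact p.Prime] (P : (ZMod p)[X]) (A : Finset ℕ) (v : ℕ → ZMod p)
    (N Λ : ℕ) : Prop where
  zero : 0 ∈ A
  deg : 2 ≤ P.natDegree
  root : ∀ x : ZMod p, P.eval x ≠ 0
  ex : ∀ R, R + Λ ≤ N → (∀ s ∈ ss A P.natDegree, ¬ (R < s ∧ s ≤ R + Λ)) →
      cum R (P.comp (gp A v)) = 0

/-- `Σ_{i ≤ d} a_i Σ_{u ∈ V^i, α ≤ Σ u ≤ β} ∏_j F(u_j)` -/
noncomputable def wsum {K : Type*} [Field K] (a : ℕ → K) (d : ℕ) (V : Finset ℕ) (F : ℕ → K)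
    (α β : ℕ) : K :=
  ∑ i ∈ range (d+1), a i *
    ∑ u ∈ (tup V i).filter (fun u => α ≤ ∑ j, u j ∧ ∑ j, u j ≤ β), ∏ j, F (u j)

/-- `Σ_{i ≤ d} a_i Σ_{u ∈ V^i, Σ u ≤ R} ∏_j F(u_j)` -/
noncomputable def tsm {K : Type*} [Field K] (a : ℕ → K) (d : ℕ) (V : Finset ℕ) (F : ℕ → K)
    (R : ℕ) : K :=
  ∑ i ∈ range (d+1), a i * ∑ u ∈ (tup V i).filter (fun u => ∑ j, u j ≤ R), ∏ j, F (u j)

/-- the data of the endgame (`d`-fold version of `H55.Gen.EndData`) -/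
structure EndD (K P : Type) [Field K] [Inhabited P] (d m q0 : ℕ) where
  V : Finset ℕ
  F : ℕ → K
  a : ℕ → K
  r : ℕ
  WW : Finset (Fin m) → Set ℕ
  code : ℕ → Fin m → P
  a_ne : a d ≠ 0
  zero_mem : 0 ∈ V
  zero_not : 0 ∉ WW univ
  F_ne : ∀ w ∈ WW univ, F w ≠ 0
  WW_sub : ∀ T, ∀ w ∈ WW T, w ∈ V
  WW_mono : ∀ T T', T ⊆ T' → WW T ⊆ WW T'
  supp_sub : ∀ T, ∀ w ∈ WW T, ∀ j, code w j ≠ default → j ∈ T
  code_inj : ∀ w ∈ WW univ, ∀ w' ∈ WW univ, code w = code w' → w = w'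
  supp_card : ∀ w ∈ WW univ, ∀ s : Finset (Fin m), (∀ j ∈ s, code w j ≠ default) → s.card ≤ q0
  sep : ∀ w ∈ WW univ, ∀ u ∈ V, u ≠ w → (2 * r : ℤ) < |(u : ℤ) - w|
  closed : ∀ T : Fin d → Finset (Fin m), (∀ i j, i ≠ j → Disjoint (T i) (T j)) →
    ∀ w : Fin d → ℕ, (∀ i, w i ∈ WW (T i)) → ∀ u : Fin d → ℕ, (∀ i, u i ∈ V) →
    |sm u - sm w| ≤ r → ∀ i, u i ∈ WW (univ.biUnion T)
  vs : Fin m → ℕ
  src : ∀ j, vs j ∈ WW {j}
  src_inj : Function.Injective vs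
  arith : ∀ w : Fin d → ℕ, (∀ i, w i ∈ WW univ) → ∃ α β : ℕ,
    α ≤ ∑ i, w i ∧ ∑ i, w i ≤ β ∧ ∑ i, w i ≤ α + r ∧ β ≤ ∑ i, w i + r ∧
    wsum a d V F α β = 0

/-! ## digits in base `b` -/

/-- support up to `N` -/
def EE (e : ℕ → ℤ) (N : ℕ) : Finset ℕ := (range (N+1)).filter (fun k => e k ≠ 0)

/-- the masses modulo `p` -/
noncomputable def vb (b : ℕ) (e : ℕ → ℤ) (p : ℕ) (k : ℕ) : ZMod p :=
  (e k : ZMod p) * ((b : ZMod p)⁻¹)^k

/-- a finite digit expansion of `α` in base `b` up to `N`, with precision `Bn` -/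
structure DigB (b Bn N : ℕ) (α : ℝ) (e : ℕ → ℤ) : Prop where
  zero : e 0 ≠ 0
  bd : ∀ k ≤ N, |e k| ≤ Bn
  app : |∑ k ∈ range (N+1), (e k : ℝ) / b^k - α| ≤ Bn / b^N

/-- an expansion of `α` in base `b` with integer digits bounded by a polynomial -/
structure DigS (b B : ℕ) (α : ℝ) (e : ℕ → ℤ) : Prop where
  zero : e 0 ≠ 0
  bd : ∀ k : ℕ, |e k| ≤ B * ((k:ℤ)+1)^B
  sum : HasSum (fun k => (e k : ℝ) / b^k) α

/-- digits grouped in the blocks `(j l, (j+1) l]`, placed at the right end of the block -/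
def grpB (b l : ℕ) (e : ℕ → ℤ) (k : ℕ) : ℤ :=
  if k = 0 then e 0 else if l ∣ k then ∑ j ∈ Ioc (k - l) k, e j * (b:ℤ)^(k-j) else 0

/-! ## Dedekind zeta function -/

open NumberField in
/-- the number of ideals of norm `n` -/
noncomputable def aF (F : Type*) [Field F] [NumberField F] (n : ℕ) : ℝ :=
  (Nat.card {I : Ideal (𝓞 F) // Ideal.absNorm I = n} : ℝ)

open NumberField in
/-- the Dedekind zeta function on the real half line `s > 1` -/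
noncomputable def zt (F : Type*) [Field F] [NumberField F] (s : ℝ) : ℝ :=
  ∑' n : ℕ, aF F n * (n : ℝ) ^ (-s)

end Pool.Agent.AlgD
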