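import Pool.Agent.AlgD.Defs

/-! # FROB. The Frobenius relation `ph (R / q) = ph R`, `q = p ^ i₀`, `P ∣ X^q - X`.
Adapt `DigitG/Frob.lean` (`cum_step`, `frob`) and `SqrtDC/Frob.lean` (`cum_mul`, `cum_gp`, `coeff_gp_pow`,
`ss_le`, `cum_gp_pow_p`).
* `cum_gp_pow_q`: over `ZMod p`, `f^(p^i) = expand (p^i) f` (iterate `ZMod.expand_card`), as in `cum_gp_pow_p`.
* `X^q - X = P * Q`, `natDegree Q = q - d` (`q ≥ 2`; `P ≠ 0` since `2 ≤ natDegree P`).
  `f^q - f = (P.comp f) * (Q.comp f)`, `cum_mul` (write the product as `(Q.comp f) * (P.comp f)`):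
  `cum R (f^q) - cum R f = Σ_{i ≤ R} (Q.comp f).coeff i * cum (R-i) (P.comp f)`; if the coefficient is `≠ 0`
  then `i ∈ ss A (q-d)` (`Polynomial.comp`/`eval₂` is a sum of `C a * f^j`, `j ≤ q-d`, `coeff_gp_pow`, `ss_le`),
  and then `cum (R-i) (P.comp f) = 0` by `h.ex`: if `s ∈ ss A d` with `R-i < s ≤ R-i+Λ` then
  `s + i ∈ ss A q` and `R < s+i ≤ R+Λ`, contradiction with `hgood`. -/

open Finset Polynomial

namespace Pool.Agent.AlgD

open Pool.Agent.SqrtDC

variable {p : ℕ} [Fact p.Prime] {P : (ZMod p)[X]} {A : Finset ℕ} {v : ℕ → ZMod p} {N Λ : ℕ}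

lemma ss_add (A : Finset ℕ) {m n s s' : ℕ} (h : s ∈ ss A m) (h' : s' ∈ ss A n) :
    s + s' ∈ ss A (m+n) := by
  induction m generalizing s with
  | zero =>
    have h0 : s = 0 := by simpa [ss] using h
    rw [h0, zero_add, zero_add]
    exact h'
  | succ m ih =>
    obtain ⟨e, he, s1, hs1, h1⟩ := Finset.mem_image₂.1 h
    have h2 : m + 1 + n = (m + n) + 1 := by ring
    rw [h2]
    refine Finset.mem_image₂.2 ⟨e, he, s1 + s', ih hs1, ?_⟩
    omega

lemma Frob_expand (f : (ZMod p)[X]) (i : ℕ) : f^(p^i) = expand (ZMod p) (p^i) f := by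
  induction i with
  | zero => simp
  | succ i ih =>
    rw [pow_succ p i, pow_mul, ih, ← ZMod.expand_card, Polynomial.expand_expand, mul_comm]

lemma cum_gp_pow_q (i : ℕ) (A : Finset ℕ) (v : ℕ → ZMod p) (R : ℕ) :
    cum R ((gp A v)^(p^i)) = ph A v (R / p^i) := by
  have hp : 0 < p^i := Nat.pow_pos (Fact.out : p.Prime).pos
  rw [Frob_expand]
  unfold gp ph
  rw [map_sum, cum_sum, Finset.sum_filter]
  refine Finset.sum_congr rfl fun e _ => ?_
  rw [map_mul, Polynomial.expand_C, map_pow, Polynomial.expand_X, ← pow_mul, cum_monomial]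
  have : p^i * e ≤ R ↔ e ≤ R / p^i := by
    rw [Nat.le_div_iff_mul_le hp, mul_comm]
  simp only [this]

lemma Frob_cum_sub {K : Type*} [Field K] (R : ℕ) (f g : K[X]) :
    cum R (f - g) = cum R f - cum R g := by
  unfold cum
  rw [← Finset.sum_sub_distrib]
  refine Finset.sum_congr rfl fun s _ => ?_
  rw [Polynomial.coeff_sub]

lemma Frob_coeff_comp {K : Type*} [Field K] (A : Finset ℕ) (h0 : 0 ∈ A) (v : ℕ → K) (Q : K[X])
    (i : ℕ) (h : (Q.comp (gp A v)).coeff i ≠ 0) : i ∈ ss A Q.natDegree := by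
  rw [Polynomial.comp, Polynomial.eval₂_eq_sum_range, Polynomial.finsetSum_coeff] at h
  obtain ⟨j, hj, hj'⟩ := Finset.exists_ne_zero_of_sum_ne_zero h
  rw [Polynomial.coeff_C_mul] at hj'
  rw [Finset.mem_range] at hj
  exact ss_le A h0 (by omega) (coeff_gp_pow A v j i (right_ne_zero_of_mul hj'))

theorem frobP (h : ExP p P A v N Λ) {q i₀ : ℕ} (hq : q = p^i₀) (hi₀ : 1 ≤ i₀)
    (hPq : P ∣ X^q - X) (R : ℕ) (hN : R + Λ ≤ N)
    (hgood : ∀ s ∈ ss A q, ¬ (R < s ∧ s ≤ R + Λ)) :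
    ph A v (R / q) = ph A v R := by
  obtain ⟨Q, hQ⟩ := hPq
  have hp2 : 2 ≤ p := (Fact.out : p.Prime).two_le
  have hq2 : 2 ≤ q := by
    rw [hq]
    calc 2 ≤ p := hp2
      _ = p^1 := (pow_one p).symm
      _ ≤ p^i₀ := Nat.pow_le_pow_right (by omega) hi₀
  have hdeg : (X^q - X : (ZMod p)[X]).natDegree = q := by
    rw [Polynomial.natDegree_sub_eq_left_of_natDegree_lt, Polynomial.natDegree_X_pow]
    rw [Polynomial.natDegree_X_pow, Polynomial.natDegree_X]
    omega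
  have hPQ0 : P * Q ≠ 0 := by
    intro h0
    rw [hQ, h0, Polynomial.natDegree_zero] at hdeg
    omega
  have hdeg2 : P.natDegree + Q.natDegree = q := by
    rw [← Polynomial.natDegree_mul (left_ne_zero_of_mul hPQ0) (right_ne_zero_of_mul hPQ0), ← hQ]
    exact hdeg
  have hcomp : (gp A v)^q - gp A v = (Q.comp (gp A v)) * (P.comp (gp A v)) := by
    have h1 := congrArg (fun g : (ZMod p)[X] => g.comp (gp A v)) hQ
    simp only [Polynomial.sub_comp, Polynomial.pow_comp, Polynomial.X_comp,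
      Polynomial.mul_comp] at h1
    rw [h1, mul_comm]
  have h1 : cum R ((gp A v)^q - gp A v) = 0 := by
    rw [hcomp, cum_mul]
    refine Finset.sum_eq_zero fun i hi => ?_
    rw [Finset.mem_range] at hi
    by_cases h0 : (Q.comp (gp A v)).coeff i = 0
    · rw [h0, zero_mul]
    · have h2 := Frob_coeff_comp A h.zero v Q i h0
      rw [h.ex (R - i) (by omega), mul_zero]
      intro s hs hcon
      refine hgood (s + i) ?_ (by omega)
      rw [← hdeg2]
      exact ss_add A hs h2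
  rw [Frob_cum_sub, cum_gp, sub_eq_zero, hq, cum_gp_pow_q] at h1
  rw [hq]
  exact h1

end Pool.Agent.AlgD
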