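import Pool.Agent.AlgD.GameBase
import Pool.Agent.H55.FinRamsey

/-! # GAME. The endgame (`d`-fold version of `closure`, `final`, `endgame` of `H55/GenGame.lean`). -/

set_option autoImplicit false

open Finset

namespace Pool.Agent.AlgD

open Pool.Agent.DigitA Pool.Agent.H55 Pool.Agent.H55.Gen

namespace EndD

variable {KK PT : Type} [Field KK] [Inhabited PT] [DecidableEq PT] {d n q0 : ℕ}
  (D : EndD KK PT d n q0)

/-- the elements with support exactly `K` -/
def WWh (h : ℕ) (K : Finset (Fin n)) : Set ℕ :=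
  {w | D.supp w = K ∧ ∃ T : Finset (Fin n), T.card ≤ h ∧ w ∈ D.WW T}

theorem WWh_univ {h : ℕ} {K : Finset (Fin n)} {w : ℕ} (hw : w ∈ D.WWh h K) : w ∈ D.WW univ := by
  obtain ⟨-, T, -, hw⟩ := hw
  exact D.univ_mem hw

theorem closureD {M h g s : ℕ} (hd : 2 ≤ d) (hM : D.Hom M) (hh : d * h ≤ M)
    (hg : g = 2*(d*(h+1))) (hn : g ≤ n)
    (hst : D.Red h = D.Red (d * h)) (hs : ∀ ρ ∈ D.Red h, ρ.length ≤ s)
    {K : Fin d → Finset (Fin n)} (hK : ∀ i, Good g (K i))
    (hdis : ∀ i j, i ≠ j → Disjoint (K i) (K j)) (hKs : ∀ i, (K i).card = s)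
    {w u : Fin d → ℕ} (hw : ∀ i, w i ∈ D.WWh h (K i)) (hu : ∀ i, u i ∈ D.V) (hr : D.Rel w u) :
    (∀ i, (D.supp (u i)).card = s) ∧ (∀ i, D.supp (u i) ⊆ univ.biUnion K) ∧
      (∀ i j, i ≠ j → Disjoint (D.supp (u i)) (D.supp (u j))) ∧
      ∀ i, u i ∈ D.WWh h (D.supp (u i)) := by
  classical
  have hhM : h ≤ M := le_trans (Nat.le_mul_of_pos_left h (by omega)) hh
  have key : ∀ i : Fin d, ∃ T' : Finset (Fin n), T'.card ≤ h ∧ w i ∈ D.WW T' ∧
      ∀ x ∈ T', x ∈ K i ∨ ∃ k, 1 ≤ k ∧ k ≤ h ∧ (x : ℕ) % g = d * k + (i : ℕ) := by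
    intro i
    obtain ⟨hwK, T0, hT0, hwT0⟩ := hw i
    obtain ⟨T', h1, h2, h3⟩ := D.small (by omega) hM hhM hg hn hst
      (hT0.trans (Nat.le_mul_of_pos_left h (by omega))) hwT0 (by rw [hwK]; exact hK i) i.isLt
    rw [hwK] at h3
    exact ⟨T', h1, h2, h3⟩
  choose T hT hwT hTx using key
  have hdT : ∀ i j, i ≠ j → Disjoint (T i) (T j) := by
    intro i j hij
    rw [Finset.disjoint_left]
    intro x hx hx'
    have hpos : ∀ k, 1 ≤ k → 0 < d * k := fun k hk => Nat.mul_pos (by omega) hk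
    rcases hTx i x hx with h1 | ⟨k, hk1, hk2, hk3⟩
    · rcases hTx j x hx' with h2 | ⟨k', hk1', hk2', hk3'⟩
      · exact (Finset.disjoint_left.1 (hdis i j hij)) h1 h2
      · have := (hK i x h1).1
        have := hpos k' hk1'
        omega
    · rcases hTx j x hx' with h2 | ⟨k', hk1', hk2', hk3'⟩
      · have := (hK j x h2).1
        have := hpos k hk1
        omega
      · apply hij
        apply Fin.ext
        have h1 : d * k + (i : ℕ) = d * k' + (j : ℕ) := by rw [← hk3, ← hk3']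
        have h2 : (d * k + (i : ℕ)) % d = (i : ℕ) := by
          rw [Nat.mul_add_mod, Nat.mod_eq_of_lt i.isLt]
        have h3 : (d * k' + (j : ℕ)) % d = (j : ℕ) := by
          rw [Nat.mul_add_mod, Nat.mod_eq_of_lt j.isLt]
        rw [← h2, ← h3, h1]
  have huT := D.closed T hdT w hwT u hu hr
  set S := univ.biUnion T with hS
  have hSc : S.card ≤ d * h := by
    have h1 := Finset.card_biUnion_le_card_mul (univ : Finset (Fin d)) T h (fun i _ => hT i)
    rwa [Finset.card_univ, Fintype.card_fin] at h1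
  have hTS : ∀ i, T i ⊆ S := fun i => Finset.subset_biUnion_of_mem T (mem_univ i)
  have hwS : ∀ i, w i ∈ D.WW S := fun i => D.WW_mono _ _ (hTS i) (hwT i)
  have hwK : ∀ i, D.supp (w i) = K i := fun i => (hw i).1
  have hsu : ∀ i, (D.supp (u i)).card ≤ s := by
    intro i
    rw [← D.length_rc]
    apply hs
    rw [hst]
    exact ⟨S, hSc, u i, huT i, rfl⟩
  -- residues
  have hgd : 2 * d ≤ g := by
    rw [hg]
    have : d * 1 ≤ d * (h+1) := Nat.mul_le_mul_left _ (by omega)
    omega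
  have hres : ∀ x ∈ S, (x : ℕ) % g ≠ 1 := by
    intro x hx h1
    rw [hS, Finset.mem_biUnion] at hx
    obtain ⟨i, -, hx⟩ := hx
    rcases hTx i x hx with h3 | ⟨k, hk1, hk2, hk3⟩
    · have := (hK i x h3).1
      omega
    · have : d * 1 ≤ d * k := Nat.mul_le_mul_left _ hk1
      omega
  have hcov : univ.biUnion K ⊆ univ.biUnion (fun i => D.supp (u i)) := by
    intro j hj
    rw [Finset.mem_biUnion] at hj
    obtain ⟨i₀, -, hj⟩ := hj
    have hgood := hK i₀ j hj
    have hjn : (j : ℕ) + 1 < n := by omega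
    have hj1 : (⟨(j : ℕ) + 1, hjn⟩ : Fin n) ∉ S := by
      intro h1
      apply hres _ h1
      change ((j : ℕ) + 1) % g = 1
      rw [Nat.add_mod, hgood.1, Nat.zero_add, Nat.mod_mod, Nat.mod_eq_of_lt (by omega)]
    obtain ⟨i, hi⟩ := D.coverD hM (hSc.trans hh) hjn hj1 hwS huT hr (i₀ := i₀)
      (by rw [hwK]; exact hj)
      (fun i hi => by
        rw [hwK]
        exact (Finset.disjoint_left.1 (hdis i₀ i (Ne.symm hi))) hj)
    rw [Finset.mem_biUnion]
    exact ⟨i, mem_univ i, hi⟩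
  have hcK : (univ.biUnion K).card = d * s := by
    rw [Finset.card_biUnion (fun i _ j _ hij => hdis i j hij), Finset.sum_congr rfl
      (fun i _ => hKs i), Finset.sum_const, Finset.card_univ, Fintype.card_fin, smul_eq_mul]
  have hmain : ∀ i, (D.supp (u i)).card = s ∧
      Disjoint ((univ.erase i).biUnion (fun k => D.supp (u k))) (D.supp (u i)) := by
    intro i
    set U := (univ.erase i).biUnion (fun k => D.supp (u k)) with hU
    have hUc : U.card ≤ (d-1) * s := by
      have h1 := Finset.card_biUnion_le_card_mul (univ.erase i) (fun k => D.supp (u k)) s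
        (fun k _ => hsu k)
      rwa [Finset.card_erase_of_mem (mem_univ i), Finset.card_univ, Fintype.card_fin] at h1
    have hsub : univ.biUnion K ⊆ U ∪ D.supp (u i) := by
      refine hcov.trans ?_
      intro x hx
      rw [Finset.mem_biUnion] at hx
      obtain ⟨k, -, hk⟩ := hx
      rw [Finset.mem_union]
      by_cases hki : k = i
      · right; rw [← hki]; exact hk
      · left
        rw [hU, Finset.mem_biUnion]
        exact ⟨k, Finset.mem_erase.2 ⟨hki, mem_univ k⟩, hk⟩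
    have h1 := Finset.card_le_card hsub
    have h2 := Finset.card_union_add_card_inter U (D.supp (u i))
    have h3 := hsu i
    have h4 : (d-1) * s + s = d * s := by
      obtain ⟨d', rfl⟩ : ∃ d', d = d' + 1 := ⟨d - 1, by omega⟩
      rw [Nat.add_sub_cancel]; ring
    have h5 : (U ∩ D.supp (u i)).card = 0 := by omega
    refine ⟨by omega, ?_⟩
    rw [Finset.disjoint_iff_inter_eq_empty]
    exact Finset.card_eq_zero.1 h5
  have heq : univ.biUnion K = univ.biUnion (fun i => D.supp (u i)) := by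
    apply Finset.eq_of_subset_of_card_le hcov
    rw [hcK]
    have h1 := Finset.card_biUnion_le_card_mul (univ : Finset (Fin d)) (fun k => D.supp (u k)) s
      (fun k _ => hsu k)
    rwa [Finset.card_univ, Fintype.card_fin] at h1
  have hsub : ∀ i, D.supp (u i) ⊆ univ.biUnion K := by
    intro i
    rw [heq]
    exact Finset.subset_biUnion_of_mem (fun k => D.supp (u k)) (mem_univ i)
  refine ⟨fun i => (hmain i).1, hsub, ?_, ?_⟩
  · intro i j hij
    refine Finset.disjoint_of_subset_left ?_ (hmain j).2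
    intro x hx
    rw [Finset.mem_biUnion]
    exact ⟨i, Finset.mem_erase.2 ⟨hij, mem_univ i⟩, hx⟩
  · intro i
    have hgood : Good g (D.supp (u i)) := by
      intro k hk
      have h1 := hsub i hk
      rw [Finset.mem_biUnion] at h1
      obtain ⟨i', -, h1⟩ := h1
      exact hK i' k h1
    obtain ⟨T1, hT1, huT1, -⟩ := D.small (by omega) hM hhM hg hn hst hSc (huT i) hgood
      (ε := 0) (by omega)
    exact ⟨rfl, T1, hT1, huT1⟩

/-- the top element with support `K` -/
noncomputable def top (h : ℕ) (K : Finset (Fin n)) : ℕ := sSup (D.WWh h K)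

theorem WWh_bdd (h : ℕ) (K : Finset (Fin n)) : BddAbove (D.WWh h K) := by
  refine ⟨D.V.sup id, ?_⟩
  rintro w ⟨-, T, -, hw⟩
  exact Finset.le_sup (f := id) (D.WW_sub _ _ hw)

theorem top_mem {h : ℕ} {K : Finset (Fin n)} (hne : (D.WWh h K).Nonempty) :
    D.top h K ∈ D.WWh h K := Nat.sSup_mem hne (D.WWh_bdd h K)

theorem le_top {h : ℕ} {K : Finset (Fin n)} {w : ℕ} (hw : w ∈ D.WWh h K) : w ≤ D.top h K :=
  le_csSup (D.WWh_bdd h K) hw

theorem sm_cast {k : ℕ} (w : Fin k → ℕ) : sm w = ((∑ i, w i : ℕ) : ℤ) := by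
  unfold sm
  push_cast
  rfl

theorem sum_pad {i : ℕ} (hi : i ≤ d) (u : Fin i → ℕ) :
    ∑ j : Fin d, (if h : (j : ℕ) < i then u ⟨j, h⟩ else 0) = ∑ j, u j := by
  set f : ℕ → ℕ := fun k => if h : k < i then u ⟨k, h⟩ else 0 with hf
  have h1 : ∑ j : Fin d, (if h : (j : ℕ) < i then u ⟨j, h⟩ else 0) = ∑ j : Fin d, f j := rfl
  have h2 : ∑ j, u j = ∑ j : Fin i, f j := by
    refine Finset.sum_congr rfl fun j _ => ?_
    simp only [hf, j.isLt, dif_pos, Fin.eta]
  rw [h1, h2, Fin.sum_univ_eq_sum_range f d, Fin.sum_univ_eq_sum_range f i]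
  symm
  apply Finset.sum_subset
  · intro x hx
    rw [Finset.mem_range] at hx ⊢
    omega
  · intro x _ hx
    rw [Finset.mem_range] at hx
    simp only [hf, dif_neg hx]

theorem finalD {M h g s : ℕ} (hd : 2 ≤ d) (hM : D.Hom M) (hh : d * h ≤ M)
    (hg : g = 2*(d*(h+1))) (hn : g ≤ n) (hst : D.Red h = D.Red (d * h))
    (hs : ∀ ρ ∈ D.Red h, ρ.length ≤ s) (hs' : ∃ ρ ∈ D.Red h, ρ.length = s)
    (hK : ∀ k : ℕ, 1 ≤ k → k ≤ 2^(d*(d*s)) → (k : KK) ≠ 0)
    {W : Finset (Fin n)} (hW : Good g W) (hWs : W.card = d * s) {c : KK}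
    (hc : ∀ K ⊆ W, K.card = s → D.F (D.top h K) = c) : False := by
  classical
  have hgood : ∀ J : Finset (Fin n), J ⊆ W → Good g J := fun J hJ k hk => hW k (hJ hk)
  have hhM : h ≤ M := le_trans (Nat.le_mul_of_pos_left h (by omega)) hh
  have hne : ∀ K ⊆ W, K.card = s → (D.WWh h K).Nonempty := by
    intro K hK hKs
    obtain ⟨ρ, ⟨T, hT, w, hw, rfl⟩, hρ⟩ := hs'
    obtain ⟨T', w', hT', hw', hs1, -, -⟩ := D.place (by omega) hM hhM hg hn hT hw (hgood K hK)
      (by rw [hKs, ← D.length_rc, hρ]) (ε := 0) (by omega)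
    exact ⟨w', hs1, T', hT', hw'⟩
  -- ordered partitions
  set Part : Finset (Fin d → Finset (Fin n)) :=
    (Fintype.piFinset (fun _ : Fin d => W.powersetCard s)).filter
      (fun J => ∀ i j, i ≠ j → Disjoint (J i) (J j)) with hPart
  have hmemP : ∀ J, J ∈ Part ↔ (∀ i, J i ⊆ W ∧ (J i).card = s) ∧
      ∀ i j, i ≠ j → Disjoint (J i) (J j) := by
    intro J
    rw [hPart, Finset.mem_filter, Fintype.mem_piFinset]
    simp only [Finset.mem_powersetCard]
  have hPne : Part.Nonempty := by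
    set f := W.orderEmbOfFin hWs with hf
    refine ⟨fun i => (univ : Finset (Fin s)).image (fun k => f (finProdFinEquiv (i, k))), ?_⟩
    rw [hmemP]
    refine ⟨fun i => ⟨?_, ?_⟩, ?_⟩
    · intro x hx
      obtain ⟨k, -, rfl⟩ := Finset.mem_image.1 hx
      exact Finset.orderEmbOfFin_mem W hWs _
    · rw [Finset.card_image_of_injective, Finset.card_univ, Fintype.card_fin]
      intro k k' hkk
      have h1 := finProdFinEquiv.injective (f.injective hkk)
      exact (Prod.ext_iff.1 h1).2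
    · intro i j hij
      rw [Finset.disjoint_left]
      intro x hx hx'
      obtain ⟨k, -, rfl⟩ := Finset.mem_image.1 hx
      obtain ⟨k', -, hk'⟩ := Finset.mem_image.1 hx'
      have h1 := finProdFinEquiv.injective (f.injective hk')
      exact hij (Prod.ext_iff.1 h1).1.symm
  obtain ⟨J0, hJ0, hmax⟩ := Finset.exists_max_image Part (fun J => ∑ i, D.top h (J i)) hPne
  rw [hmemP] at hJ0
  obtain ⟨hJ0a, hJ0b⟩ := hJ0
  set w : Fin d → ℕ := fun i => D.top h (J0 i) with hwdef
  have hw : ∀ i, w i ∈ D.WWh h (J0 i) := fun i => D.top_mem (hne _ (hJ0a i).1 (hJ0a i).2)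
  obtain ⟨α, β, hα1, hβ1, hα2, hβ2, hsum⟩ := D.arith w (fun i => D.WWh_univ (hw i))
  have hclos : ∀ u : Fin d → ℕ, (∀ i, u i ∈ D.V) → α ≤ ∑ i, u i → ∑ i, u i ≤ β →
      (∀ i, (D.supp (u i)).card = s) ∧ (∀ i, D.supp (u i) ⊆ univ.biUnion J0) ∧
      (∀ i j, i ≠ j → Disjoint (D.supp (u i)) (D.supp (u j))) ∧
      ∀ i, u i ∈ D.WWh h (D.supp (u i)) := by
    intro u hu h1 h2
    apply D.closureD hd hM hh hg hn hst hs (fun i => hgood _ (hJ0a i).1) hJ0b
      (fun i => (hJ0a i).2) hw hu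
    unfold Rel
    rw [sm_cast, sm_cast, abs_le]
    constructor <;> omega
  -- the shorter tuples
  have hshort : ∀ i ∈ range d, D.a i * ∑ u ∈ (tup D.V i).filter
      (fun u => α ≤ ∑ j, u j ∧ ∑ j, u j ≤ β), ∏ j, D.F (u j) = 0 := by
    intro i hi
    rw [Finset.mem_range] at hi
    have hemp : (tup D.V i).filter (fun u => α ≤ ∑ j, u j ∧ ∑ j, u j ≤ β) = ∅ := by
      rw [Finset.filter_eq_empty_iff]
      intro u hu hcon
      unfold tup at hu
      rw [Fintype.mem_piFinset] at hu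
      set u' : Fin d → ℕ := fun j => if h : (j : ℕ) < i then u ⟨j, h⟩ else 0 with hu'
      have hsu' : ∑ j, u' j = ∑ j, u j := sum_pad hi.le u
      have h1 := hclos u' (by
        intro j
        simp only [hu']
        split_ifs with hj
        · exact hu _
        · exact D.zero_mem) (by rw [hsu']; exact hcon.1) (by rw [hsu']; exact hcon.2)
      have h2 := D.WWh_univ (h1.2.2.2 ⟨i, hi⟩)
      have h3 : u' ⟨i, hi⟩ = 0 := by
        simp only [hu', lt_irrefl, dif_neg, not_false_eq_true]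
      rw [h3] at h2
      exact D.zero_not h2
    rw [hemp, Finset.sum_empty, mul_zero]
  unfold wsum at hsum
  rw [Finset.sum_range_succ, Finset.sum_eq_zero hshort, zero_add] at hsum
  set P := (tup D.V d).filter (fun u => α ≤ ∑ j, u j ∧ ∑ j, u j ≤ β) with hP
  have hPmem : ∀ u ∈ P, (∀ i, u i ∈ D.V) ∧ α ≤ ∑ j, u j ∧ ∑ j, u j ≤ β := by
    intro u hu
    rw [hP, Finset.mem_filter] at hu
    unfold tup at hu
    rw [Fintype.mem_piFinset] at hu
    exact hu
  have hbJ : univ.biUnion J0 ⊆ W := by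
    intro x hx
    rw [Finset.mem_biUnion] at hx
    obtain ⟨i, -, hx⟩ := hx
    exact (hJ0a i).1 hx
  have htop : ∀ u ∈ P, (∀ i, D.supp (u i) ⊆ W ∧ (D.supp (u i)).card = s) ∧
      ∀ i, u i = D.top h (D.supp (u i)) := by
    intro u hu
    obtain ⟨hu1, hu2, hu3⟩ := hPmem u hu
    obtain ⟨c1, c2, c3, c4⟩ := hclos u hu1 hu2 hu3
    have hsW : ∀ i, D.supp (u i) ⊆ W ∧ (D.supp (u i)).card = s :=
      fun i => ⟨(c2 i).trans hbJ, c1 i⟩
    refine ⟨hsW, fun i => ?_⟩
    have hm := hmax (fun i => D.supp (u i)) ((hmemP _).2 ⟨hsW, c3⟩)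
    have hle : ∀ j, u j ≤ D.top h (D.supp (u j)) := fun j => D.le_top (c4 j)
    have h1 : (D.top h (D.supp (u i)) - u i) ≤ ∑ j, (D.top h (D.supp (u j)) - u j) :=
      Finset.single_le_sum (f := fun j => D.top h (D.supp (u j)) - u j)
        (fun _ _ => Nat.zero_le _) (mem_univ i)
    have h2 : ∑ j, (D.top h (D.supp (u j)) - u j) + ∑ j, u j = ∑ j, D.top h (D.supp (u j)) := by
      rw [← Finset.sum_add_distrib]
      exact Finset.sum_congr rfl fun j _ => Nat.sub_add_cancel (hle j)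
    by_contra hne1
    have h3 := D.sep _ (D.WWh_univ (D.top_mem (hne _ (hsW i).1 (hsW i).2))) (u i) (hu1 i) hne1
    have h4 := hle i
    change ∑ j, D.top h (D.supp (u j)) ≤ ∑ j, w j at hm
    rcases lt_abs.1 h3 with h5 | h5 <;> omega
  have hval : ∀ u ∈ P, ∏ j, D.F (u j) = c^d := by
    intro u hu
    obtain ⟨h1, h2⟩ := htop u hu
    rw [Finset.prod_congr rfl (g := fun _ => c)]
    · rw [Finset.prod_const, Finset.card_univ, Fintype.card_fin]
    · intro j _
      rw [h2 j]
      exact hc _ (h1 j).1 (h1 j).2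
  rw [Finset.sum_congr rfl hval, Finset.sum_const, nsmul_eq_mul] at hsum
  have hd0 : 0 < d := by omega
  have hc0 : c ≠ 0 := by
    rw [← hc (J0 ⟨0, hd0⟩) (hJ0a _).1 (hJ0a _).2]
    exact D.F_ne _ (D.WWh_univ (hw ⟨0, hd0⟩))
  have hP0 : ((P.card : ℕ) : KK) = 0 := by
    rcases mul_eq_zero.1 hsum with h1 | h1
    · exact absurd h1 D.a_ne
    · rcases mul_eq_zero.1 h1 with h2 | h2
      · exact h2
      · exact absurd h2 (pow_ne_zero _ hc0)
  have hPpos : 0 < P.card := by
    apply Finset.card_pos.2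
    refine ⟨w, ?_⟩
    rw [hP, Finset.mem_filter]
    unfold tup
    rw [Fintype.mem_piFinset]
    exact ⟨fun i => D.WW_sub _ _ (D.WWh_univ (hw i)), hα1, hβ1⟩
  have hPle : P.card ≤ 2^(d*(d*s)) := by
    have h1 : (Fintype.piFinset (fun _ : Fin d => W.powerset)).card = 2^(d*(d*s)) := by
      rw [Fintype.card_piFinset, Finset.prod_const, Finset.card_univ, Fintype.card_fin,
        Finset.card_powerset, hWs, ← pow_mul]
      congr 1
      ring
    rw [← h1]
    apply Finset.card_le_card_of_injOn (fun u => fun i => D.supp (u i))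
    · intro u hu
      have h2 := htop u hu
      exact Fintype.mem_piFinset.2 fun i => Finset.mem_powerset.2 (h2.1 i).1
    · intro x hx y hy hxy
      obtain ⟨-, h2⟩ := htop x hx
      obtain ⟨-, h2'⟩ := htop y hy
      funext i
      rw [h2 i, h2' i]
      have := congrFun hxy i
      simp only at this
      rw [this]
  exact hK _ hPpos hPle hP0

end EndD

/-- the endgame: for suitable `m` there are no data with `m` sources -/
theorem endgameD (KK PT : Type) [Field KK] [Finite KK] [Inhabited PT] [DecidableEq PT] [Finite PT]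
    (d q0 : ℕ) (hd : 2 ≤ d) (hK : ∀ n : ℕ, 1 ≤ n → n ≤ 2^(d*(d*q0)) → (n : KK) ≠ 0) :
    ∃ m : ℕ, ∀ m', m ≤ m' → ∀ _ : EndD KK PT d m' q0, False := by
  classical
  -- the second Ramsey number
  choose t2 ht2 using fun s : ℕ => ramsey_r KK s (d * s)
  set L := (Finset.range (q0 + 1)).sup t2 with hL
  set hm := d ^ EndD.PP PT q0 with hhm
  set n := (2*(d*(hm+1))) * (L + 1) with hn
  obtain ⟨m, hm'⟩ := exists_homD KK PT d q0 (d * hm) n
  refine ⟨m, ?_⟩
  intro m' hmm D0
  obtain ⟨D, hD⟩ := hm' m' hmm D0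
  obtain ⟨i, hi, hst⟩ := D.exists_stable (by omega)
  set h := d ^ i with hh
  have hhle : h ≤ hm := Nat.pow_le_pow_right (by omega) hi
  have hh1 : 1 ≤ h := Nat.one_le_pow _ _ (by omega)
  rw [pow_succ, mul_comm (d ^ i) d, ← hh] at hst
  set g := 2*(d*(h+1)) with hg
  have hgle : g ≤ 2*(d*(hm+1)) :=
    Nat.mul_le_mul_left _ (Nat.mul_le_mul_left _ (by omega))
  have hgn : g * (L + 1) ≤ n := Nat.mul_le_mul_right _ hgle
  have hgn' : g ≤ n := le_trans (Nat.le_mul_of_pos_right g (Nat.succ_pos L)) hgn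
  have hg1 : 2 ≤ g := by
    have : 0 < d*(h+1) := Nat.mul_pos (by omega) (by omega)
    omega
  have hnpos : 0 < n := by omega
  -- the maximal length
  have hnonempty : (D.Red h).Nonempty := by
    exact ⟨_, {⟨0, hnpos⟩}, by rw [Finset.card_singleton]; exact hh1, _, D.src ⟨0, hnpos⟩, rfl⟩
  obtain ⟨ρ, hρ, hρmax⟩ := Set.exists_max_image (D.Red h) List.length (D.Red_fin h) hnonempty
  set s := ρ.length with hs
  have hsq : s ≤ q0 := D.Red_sub h hρ
  have hbins : 2^(d*(d*s)) ≤ 2^(d*(d*q0)) :=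
    Nat.pow_le_pow_right (by norm_num) (Nat.mul_le_mul_left _ (Nat.mul_le_mul_left _ hsq))
  -- the multiples of `g`
  set H : Finset (Fin n) := univ.filter
    (fun x => (x : ℕ) % g = 0 ∧ g ≤ (x : ℕ) ∧ (x : ℕ) + g ≤ n) with hH
  have hHcard : L ≤ H.card := by
    have hlt : ∀ j : Fin L, g * ((j : ℕ) + 1) < n := by
      intro j
      have h1 : (j : ℕ) + 1 < L + 1 := by omega
      have h2 : g * ((j : ℕ) + 1) < g * (L + 1) := Nat.mul_lt_mul_of_pos_left h1 (by omega)
      omega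
    have h1 : (Finset.univ : Finset (Fin L)).card ≤ H.card := by
      apply Finset.card_le_card_of_injOn (fun j : Fin L => (⟨g * ((j : ℕ) + 1), hlt j⟩ : Fin n))
      · intro j _
        simp only [hH, Finset.coe_filter, Finset.mem_univ, true_and, Set.mem_ofPred_eq]
        refine ⟨Nat.mul_mod_right _ _, Nat.le_mul_of_pos_right g (Nat.succ_pos _), ?_⟩
        have h2 : (j : ℕ) + 1 + 1 ≤ L + 1 := by omega
        have h3 : g * ((j : ℕ) + 1 + 1) ≤ g * (L + 1) := Nat.mul_le_mul_left g h2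
        have h4 : g * ((j : ℕ) + 1 + 1) = g * ((j : ℕ) + 1) + g := by ring
        omega
      · intro a _ b _ hab
        simp only [Fin.mk.injEq] at hab
        have := Nat.eq_of_mul_eq_mul_left (by omega : 0 < g) hab
        exact Fin.ext (by omega)
    rw [Finset.card_univ, Fintype.card_fin] at h1
    exact h1
  have ht : t2 s ≤ H.card :=
    le_trans (Finset.le_sup (f := t2) (Finset.mem_range.2 (by omega))) hHcard
  obtain ⟨W, hWH, hWs, c, hc⟩ := ht2 s H (fun K => D.F (D.top h K)) ht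
  have hWgood : EndD.Good g W := by
    intro k hk
    have := hWH hk
    rw [hH, Finset.mem_filter] at this
    exact this.2
  exact D.finalD hd hD (Nat.mul_le_mul_left _ hhle) hg hgn' hst (fun ρ' h' => hρmax ρ' h')
    ⟨ρ, hρ, rfl⟩ (fun k hk1 hk2 => hK k hk1 (hk2.trans hbins)) hWgood hWs hc

end Pool.Agent.AlgD
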