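import Pool.Agent.AlgD.HomD
import Pool.Agent.AlgD.PlaceD

/-! # GAMEBASE. The basic lemmas of the endgame for homogeneous data. -/

set_option autoImplicit false

open Finset

namespace Pool.Agent.AlgD

open Pool.Agent.DigitA Pool.Agent.H55.Gen

namespace EndD

variable {KK PT : Type} [Field KK] [Inhabited PT] [DecidableEq PT] {d n q0 : ℕ}
  (D : EndD KK PT d n q0)

/-- the support of the code -/
def supp (w : ℕ) : Finset (Fin n) := univ.filter (fun j => D.code w j ≠ default)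

/-- reduced code: the list of the nonempty letters -/
def rc (w : ℕ) : List PT := ((D.supp w).sort).map (D.code w)

theorem length_rc (w : ℕ) : (D.rc w).length = (D.supp w).card := by
  simp [rc]

theorem mem_supp {w : ℕ} {j : Fin n} : j ∈ D.supp w ↔ D.code w j ≠ default := by
  simp [supp]

theorem code_eq_empty {w : ℕ} {j : Fin n} (h : j ∉ D.supp w) : D.code w j = default := by
  by_contra h1
  exact h (D.mem_supp.2 h1)

theorem supp_subset {T : Finset (Fin n)} {w : ℕ} (h : w ∈ D.WW T) : D.supp w ⊆ T := by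
  intro j hj
  exact D.supp_sub T w h j (D.mem_supp.1 hj)

theorem univ_mem {T : Finset (Fin n)} {w : ℕ} (h : w ∈ D.WW T) : w ∈ D.WW univ :=
  D.WW_mono _ _ (Finset.subset_univ _) h

theorem eq_of_rc {w w' : ℕ} (h : w ∈ D.WW univ) (h' : w' ∈ D.WW univ)
    (hs : D.supp w = D.supp w') (hr : D.rc w = D.rc w') : w = w' := by
  apply D.code_inj _ h _ h'
  funext j
  by_cases hj : j ∈ D.supp w
  · unfold rc at hr
    rw [← hs] at hr
    exact List.map_inj_left.1 hr j ((Finset.mem_sort _).2 hj)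
  · rw [D.code_eq_empty hj, D.code_eq_empty (by rw [← hs]; exact hj)]

/-- transport of the support and the reduced code -/
theorem supp_transport {S : Finset (Fin n)} {ψ : Fin n → Fin n} {w w' : ℕ}
    (hψ : StrictMonoOn ψ (S : Set (Fin n))) (hw : w ∈ D.WW S) (hw' : w' ∈ D.WW (S.image ψ))
    (hc : ∀ x ∈ S, D.code w' (ψ x) = D.code w x) :
    D.supp w' = (D.supp w).image ψ ∧ D.rc w' = D.rc w := by
  have h1 : D.supp w' = (D.supp w).image ψ := by
    ext y
    rw [Finset.mem_image]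
    constructor
    · intro hy
      obtain ⟨x, hx, rfl⟩ := Finset.mem_image.1 (D.supp_subset hw' hy)
      refine ⟨x, ?_, rfl⟩
      rw [D.mem_supp] at hy ⊢
      rw [← hc x hx]
      exact hy
    · rintro ⟨x, hx, rfl⟩
      have hxS := D.supp_subset hw hx
      rw [D.mem_supp] at hx ⊢
      rw [hc x hxS]
      exact hx
  refine ⟨h1, ?_⟩
  unfold rc
  have hsub : ((D.supp w : Finset (Fin n)) : Set (Fin n)) ⊆ (S : Set (Fin n)) := by
    exact_mod_cast D.supp_subset hw
  rw [h1, sort_image _ ψ (hψ.mono hsub), List.map_map]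
  apply List.map_inj_left.2
  intro x hx
  rw [Finset.mem_sort] at hx
  exact hc x (D.supp_subset hw hx)

theorem transport1 {M : ℕ} (hd : 1 ≤ d) (hM : D.Hom M) {S : Finset (Fin n)} (hS : S.card ≤ M)
    {ψ : Fin n → Fin n} (hψ : StrictMonoOn ψ (S : Set (Fin n))) {w : ℕ} (hw : w ∈ D.WW S) :
    ∃ w' ∈ D.WW (S.image ψ), ∀ x ∈ S, D.code w' (ψ x) = D.code w x := by
  obtain ⟨w', u', h1, -, h2, -, -⟩ := hM S hS ψ hψ (fun _ => w) (fun _ => w) (fun _ => hw)
    (fun _ => hw) (by simp [Rel])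
  exact ⟨w' ⟨0, hd⟩, h1 _, h2 _⟩

/-- the reduced codes of the elements with at most `h` sources -/
def Red (h : ℕ) : Set (List PT) :=
  {ρ | ∃ T : Finset (Fin n), T.card ≤ h ∧ ∃ w ∈ D.WW T, D.rc w = ρ}

theorem Red_sub (h : ℕ) : D.Red h ⊆ {l : List PT | l.length ≤ q0} := by
  rintro ρ ⟨T, -, w, hw, rfl⟩
  change (D.rc w).length ≤ q0
  rw [D.length_rc]
  exact D.supp_card w (D.univ_mem hw) _ (fun j hj => D.mem_supp.1 hj)

theorem Red_fin [Finite PT] (h : ℕ) : (D.Red h).Finite :=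
  (List.finite_length_le _ q0).subset (D.Red_sub h)

theorem Red_mono {h h' : ℕ} (hh : h ≤ h') : D.Red h ⊆ D.Red h' := by
  rintro ρ ⟨T, hT, w, hw, rfl⟩
  exact ⟨T, hT.trans hh, w, hw, rfl⟩

/-- the number of reduced codes -/
noncomputable def PP (PT : Type) (q0 : ℕ) : ℕ := {l : List PT | l.length ≤ q0}.ncard

theorem exists_stable [Finite PT] (hd : 1 ≤ d) :
    ∃ i ≤ PP PT q0, D.Red (d ^ i) = D.Red (d ^ (i + 1)) := by
  by_contra hcon
  push Not at hcon
  have key : ∀ i, i ≤ PP PT q0 + 1 → i ≤ (D.Red (d ^ i)).ncard := by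
    intro i
    induction i with
    | zero => intro _; exact Nat.zero_le _
    | succ i ih =>
      intro hi
      have h1 := ih (by omega)
      have h2 : D.Red (d ^ i) ⊂ D.Red (d ^ (i + 1)) :=
        lt_of_le_of_ne (D.Red_mono (Nat.pow_le_pow_right hd (Nat.le_succ i)))
          (hcon i (by omega))
      have h3 := Set.ncard_lt_ncard h2 (D.Red_fin _)
      omega
  have h1 := key _ le_rfl
  have h2 : (D.Red (d ^ (PP PT q0 + 1))).ncard ≤ PP PT q0 :=
    Set.ncard_le_ncard (D.Red_sub _) (List.finite_length_le _ q0)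
  omega

/-- good supports -/
def Good (g : ℕ) (K : Finset (Fin n)) : Prop :=
  ∀ k ∈ K, (k : ℕ) % g = 0 ∧ g ≤ (k : ℕ) ∧ (k : ℕ) + g ≤ n

theorem place {M h g : ℕ} (hd : 1 ≤ d) (hM : D.Hom M) (hh : h ≤ M) (hg : g = 2*(d*(h+1)))
    (hn : g ≤ n) {T : Finset (Fin n)} (hT : T.card ≤ h) {w : ℕ} (hw : w ∈ D.WW T)
    {K : Finset (Fin n)} (hK : Good g K) (hcard : K.card = (D.supp w).card) {ε : ℕ} (hε : ε < d) :
    ∃ (T' : Finset (Fin n)) (w' : ℕ), T'.card ≤ h ∧ w' ∈ D.WW T' ∧ D.supp w' = K ∧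
      D.rc w' = D.rc w ∧
      ∀ x ∈ T', x ∈ K ∨ ∃ i, 1 ≤ i ∧ i ≤ h ∧ (x : ℕ) % g = d * i + ε := by
  obtain ⟨ψ, hψ, hψK, hψx⟩ := placementD hd T (D.supp w) K hT (D.supp_subset hw) hcard hg hK hn ε hε
  obtain ⟨w', hw', hc⟩ := D.transport1 hd hM (hT.trans hh) hψ hw
  obtain ⟨h1, h2⟩ := D.supp_transport hψ hw hw' hc
  exact ⟨T.image ψ, w', Finset.card_image_le.trans hT, hw', h1.trans hψK, h2, hψx⟩

theorem small {M h g : ℕ} (hd : 1 ≤ d) (hM : D.Hom M) (hh : h ≤ M) (hg : g = 2*(d*(h+1)))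
    (hn : g ≤ n) (hst : D.Red h = D.Red (d * h))
    {T : Finset (Fin n)} (hT : T.card ≤ d * h) {w : ℕ} (hw : w ∈ D.WW T)
    (hK : Good g (D.supp w)) {ε : ℕ} (hε : ε < d) :
    ∃ T' : Finset (Fin n), T'.card ≤ h ∧ w ∈ D.WW T' ∧
      ∀ x ∈ T', x ∈ D.supp w ∨ ∃ i, 1 ≤ i ∧ i ≤ h ∧ (x : ℕ) % g = d * i + ε := by
  have h1 : D.rc w ∈ D.Red h := by
    rw [hst]
    exact ⟨T, hT, w, hw, rfl⟩
  obtain ⟨T1, hT1, w1, hw1, hr1⟩ := h1
  have hc : (D.supp w).card = (D.supp w1).card := by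
    rw [← D.length_rc, ← D.length_rc, hr1]
  obtain ⟨T', w', hT', hw', hs', hr', hx⟩ := D.place hd hM hh hg hn hT1 hw1 hK hc hε
  have h2 : w' = w := D.eq_of_rc (D.univ_mem hw') (D.univ_mem hw) hs' (hr'.trans hr1)
  rw [h2] at hw'
  exact ⟨T', hT', hw', hx⟩

theorem coverD {M : ℕ} (hM : D.Hom M) {S : Finset (Fin n)} (hS : S.card ≤ M) {j : Fin n}
    (hjn : (j : ℕ) + 1 < n) (hj1 : (⟨(j : ℕ) + 1, hjn⟩ : Fin n) ∉ S)
    {w u : Fin d → ℕ} (hw : ∀ i, w i ∈ D.WW S) (hu : ∀ i, u i ∈ D.WW S)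
    (hr : D.Rel w u) {i₀ : Fin d} (hj : j ∈ D.supp (w i₀)) (hj' : ∀ i, i ≠ i₀ → j ∉ D.supp (w i)) :
    ∃ i, j ∈ D.supp (u i) := by
  by_contra hcon
  push Not at hcon
  set j1 : Fin n := ⟨(j : ℕ) + 1, hjn⟩ with hj1def
  have hne : j1 ≠ j := by
    intro h
    have := congrArg Fin.val h
    simp [hj1def] at this
  set ψ : Fin n → Fin n := fun x => if x = j then j1 else x with hψdef
  have hψj : ψ j = j1 := by simp [hψdef]
  have hψx : ∀ x, x ≠ j → ψ x = x := by
    intro x hx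
    simp [hψdef, hx]
  have hψ : StrictMonoOn ψ (S : Set (Fin n)) := by
    intro x hx y hy hxy
    have hx' : x ∈ S := by exact_mod_cast hx
    have hy' : y ∈ S := by exact_mod_cast hy
    by_cases hxj : x = j
    · have hyj : y ≠ j := by
        intro h
        rw [hxj, h] at hxy
        exact lt_irrefl _ hxy
      rw [hxj, hψj, hψx y hyj, Fin.lt_def]
      rw [hxj, Fin.lt_def] at hxy
      have : (y : ℕ) ≠ (j : ℕ) + 1 := by
        intro h
        apply hj1
        have : y = j1 := Fin.ext h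
        rw [← this]
        exact hy'
      simp only [hj1def]
      omega
    · rw [hψx x hxj]
      by_cases hyj : y = j
      · rw [hyj, hψj, Fin.lt_def]
        rw [hyj, Fin.lt_def] at hxy
        simp only [hj1def]
        omega
      · rw [hψx y hyj]
        exact hxy
  have hjnot : j ∉ S.image ψ := by
    intro h
    obtain ⟨x, hx, hxj⟩ := Finset.mem_image.1 h
    by_cases hxj' : x = j
    · rw [hxj', hψj] at hxj
      exact hne hxj
    · rw [hψx x hxj'] at hxj
      exact hxj' hxj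
  -- elements without `j` are fixed
  have fix : ∀ z z' : ℕ, z ∈ D.WW S → z' ∈ D.WW (S.image ψ) →
      (∀ x ∈ S, D.code z' (ψ x) = D.code z x) → j ∉ D.supp z → z' = z := by
    intro z z' hz hz' hc hjz
    apply D.code_inj _ (D.univ_mem hz') _ (D.univ_mem hz)
    funext y
    by_cases hy : y ∈ S.image ψ
    · obtain ⟨x, hx, rfl⟩ := Finset.mem_image.1 hy
      rw [hc x hx]
      by_cases hxj : x = j
      · rw [hxj, hψj, D.code_eq_empty hjz]
        symm
        apply D.code_eq_empty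
        intro h
        exact hj1 (D.supp_subset hz h)
      · rw [hψx x hxj]
    · rw [D.code_eq_empty (fun h => hy (D.supp_subset hz' h))]
      symm
      by_cases hyj : y = j
      · rw [hyj]
        exact D.code_eq_empty hjz
      · apply D.code_eq_empty
        intro h
        apply hy
        rw [Finset.mem_image]
        exact ⟨y, D.supp_subset hz h, hψx y hyj⟩
  obtain ⟨w', u', hw', hu', hcw, hcu, hr'⟩ := hM S hS ψ hψ w u hw hu hr
  have eu : u' = u := by
    funext i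
    exact fix (u i) (u' i) (hu i) (hu' i) (hcu i) (hcon i)
  have ew : ∀ i, i ≠ i₀ → w' i = w i := fun i hi =>
    fix (w i) (w' i) (hw i) (hw' i) (hcw i) (hj' i hi)
  have hdiff : sm w' - sm w = (w' i₀ : ℤ) - w i₀ := by
    unfold sm
    rw [← Finset.sum_sub_distrib, Finset.sum_eq_single i₀]
    · intro i _ hi
      rw [ew i hi, sub_self]
    · intro h
      exact absurd (Finset.mem_univ _) h
  have e0 : w' i₀ = w i₀ := by
    by_contra hne0
    have h1 := D.sep (w i₀) (D.univ_mem (hw i₀)) (w' i₀) (D.WW_sub _ _ (hw' i₀)) hne0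
    unfold Rel at hr hr'
    rw [eu] at hr'
    rw [← hdiff] at h1
    rw [abs_le] at hr hr'
    rcases lt_abs.1 h1 with h2 | h2 <;> omega
  have h5 : D.code (w i₀) j = default := by
    rw [← e0]
    exact D.code_eq_empty (fun h => hjnot (D.supp_subset (hw' i₀) h))
  exact D.mem_supp.1 hj h5

end EndD

end Pool.Agent.AlgD
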