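import Pool.Agent.AlgD.Defs
import Pool.Agent.H55.GenHom

/-! # HOMD. Reduction to homogeneous data (`d`-fold version of `H55/GenHom.lean`). -/

set_option autoImplicit false

open Finset

namespace Pool.Agent.AlgD

open Pool.Agent.DigitA Pool.Agent.H55 Pool.Agent.H55.Gen

namespace EndD

/-- near coincidence of two sums -/
def Rel {K P : Type} [Field K] [Inhabited P] {d n q0 : ℕ} (D : EndD K P d n q0)
    (w u : Fin d → ℕ) : Prop :=
  |sm u - sm w| ≤ D.r

/-- homogeneity for the subsets with at most `M` elements -/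
def Hom {K P : Type} [Field K] [Inhabited P] {d n q0 : ℕ} (D : EndD K P d n q0) (M : ℕ) : Prop :=
  ∀ S : Finset (Fin n), S.card ≤ M → ∀ ψ : Fin n → Fin n, StrictMonoOn ψ (S : Set (Fin n)) →
  ∀ w u : Fin d → ℕ, (∀ i, w i ∈ D.WW S) → (∀ i, u i ∈ D.WW S) → D.Rel w u →
   ∃ w' u' : Fin d → ℕ, (∀ i, w' i ∈ D.WW (S.image ψ)) ∧ (∀ i, u' i ∈ D.WW (S.image ψ)) ∧
     (∀ i, ∀ x ∈ S, D.code (w' i) (ψ x) = D.code (w i) x) ∧
     (∀ i, ∀ x ∈ S, D.code (u' i) (ψ x) = D.code (u i) x) ∧
     D.Rel w' u'

/-- restriction of the data to a subset of the sources -/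
def pull {K P : Type} [Field K] [Inhabited P] {d m n q0 : ℕ} (D : EndD K P d m q0)
    (ι : Fin n ↪o Fin m) : EndD K P d n q0 where
  V := D.V
  F := D.F
  a := D.a
  r := D.r
  WW T := D.WW (T.map ι.toEmbedding)
  code w j := D.code w (ι j)
  a_ne := D.a_ne
  zero_mem := D.zero_mem
  zero_not h := D.zero_not (D.WW_mono _ _ (Finset.subset_univ _) h)
  F_ne w hw := D.F_ne w (D.WW_mono _ _ (Finset.subset_univ _) hw)
  WW_sub T w hw := D.WW_sub _ w hw
  WW_mono T T' h := D.WW_mono _ _ (Finset.map_subset_map.2 h)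
  supp_sub T w hw j hj := by
    have := D.supp_sub _ w hw _ hj
    simpa using this
  code_inj w hw w' hw' h := by
    apply D.code_inj w (D.WW_mono _ _ (Finset.subset_univ _) hw) w'
      (D.WW_mono _ _ (Finset.subset_univ _) hw')
    funext j
    by_cases hj : j ∈ (Finset.univ : Finset (Fin n)).map ι.toEmbedding
    · obtain ⟨i, -, rfl⟩ := Finset.mem_map.1 hj
      exact congrFun h i
    · have h1 : D.code w j = default := by
        by_contra h1
        exact hj (D.supp_sub _ w hw j h1)
      have h2 : D.code w' j = default := by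
        by_contra h2
        exact hj (D.supp_sub _ w' hw' j h2)
      rw [h1, h2]
  supp_card w hw s hs := by
    rw [← Finset.card_map ι.toEmbedding]
    apply D.supp_card w (D.WW_mono _ _ (Finset.subset_univ _) hw)
    intro x hx
    obtain ⟨y, hy, rfl⟩ := Finset.mem_map.1 hx
    exact hs y hy
  sep w hw u hu huw := D.sep w (D.WW_mono _ _ (Finset.subset_univ _) hw) u hu huw
  closed T hT w hw u hu hr := by
    have h1 := D.closed (fun i => (T i).map ι.toEmbedding)
      (fun i j hij => (Finset.disjoint_map _).2 (hT i j hij)) w hw u hu hr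
    have h2 : (univ.biUnion T).map ι.toEmbedding =
        univ.biUnion (fun i => (T i).map ι.toEmbedding) := by
      ext x
      simp only [Finset.mem_map, Finset.mem_biUnion, Finset.mem_univ, true_and]
      constructor
      · rintro ⟨y, ⟨i, hi⟩, rfl⟩
        exact ⟨i, y, hi, rfl⟩
      · rintro ⟨i, y, hi, rfl⟩
        exact ⟨y, ⟨i, hi⟩, rfl⟩
    rw [h2]
    exact h1
  vs j := D.vs (ι j)
  src j := by
    rw [Finset.map_singleton]
    exact D.src (ι j)
  src_inj := D.src_inj.comp ι.injective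
  arith w hw := D.arith w (fun i => D.WW_mono _ _ (Finset.subset_univ _) (hw i))

/-- the colour of a set of sources -/
def color {K P : Type} [Field K] [Inhabited P] {d m q0 : ℕ} (D : EndD K P d m q0) (M : ℕ)
    (S : Finset (Fin m)) :
    Set ((Fin d → {l : List P // l.length ≤ M}) × (Fin d → {l : List P // l.length ≤ M})) :=
  {c | ∃ w u : Fin d → ℕ, (∀ i, w i ∈ D.WW S ∧ (S.sort).map (D.code (w i)) = (c.1 i).1) ∧
    (∀ i, u i ∈ D.WW S ∧ (S.sort).map (D.code (u i)) = (c.2 i).1) ∧ D.Rel w u}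

theorem hom_pull {K P : Type} [Field K] [Inhabited P] {d m n q0 : ℕ} (D : EndD K P d m q0)
    (ι : Fin n ↪o Fin m) (M : ℕ)
    (h : ∀ S S' : Finset (Fin n), S.card = S'.card → S.card ≤ M →
      D.color M (S.map ι.toEmbedding) = D.color M (S'.map ι.toEmbedding)) :
    (D.pull ι).Hom M := by
  intro S hS ψ hψ w u hw hu hr
  have hc : S.card = (S.image ψ).card := (Finset.card_image_of_injOn hψ.injOn).symm
  have hcol := h S (S.image ψ) hc hS
  have e1 : (S.map ι.toEmbedding).sort = (S.sort).map ι := by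
    rw [Finset.map_eq_image]
    exact sort_image S _ (ι.strictMono.strictMonoOn _)
  have e2 : ((S.image ψ).map ι.toEmbedding).sort = (S.sort).map (fun x => ι (ψ x)) := by
    rw [Finset.map_eq_image, Finset.image_image]
    exact sort_image S _ (fun x hx y hy hxy => ι.strictMono (hψ hx hy hxy))
  have hlen : ∀ v : ℕ, (((S.map ι.toEmbedding).sort).map (D.code v)).length ≤ M := by
    intro v
    rw [List.length_map, Finset.length_sort, Finset.card_map]
    exact hS
  have hmem : ((fun i => (⟨((S.map ι.toEmbedding).sort).map (D.code (w i)), hlen (w i)⟩ :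
      {l : List P // l.length ≤ M})),
      (fun i => (⟨((S.map ι.toEmbedding).sort).map (D.code (u i)), hlen (u i)⟩ :
      {l : List P // l.length ≤ M}))) ∈ D.color M (S.map ι.toEmbedding) :=
    ⟨w, u, fun i => ⟨hw i, rfl⟩, fun i => ⟨hu i, rfl⟩, hr⟩
  rw [hcol] at hmem
  obtain ⟨w', u', hw', hu', hr'⟩ := hmem
  refine ⟨w', u', fun i => (hw' i).1, fun i => (hu' i).1, ?_, ?_, hr'⟩
  · intro i x hx
    have h3 := (hw' i).2
    simp only at h3
    rw [e1, e2, List.map_map, List.map_map] at h3
    exact (List.map_inj_left.1 h3) x ((Finset.mem_sort _).2 hx)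
  · intro i x hx
    have h3 := (hu' i).2
    simp only at h3
    rw [e1, e2, List.map_map, List.map_map] at h3
    exact (List.map_inj_left.1 h3) x ((Finset.mem_sort _).2 hx)

end EndD

/-- reduction to homogeneous data -/
theorem exists_homD (K P : Type) [Field K] [Inhabited P] [Finite P] (d q0 M n : ℕ) :
    ∃ m : ℕ, ∀ m', m ≤ m' → ∀ D : EndD K P d m' q0, ∃ D' : EndD K P d n q0, D'.Hom M := by
  have hfin : Finite {l : List P // l.length ≤ M} :=
    (List.finite_length_le _ M).to_subtype
  obtain ⟨t, ht⟩ := ramsey_emb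
    (Set ((Fin d → {l : List P // l.length ≤ M}) × (Fin d → {l : List P // l.length ≤ M}))) M n
  refine ⟨t, ?_⟩
  intro m' hm' D
  obtain ⟨ι, hι⟩ := ht m' hm' (D.color M)
  exact ⟨D.pull ι, D.hom_pull ι M hι⟩

end Pool.Agent.AlgD
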