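import Pool.Agent.AlgD.Coarse

/-! # WIN. Consequences of `coarseP`. -/

open Finset Polynomial

namespace Pool.Agent.AlgD

open Pool.Agent.SqrtDC Pool.Agent.DigitA

variable {p : ℕ} [Fact p.Prime] {P : (ZMod p)[X]} {A : Finset ℕ} {v : ℕ → ZMod p} {N Λ : ℕ}

lemma Win_wsum_eq {K : Type*} [Field K] (a : ℕ → K) (d : ℕ) (V : Finset ℕ) (F : ℕ → K)
    {R1 R2 : ℕ} (h : R1 ≤ R2) : wsum a d V F (R1+1) R2 = tsm a d V F R2 - tsm a d V F R1 := by
  unfold wsum tsm
  rw [← Finset.sum_sub_distrib]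
  apply Finset.sum_congr rfl
  intro i _
  rw [← mul_sub]
  congr 1
  rw [eq_sub_iff_add_eq, ← Finset.sum_union]
  · apply Finset.sum_congr _ (fun _ _ => rfl)
    ext u
    simp only [Finset.mem_union, Finset.mem_filter]
    constructor
    · rintro (⟨h1, h2, h3⟩ | ⟨h1, h2⟩)
      · exact ⟨h1, h3⟩
      · exact ⟨h1, h2.trans h⟩
    · rintro ⟨h1, h2⟩
      by_cases h3 : ∑ j, u j ≤ R1
      · exact Or.inr ⟨h1, h3⟩
      · exact Or.inl ⟨h1, by omega, h2⟩
  · rw [Finset.disjoint_left]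
    intro u hu hu'
    rw [Finset.mem_filter] at hu hu'
    omega

theorem n1P (h : ExP p P A v N Λ) {d : ℕ} (hd : P.natDegree = d) (t γ W : ℕ) (ht : #A ≤ t)
    (hW : (Λ + d*(t*γ)) * t^d + 1 ≤ W) (σ : ℕ) (hσ : W ≤ σ) (hσN : σ + W + Λ ≤ N) :
    ∃ α β : ℕ, α ≤ σ ∧ σ ≤ β ∧ σ ≤ α + W ∧ β ≤ σ + W ∧
      wsum P.coeff d (vis A v γ) (mass A v γ) α β = 0 := by
  obtain ⟨R1, h1a, h1b, h1⟩ := coarseP h hd t γ W ht hW (σ - W) (by omega)
  obtain ⟨R2, h2a, h2b, h2⟩ := coarseP h hd t γ W ht hW σ hσN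
  refine ⟨R1 + 1, R2, by omega, h2a, by omega, by omega, ?_⟩
  rw [Win_wsum_eq _ _ _ _ (by omega), h1, h2, sub_zero]

theorem f1P (h : ExP p P A v N Λ) {d : ℕ} (hd : P.natDegree = d) (t γ W : ℕ) (ht : #A ≤ t)
    (hW : (Λ + d*(t*γ)) * t^d + 1 ≤ W) (c : ℕ) (hc : d*c + W + Λ ≤ N) :
    ∃ x ∈ vis A v γ, c < x ∧ x < d*c + W := by
  by_contra hcon
  push Not at hcon
  obtain ⟨R, hR1, hR2, hR⟩ := coarseP h hd t γ W ht hW (d*c) hc
  set V := vis A v γ with hV
  set V' := V.filter (fun x => x ≤ c) with hV'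
  have hfil : ∀ i ∈ range (d+1), (tup V i).filter (fun u => ∑ j, u j ≤ R) = tup V' i := by
    intro i hi
    rw [Finset.mem_range] at hi
    ext u
    unfold tup
    rw [Finset.mem_filter, Fintype.mem_piFinset, Fintype.mem_piFinset]
    constructor
    · rintro ⟨h1, h2⟩ j
      rw [hV', Finset.mem_filter]
      refine ⟨h1 j, ?_⟩
      by_contra hj
      have h3 := hcon (u j) (h1 j) (by omega)
      have h4 : u j ≤ ∑ j, u j := Finset.single_le_sum (fun _ _ => Nat.zero_le _) (Finset.mem_univ j)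
      omega
    · intro h1
      refine ⟨fun j => (Finset.mem_filter.mp (h1 j)).1, ?_⟩
      calc ∑ j, u j ≤ ∑ _j : Fin i, c :=
            Finset.sum_le_sum (fun j _ => (Finset.mem_filter.mp (h1 j)).2)
        _ = i * c := by simp
        _ ≤ d * c := Nat.mul_le_mul_right _ (by omega)
        _ ≤ R := hR1
  apply h.root (∑ x ∈ V', mass A v γ x)
  rw [Polynomial.eval_eq_sum_range, hd, ← hR]
  unfold tsm
  apply Finset.sum_congr rfl
  intro i hi
  rw [hfil i hi]
  congr 1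
  unfold tup
  rw [← Finset.prod_univ_sum (fun _ : Fin i => V') (fun _ x => mass A v γ x), Finset.prod_const,
    Finset.card_univ, Fintype.card_fin]

theorem many_pointsD (V : Finset ℕ) (d W N' k : ℕ) (hd : 1 ≤ d) (hW : 1 ≤ W)
    (hf : ∀ c, d*c + W ≤ N' → ∃ x ∈ V, c < x ∧ x < d*c + W) (hN : (d+1)^k * W ≤ N') :
    k ≤ #(V.filter (fun x => x ≤ (d+1)^k * W)) := by
  induction k with
  | zero => exact Nat.zero_le _
  | succ k ih =>
    have e1 : (d+1)^(k+1) * W = d * ((d+1)^k * W) + (d+1)^k * W := by ring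
    have h0 : W ≤ (d+1)^k * W := Nat.le_mul_of_pos_left _ (Nat.pow_pos (by omega))
    have h1 := ih (by omega)
    obtain ⟨x, hx, hx1, hx2⟩ := hf ((d+1)^k * W) (by omega)
    have h2 : insert x (V.filter (fun x => x ≤ (d+1)^k * W)) ⊆
        V.filter (fun x => x ≤ (d+1)^(k+1) * W) := by
      intro z hz
      rw [Finset.mem_insert] at hz
      rw [Finset.mem_filter]
      rcases hz with rfl | hz
      · exact ⟨hx, by omega⟩
      · rw [Finset.mem_filter] at hz
        exact ⟨hz.1, by omega⟩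
    have h3 := Finset.card_le_card h2
    rw [Finset.card_insert_of_notMem] at h3
    · omega
    · rw [Finset.mem_filter]
      rintro ⟨_, h4⟩
      omega

end Pool.Agent.AlgD
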