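import Pool.Agent.AlgD.Core
import Pool.Agent.AlgD.Theta
import Pool.Agent.AlgD.Win
import Pool.Agent.DigitA.Spread
import Pool.Agent.DigitA.Reg

/-! # MAINSTEP: the main step, degree `d` version of `DigitG/MainStep.lean`. -/

open Finset Polynomial

namespace Pool.Agent.AlgD

open Pool.Agent.SqrtDC Pool.Agent.DigitA

lemma mainStep_aux_two (y3 a b : ℕ) (hy : 1 ≤ y3) (h : y3 * a ≤ (y3+1) * b) : a ≤ 2 * b := by
  by_contra hcon
  push Not at hcon
  have h1 : y3 * (2 * b + 1) ≤ y3 * a := Nat.mul_le_mul_left _ hcon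
  nlinarith

lemma mainStep_aux_l (y l : ℕ) (hl : 28*l^2 ≤ y) : 28 * l ≤ y := by
  have : l ≤ l^2 := Nat.le_self_pow (by norm_num) l
  omega

/-- the level arithmetic -/
lemma mainStep_level_bound (y l : ℕ) (hy : 10 ≤ y) (hl : 28*l^2 ≤ y) :
    (y + 2) + (y^4 + 41) * (y^3*l) + y^4 + 50 ≤ y^8 := by
  have h1 : 28 * l ≤ y := mainStep_aux_l y l hl
  have h2 : (y^4 + 41) * (y^3*l) * 28 ≤ (y^4 + 41) * y^4 := by
    calc (y^4 + 41) * (y^3*l) * 28 = (y^4+41) * (y^3 * (28 * l)) := by ring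
      _ ≤ (y^4+41) * (y^3 * y) := by gcongr
      _ = (y^4+41) * y^4 := by ring
  have h3 : 10^4 ≤ y^4 := Nat.pow_le_pow_left hy 4
  have h4 : y ≤ y^4 := Nat.le_self_pow (by norm_num) y
  have h5 : y^8 = y^4 * y^4 := by ring
  rw [h5]
  nlinarith

/-- a smallest element is a start -/
lemma mainStep_zero_start (S : Finset ℕ) (h0 : 0 ∈ S) (γ : ℕ) : 0 ∈ starts S γ := by
  unfold starts
  rw [Finset.mem_filter]
  exact ⟨h0, fun e _ he => absurd he (Nat.not_lt_zero e)⟩

/-- window sums over `V` and over the visible starts agree -/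
lemma mainStep_wsum {K : Type*} [Field K] [DecidableEq K] (a F : ℕ → K) (d : ℕ)
    (V Vi : Finset ℕ) (R : ℕ) (hV : ∀ x, x ∈ V ↔ (x = 0 ∨ x ∈ Vi) ∧ x ≤ R)
    (h0 : 0 ∉ Vi → F 0 = 0) (α β : ℕ) (hβ : β ≤ R) :
    wsum a d V F α β = wsum a d Vi F α β := by
  unfold wsum
  refine Finset.sum_congr rfl fun i _ => ?_
  congr 1
  apply Finset.sum_congr_of_eq_on_inter
  · intro u hu hnu
    rw [Finset.mem_filter] at hu hnu
    have h1 : ∃ j, u j ∉ Vi := by
      by_contra hcon
      push Not at hcon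
      exact hnu ⟨by unfold tup; rw [Fintype.mem_piFinset]; exact hcon, hu.2⟩
    obtain ⟨j, hj⟩ := h1
    have h2 : u j ∈ V := by
      have := hu.1
      unfold tup at this
      rw [Fintype.mem_piFinset] at this
      exact this j
    have h3 : u j = 0 := by
      rcases ((hV _).1 h2).1 with h | h
      · exact h
      · exact absurd h hj
    rw [h3] at hj
    exact Finset.prod_eq_zero (Finset.mem_univ j) (by rw [h3]; exact h0 hj)
  · intro u hu hnu
    exfalso
    rw [Finset.mem_filter] at hu hnu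
    refine hnu ⟨?_, hu.2⟩
    have h1 := hu.1
    unfold tup at h1 ⊢
    rw [Fintype.mem_piFinset] at h1 ⊢
    intro j
    rw [hV]
    refine ⟨Or.inr (h1 j), ?_⟩
    have : u j ≤ ∑ j, u j := Finset.single_le_sum (fun _ _ => Nat.zero_le _) (Finset.mem_univ j)
    have := hu.2.2
    omega
  · intro u _ _
    rfl

lemma mainStep_deg {p : ℕ} [Fact p.Prime] (P : (ZMod p)[X]) (q : ℕ) (hq : 2 ≤ q)
    (hPq : P ∣ X^q - X) : P.natDegree ≤ q := by
  have h1 : (X^q - X : (ZMod p)[X]).natDegree = q :=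
    FiniteField.X_pow_card_sub_X_natDegree_eq (ZMod p) (by omega)
  have h2 : (X^q - X : (ZMod p)[X]) ≠ 0 := FiniteField.X_pow_card_sub_X_ne_zero (ZMod p) (by omega)
  rw [← h1]
  exact Polynomial.natDegree_le_of_dvd hPq h2

theorem main_stepD (A p : ℕ) [Fact p.Prime] (P : (ZMod p)[X]) (d : ℕ) (hPd : P.natDegree = d)
    (hd : 2 ≤ d) (hpA : 2^(d*(d*(4*A))) < p) (hp3 : 3 ≤ p) (q i₀ : ℕ) (hq : q = p^i₀)
    (hi₀ : 1 ≤ i₀) (hPq : P ∣ X^q - X) :
    ∃ m y₀ : ℕ, ∀ y, y₀ ≤ y → ∀ (l t N Λ ρ b : ℕ) (S : Finset ℕ) (v : ℕ → ZMod p),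
      ExP p P S v N Λ → #S ≤ t → t < y^(A+1) → t < 2^l →
      28*l^2 ≤ y → 12*(Λ * t^q + 1) ≤ ρ →
      100 * d * (m+2)^2 * (t+1)^(m+10+d) ≤ q^b → ρ * (q^b)^(y^8) ≤ N → False := by
  obtain ⟨m, y₁, hcore⟩ := coreD A p d hd hpA
  refine ⟨m, y₁ + 10, ?_⟩
  intro y hy l t N Λ ρ b S v hX hE hty htl hly hρ hB hN
  have hq3 : 3 ≤ q := by
    rw [hq]
    exact hp3.trans (Nat.le_self_pow (by omega) p)
  have hdq : d ≤ q := by
    rw [← hPd]
    exact mainStep_deg P q (by omega) hPq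
  set B := q^b with hBdef
  have ht1 : 1 ≤ t := by
    have : 0 < #S := Finset.card_pos.mpr ⟨0, hX.zero⟩
    omega
  have hρ1 : 12 ≤ ρ := by
    have : 12 ≤ 12*(Λ * t^q + 1) := by omega
    omega
  -- lower bounds for `B`
  have hm2 : 4 ≤ (m+2)^2 := by
    have := Nat.pow_le_pow_left (show 2 ≤ m+2 by omega) 2
    omega
  have hp10 : (t+1)^10 ≤ (t+1)^(m+10+d) := Nat.pow_le_pow_right (by omega) (by omega)
  have hpd : t^(d+1) ≤ (t+1)^(m+10+d) :=
    le_trans (Nat.pow_le_pow_left (by omega) _) (Nat.pow_le_pow_right (by omega) (by omega))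
  have hp2 : (t+1)^2 ≤ (t+1)^10 := Nat.pow_le_pow_right (by omega) (by omega)
  have hp1 : (t+1) ≤ (t+1)^10 := Nat.le_self_pow (by omega) _
  have hp0 : 1 ≤ (t+1)^10 := Nat.one_le_pow _ _ (by omega)
  have hBd : 400 * d * (t+1)^(m+10+d) ≤ B := by
    refine le_trans ?_ hB
    calc 400 * d * (t+1)^(m+10+d) = 100 * d * 4 * (t+1)^(m+10+d) := by ring
      _ ≤ 100 * d * (m+2)^2 * (t+1)^(m+10+d) := by gcongr
  have hBT2 : 400 * (t+1)^10 ≤ B := by
    refine le_trans ?_ hBd
    have e1 : 400 * 1 * (t+1)^10 ≤ 400 * d * (t+1)^(m+10+d) := by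
      apply Nat.mul_le_mul _ hp10
      apply Nat.mul_le_mul_left
      omega
    omega
  have hBm : 100 * d * (m+2)^2 ≤ B := by
    refine le_trans ?_ hB
    exact Nat.le_mul_of_pos_right _ (Nat.pow_pos (by omega))
  have hBd0 : 400 * d ≤ B := by
    refine le_trans ?_ hBd
    exact Nat.le_mul_of_pos_right _ (Nat.pow_pos (by omega))
  -- `Λ t^d ≤ ρ`
  have hΛρ : Λ * t^d ≤ ρ := by
    have h1 : t^d ≤ t^q := Nat.pow_le_pow_right ht1 hdq
    have h2 : Λ * t^d ≤ Λ * t^q := Nat.mul_le_mul_left _ h1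
    omega
  have hΛρ1 : Λ ≤ ρ := by
    have h1 : Λ ≤ Λ * t^d := Nat.le_mul_of_pos_right _ (Nat.pow_pos (by omega))
    omega
  have hBbig : 400 ≤ B := by omega
  have hBpos : 1 ≤ B := by omega
  have hBt : 400 * (t+1) ≤ B := by omega
  have hBt2 : 12*(t+1)^2 ≤ B := by omega
  -- coarse window
  set W' := (Λ + d*(t*ρ)) * t^d + 1 with hW'
  have hW'1 : W' ≤ ρ * B := by
    have f2 : d*(t*ρ) * t^d ≤ ρ * (d * (t+1)^(m+10+d)) := by
      calc d*(t*ρ)*t^d = ρ * (d * t^(d+1)) := by ring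
        _ ≤ ρ * (d * (t+1)^(m+10+d)) := by gcongr
    have f4 : ρ * (400 * d * (t+1)^(m+10+d)) ≤ ρ * B := Nat.mul_le_mul_left _ hBd
    have f5 : ρ * (400 * d * (t+1)^(m+10+d)) = 400 * (ρ * (d * (t+1)^(m+10+d))) := by ring
    have f6 : ρ ≤ ρ * (d * (t+1)^(m+10+d)) :=
      Nat.le_mul_of_pos_right _ (Nat.mul_pos (by omega) (Nat.pow_pos (by omega)))
    have f7 : W' = Λ * t^d + d*(t*ρ)*t^d + 1 := by rw [hW']; ring
    omega
  set r : ℕ → ℕ := fun k => ρ * B^k with hr
  have hr0 : r 0 = ρ := by simp [hr]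
  have hr1 : r 1 = ρ * B := by simp [hr]
  have hrs : ∀ k, r (k+1) = r k * B := fun k => by simp only [hr, pow_succ]; ring
  have hrmono : Monotone r := by
    apply monotone_nat_of_le_succ
    intro k
    rw [hrs]
    exact Nat.le_mul_of_pos_right _ hBpos
  have hrpos : ∀ k, 1 ≤ r k := fun k => by
    have := hrmono (Nat.zero_le k)
    rw [hr0] at this
    omega
  -- the visible set, with `0` added
  set Vs := vis S v ρ with hVs
  set Vi := insert 0 Vs with hVi
  have h0st : 0 ∈ starts S ρ := mainStep_zero_start S hX.zero ρ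
  have hVss : Vs ⊆ starts S ρ := by
    rw [hVs]; unfold vis; exact Finset.filter_subset _ _
  have hVit : #Vi ≤ t := by
    refine le_trans (Finset.card_le_card ?_) hE
    rw [hVi]
    intro x hx
    rw [Finset.mem_insert] at hx
    rcases hx with hx | hx
    · rw [hx]; exact hX.zero
    · have := hVss hx
      unfold starts at this
      exact (Finset.mem_filter.mp this).1
  have hVsgt : ∀ x ∈ Vs, 0 < x → ρ < x := by
    intro x hx hx0
    have h1 := hVss hx
    unfold starts at h1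
    have h2 := (Finset.mem_filter.mp h1).2 0 hX.zero hx0
    omega
  have hF0 : 0 ∉ Vs → mass S v ρ 0 = 0 := by
    intro h0
    by_contra hcon
    apply h0
    rw [hVs]
    unfold vis
    rw [Finset.mem_filter]
    exact ⟨h0st, hcon⟩
  -- size of `N`
  have hNy : r (y^8) ≤ N := hN
  have hlev := mainStep_level_bound y l (by omega) hly
  have hΛr : ∀ k, Λ + r (k+1) ≤ r (k+2) := by
    intro k
    have h1 : r (k+2) = r (k+1) * B := hrs (k+1)
    have h2 : ρ ≤ r (k+1) := by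
      have := hrmono (Nat.zero_le (k+1))
      rw [hr0] at this
      exact this
    have h3 : r (k+1) * 2 ≤ r (k+1) * B := Nat.mul_le_mul_left _ (by omega)
    rw [h1]
    omega
  have hΛN : Λ ≤ N := by
    have h1 : r 0 ≤ r (y^8) := hrmono (Nat.zero_le _)
    rw [hr0] at h1
    omega
  -- many points
  have hmany : y ≤ #(Vi.filter (fun x => x ≤ r (y+2))) := by
    have h4 : (d+1)^y * W' ≤ r (y+1) := by
      calc (d+1)^y * W' ≤ B^y * (ρ * B) := by gcongr; omega
        _ = r (y+1) := by simp only [hr, pow_succ]; ring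
    have h5 : r (y+1) ≤ N - Λ := by
      have h6 := hΛr y
      have h7 : r (y+2) ≤ r (y^8) := hrmono (by omega)
      omega
    have h8 := many_pointsD Vi d W' (N - Λ) y (by omega) (by omega)
      (fun c hc => by
        obtain ⟨x, hx1, hx2, hx3⟩ := f1P hX hPd t ρ W' hE le_rfl c (by omega)
        exact ⟨x, by rw [hVi, Finset.mem_insert]; exact Or.inr hx1, hx2, hx3⟩) (h4.trans h5)
    refine h8.trans (Finset.card_le_card ?_)
    intro x hx
    rw [Finset.mem_filter] at hx ⊢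
    refine ⟨hx.1, hx.2.trans (h4.trans (hrmono (by omega)))⟩
  -- regularity
  set g : ℕ → ℕ := fun c => #(Vi.filter (fun x => x ≤ r c)) with hg
  have hgmono : Monotone g := by
    intro c c' hcc
    apply Finset.card_le_card
    intro x hx
    rw [Finset.mem_filter] at hx ⊢
    exact ⟨hx.1, hx.2.trans (hrmono hcc)⟩
  have hglt : ∀ c, g c < 2^l := fun c =>
    lt_of_le_of_lt ((Finset.card_filter_le _ _).trans hVit) htl
  set J := y^4 + 40 with hJ
  have hg1 : 1 ≤ g (y+2) := le_trans (by omega) hmany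
  obtain ⟨c, hc1, hc2, hc3⟩ := regular g hgmono y l (J+1) (y+2) hg1 (by omega) hglt
  have hctop : c + J + 5 ≤ y^8 := by
    have h1 : J + 1 = y^4 + 41 := by omega
    rw [h1] at hc2
    omega
  set V₀ := Vi.filter (fun x => x ≤ r c) with hV₀
  set V := Vi.filter (fun x => x ≤ r (c+J+1)) with hV
  have hVV : y^3 * #V ≤ (y^3+1) * #V₀ := by
    have : c + (J+1) = c + J + 1 := by ring
    rw [this] at hc3
    exact hc3
  have hV₀V : V₀ ⊆ V := by
    intro x hx
    rw [hV₀, Finset.mem_filter] at hx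
    rw [hV, Finset.mem_filter]
    exact ⟨hx.1, hx.2.trans (hrmono (by omega))⟩
  have hVt : #V ≤ t := (Finset.card_filter_le _ _).trans hVit
  have hy3 : 1 ≤ y^3 := Nat.one_le_pow _ _ (by omega)
  have hV2 : #V ≤ 2 * #V₀ := mainStep_aux_two _ _ _ hy3 hVV
  have hyV : y ≤ #V := by
    refine hmany.trans (Finset.card_le_card ?_)
    intro x hx
    rw [Finset.mem_filter] at hx
    rw [hV, Finset.mem_filter]
    exact ⟨hx.1, hx.2.trans (hrmono (by omega))⟩
  -- growth
  have hGr : Gr V r t (m+1) := by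
    refine ⟨hrpos 0, hVt, ?_⟩
    intro k
    rw [hrs k]
    have h1 : 100 * (m+1+1)^2 * (t+1)^(m+1+1) ≤ B := by
      have h2 : (t+1)^(m+1+1) ≤ (t+1)^(m+10+d) := Nat.pow_le_pow_right (by omega) (by omega)
      calc 100 * (m+1+1)^2 * (t+1)^(m+1+1) = 100 * 1 * (m+2)^2 * (t+1)^(m+1+1) := by ring
        _ ≤ 100 * d * (m+2)^2 * (t+1)^(m+10+d) := by gcongr; omega
        _ ≤ B := hB
    calc 100 * (m+1+1)^2 * (t+1)^(m+1+1) * r k ≤ B * r k := Nat.mul_le_mul_right _ h1
      _ = r k * B := by ring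
  -- bounds at the top
  have hrN : r (c+J+1) + Λ ≤ N := by
    have h1 := hΛr (c+J)
    have h2 : r (c+J+2) ≤ r (y^8) := hrmono (by omega)
    omega
  have hkey : ∀ j, j ≤ J → ∀ u ∈ V₀, B^j * (u + (t+1)*ρ) ≤ r (c+J+1) := by
    intro j hj u hu
    rw [hV₀, Finset.mem_filter] at hu
    have h1 : (t+1) * ρ ≤ r c := by
      have h2 : r 1 ≤ r c := hrmono (by omega)
      rw [hr1] at h2
      have h3 : (t+1)*ρ ≤ ρ * B := by
        rw [mul_comm]
        exact Nat.mul_le_mul_left _ (by omega)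
      omega
    calc B^j * (u + (t+1)*ρ) ≤ B^J * (r c + r c) :=
          Nat.mul_le_mul (Nat.pow_le_pow_right (by omega) hj) (Nat.add_le_add hu.2 h1)
      _ = 2 * r (c+J) := by simp only [hr, pow_add]; ring
      _ ≤ B * r (c+J) := Nat.mul_le_mul_right _ (by omega)
      _ = r (c+J+1) := by rw [hrs (c+J)]; ring
  -- the maps
  have hth : ∀ j, 1 ≤ j → j ≤ J → ∃ θ : ℕ → ℕ, ∀ x ∈ V₀,
      θ x ∈ V ∧ |(θ x : ℤ) - (B^j * x : ℕ)| ≤ (ρ * B^(j+1) : ℕ) ∧
      ∀ x' ∈ V₀, x < x' → 3 * θ x + ρ * B^j ≤ 3 * θ x' := by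
    intro j hj1 hjJ
    have hpB : q^(b*j) = B^j := by rw [pow_mul]
    have hqb : 12*(t+1)^2 ≤ q^(b*j) := by
      rw [hpB]
      exact hBt2.trans (Nat.le_self_pow (by omega) B)
    obtain ⟨θ, hθ⟩ := theta_stepP hX hq hi₀ hPq hq3 t ρ (b*j) hE hρ hqb
    rw [hpB, ← hVs] at hθ
    classical
    refine ⟨fun x => if x ∈ Vs then θ x else 0, fun x hx => ?_⟩
    have hx' := hx
    rw [hV₀, Finset.mem_filter, hVi, Finset.mem_insert] at hx'
    by_cases hxs : x ∈ Vs
    · have hxk := hkey j hjJ x hx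
      obtain ⟨h1, h2, h3, h4⟩ := hθ x hxs (by omega)
      simp only [if_pos hxs]
      refine ⟨?_, ?_, ?_⟩
      · rw [hV, Finset.mem_filter, hVi, Finset.mem_insert]
        exact ⟨Or.inr h1, h3.trans hxk⟩
      · have h5 : B^j * (x + (t+1)*ρ) ≤ B^j * x + ρ * B^(j+1) := by
          have : B^j * ((t+1)*ρ) ≤ ρ * B^(j+1) := by
            calc B^j * ((t+1)*ρ) = (ρ * B^j) * (t+1) := by ring
              _ ≤ (ρ * B^j) * B := Nat.mul_le_mul_left _ (by omega)
              _ = ρ * B^(j+1) := by rw [pow_succ]; ring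
          rw [mul_add]
          omega
        have h6 : B^j * ρ ≤ ρ * B^(j+1) := by
          calc B^j * ρ = (ρ * B^j) * 1 := by ring
            _ ≤ (ρ * B^j) * B := Nat.mul_le_mul_left _ (by omega)
            _ = ρ * B^(j+1) := by rw [pow_succ]; ring
        rw [abs_le]
        constructor
        · have : B^j * x ≤ θ x + ρ * B^(j+1) := by omega
          have h7 : ((B^j * x : ℕ) : ℤ) ≤ (θ x : ℤ) + ((ρ * B^(j+1) : ℕ) : ℤ) := by exact_mod_cast this
          linarith
        · have : θ x ≤ B^j * x + ρ * B^(j+1) := h3.trans h5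
          have h7 : (θ x : ℤ) ≤ ((B^j * x : ℕ) : ℤ) + ((ρ * B^(j+1) : ℕ) : ℤ) := by exact_mod_cast this
          linarith
      · intro x' hx'' hlt
        have hx3 := hx''
        rw [hV₀, Finset.mem_filter, hVi, Finset.mem_insert] at hx3
        have hxs' : x' ∈ Vs := by
          rcases hx3.1 with h | h
          · omega
          · exact h
        have hxk' := hkey j hjJ x' hx''
        have := h4 x' hxs' hlt (by omega)
        simp only [if_pos hxs']
        rw [mul_comm ρ]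
        exact this
    · have hx0 : x = 0 := by
        rcases hx'.1 with h | h
        · exact h
        · exact absurd h hxs
      simp only [if_neg hxs]
      refine ⟨?_, ?_, ?_⟩
      · rw [hV, Finset.mem_filter, hVi, Finset.mem_insert]
        exact ⟨Or.inl rfl, Nat.zero_le _⟩
      · rw [hx0]
        simp
        positivity
      · intro x' hx'' hlt
        have hx3 := hx''
        rw [hV₀, Finset.mem_filter, hVi, Finset.mem_insert] at hx3
        have hxs' : x' ∈ Vs := by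
          rcases hx3.1 with h | h
          · omega
          · exact h
        have hxk' := hkey j hjJ x' hx''
        obtain ⟨_, h2, _, _⟩ := hθ x' hxs' (by omega)
        simp only [if_pos hxs']
        have h5 : ρ < x' := hVsgt x' hxs' (by omega)
        have h6 : B^j * ρ ≤ B^j * x' := Nat.mul_le_mul_left _ (by omega)
        rw [mul_comm ρ]
        omega
  have hth2 : ∃ θ : ℕ → ℕ → ℕ, ∀ j, 1 ≤ j → j ≤ J → ∀ x ∈ V₀,
      θ j x ∈ V ∧ |(θ j x : ℤ) - (B^j * x : ℕ)| ≤ (ρ * B^(j+1) : ℕ) ∧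
      ∀ x' ∈ V₀, x < x' → 3 * θ j x + ρ * B^j ≤ 3 * θ j x' := by
    classical
    refine ⟨fun j => if h : 1 ≤ j ∧ j ≤ J then (hth j h.1 h.2).choose else id, ?_⟩
    intro j h1 h2 x hx
    have h3 : (1 ≤ j ∧ j ≤ J) := ⟨h1, h2⟩
    simp only [dif_pos h3]
    exact (hth j h1 h2).choose_spec x hx
  obtain ⟨θ, hθ⟩ := hth2
  have hl28 : 28 * l ≤ y := mainStep_aux_l y l hly
  have hl2 : l^2 ≤ y := by omega
  obtain ⟨hs1, hs2⟩ := spread V V₀ ρ B t l y J θ hVt htl hl28 (by omega) (by omega) (by omega)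
    (by omega)
    (fun j h1 h2 u hu => ⟨(hθ j h1 h2 u hu).1, (hθ j h1 h2 u hu).2.1⟩)
    (fun j h1 h2 u hu u' hu' hlt => (hθ j h1 h2 u hu).2.2 u' hu' hlt) hVV
  have hW'r : W' ≤ r 1 := by rw [hr1]; exact hW'1
  have h12 : r 1 ≤ r 2 := hrmono (by omega)
  have h1c : r 1 ≤ r (c+1) := hrmono (by omega)
  -- the leading coefficient
  have had : P.coeff d ≠ 0 := by
    rw [← hPd]
    have hP0 : P ≠ 0 := by
      rintro rfl
      rw [Polynomial.natDegree_zero] at hPd
      omega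
    exact Polynomial.leadingCoeff_ne_zero.mpr hP0
  -- apply the core
  refine hcore y (by omega) l t (r (c+1)) V V₀ r (mass S v ρ) P.coeff hGr hty htl hl2 hV₀V hV2 hyV
    hs1 hs2 had ?_ ?_ ?_ ?_ ?_
  · rw [hV, Finset.mem_filter, hVi, Finset.mem_insert]
    exact ⟨Or.inl rfl, Nat.zero_le _⟩
  · have h1 : r 1 ≤ r (c+J+1) := hrmono (by omega)
    obtain ⟨x, hx1, hx2, hx3⟩ := f1P hX hPd t ρ W' hE le_rfl 0 (by omega)
    refine ⟨x, ?_, hx2, ?_⟩
    · rw [hV, Finset.mem_filter, hVi, Finset.mem_insert]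
      exact ⟨Or.inr hx1, by omega⟩
    · have h20 : r 1 ≤ r 20 := hrmono (by omega)
      omega
  · intro w hw hw0
    rw [hV, Finset.mem_filter, hVi, Finset.mem_insert] at hw
    rcases hw.1 with h | h
    · exact absurd h hw0
    · rw [hVs] at h
      unfold vis at h
      exact (Finset.mem_filter.mp h).2
  · intro w hw
    rw [hV₀, Finset.mem_filter] at hw
    have h1 : r 1 ≤ r c := hrmono (by omega)
    calc d * ((m+1) * w + (m+1)^2 * r 1) ≤ d * ((m+1) * r c + (m+1)^2 * r c) := by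
          gcongr
          exact hw.2
      _ = (d * ((m+1) + (m+1)^2)) * r c := by ring
      _ ≤ B * r c := by
          apply Nat.mul_le_mul_right
          refine le_trans ?_ hBm
          have h3 : (m+1) + (m+1)^2 ≤ 100 * (m+2)^2 := by nlinarith
          calc d * ((m+1) + (m+1)^2) ≤ d * (100 * (m+2)^2) := Nat.mul_le_mul_left _ h3
            _ = 100 * d * (m+2)^2 := by ring
      _ = r (c+1) := by rw [hrs c]; ring
  · intro σ hσ2 hσX
    have hsmall : r (c+1) + r (c+1) ≤ r (c+J+1) := by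
      have h1 : r (c+2) ≤ r (c+J+1) := hrmono (by omega)
      have h2 : r (c+2) = r (c+1) * B := hrs (c+1)
      have h3 : r (c+1) * 2 ≤ r (c+1) * B := Nat.mul_le_mul_left _ (by omega)
      omega
    obtain ⟨α, β, h1, h2, h3, h4, h5⟩ := n1P hX hPd t ρ W' hE le_rfl σ (by omega) (by omega)
    refine ⟨α, β, h1, h2, by omega, by omega, ?_⟩
    rw [← h5]
    refine mainStep_wsum P.coeff (mass S v ρ) d V Vs (r (c+J+1)) ?_ hF0 α β (by omega)
    intro x
    rw [hV, Finset.mem_filter, hVi, Finset.mem_insert]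

end Pool.Agent.AlgD
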