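import Pool.Agent.AlgD.Defs

/-! # TWOHOMS. If `σ₁ ≠ σ₂ : K → L`, then for all large primes `p`: a prime `𝔓` of norm `p` of `L` gives
two different primes `𝔭_i = σ_i⁻¹ 𝔓` of norm `p` of `K`. -/

open NumberField

namespace Pool.Agent.AlgD

theorem TwoHoms_norm {K L : Type} [Field K] [NumberField K] [Field L] [NumberField L]
    (φ : 𝓞 K →+* 𝓞 L) (p : ℕ) (hp : p.Prime) (P : Ideal (𝓞 L)) (hP : Ideal.absNorm P = p) :
    Ideal.absNorm (Ideal.comap φ P) = p := by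
  have hPt : P ≠ ⊤ := by
    rintro rfl
    rw [Ideal.absNorm_top] at hP
    exact hp.one_lt.ne hP
  have hct : Ideal.comap φ P ≠ ⊤ := by
    intro h
    apply hPt
    rw [Ideal.eq_top_iff_one] at h ⊢
    rw [Ideal.mem_comap, map_one] at h
    exact h
  have hinj : Function.Injective (Ideal.quotientMap P φ (le_refl (Ideal.comap φ P))) :=
    Ideal.quotientMap_injective
  have hd : Nat.card (𝓞 K ⧸ Ideal.comap φ P) ∣ Nat.card (𝓞 L ⧸ P) :=
    AddSubgroup.card_dvd_of_injective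
      (Ideal.quotientMap P φ (le_refl (Ideal.comap φ P))).toAddMonoidHom hinj
  have e1 : Nat.card (𝓞 K ⧸ Ideal.comap φ P) = Ideal.absNorm (Ideal.comap φ P) := by
    rw [Ideal.absNorm_apply, Submodule.cardQuot_apply]
  have e2 : Nat.card (𝓞 L ⧸ P) = p := by
    rw [← hP, Ideal.absNorm_apply, Submodule.cardQuot_apply]
  rw [e1, e2] at hd
  rcases (Nat.dvd_prime hp).1 hd with h | h
  · exact absurd (Ideal.absNorm_eq_one_iff.1 h) hct
  · exact h

theorem TwoHoms_int {K : Type} [Field K] [NumberField K]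
    (p : ℕ) (hp : p.Prime) (Q : Ideal (𝓞 K)) (hQ : Ideal.absNorm Q = p) (x : 𝓞 K) :
    ∃ a : ℤ, x - (a : 𝓞 K) ∈ Q := by
  have hQt : Q ≠ ⊤ := by
    rintro rfl
    rw [Ideal.absNorm_top] at hQ
    exact hp.one_lt.ne hQ
  have e2 : Nat.card (𝓞 K ⧸ Q) = p := by
    rw [← hQ, Ideal.absNorm_apply, Submodule.cardQuot_apply]
  haveI : Fact p.Prime := ⟨hp⟩
  haveI : Nontrivial (𝓞 K ⧸ Q) := Ideal.Quotient.nontrivial_iff.2 hQt
  let R : AddSubgroup (𝓞 K ⧸ Q) := (Int.castAddHom (𝓞 K ⧸ Q)).range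
  have hR : R = ⊤ := by
    have hc : Nat.card R ∣ p := by
      rw [← e2]
      exact AddSubgroup.card_addSubgroup_dvd_card R
    haveI : Finite (𝓞 K ⧸ Q) := Nat.finite_of_card_ne_zero (by rw [e2]; exact hp.ne_zero)
    rcases (Nat.dvd_prime hp).1 hc with h | h
    · exfalso
      have hb : R = ⊥ := AddSubgroup.card_eq_one.1 h
      have h1 : (1 : 𝓞 K ⧸ Q) ∈ R := ⟨1, by simp⟩
      rw [hb, AddSubgroup.mem_bot] at h1
      exact one_ne_zero h1
    · apply AddSubgroup.eq_top_of_card_eq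
      rw [h, e2]
  have hx : (Ideal.Quotient.mk Q x) ∈ R := by rw [hR]; trivial
  obtain ⟨a, ha⟩ := hx
  refine ⟨a, ?_⟩
  rw [← Ideal.Quotient.eq_zero_iff_mem, map_sub, map_intCast]
  have : (a : 𝓞 K ⧸ Q) = Ideal.Quotient.mk Q x := by
    simpa using ha
  rw [this, sub_self]

theorem two_homs {K L : Type} [Field K] [NumberField K] [Field L] [NumberField L]
    (σ₁ σ₂ : K →+* L) (h : σ₁ ≠ σ₂) :
    ∃ M : ℕ, ∀ p : ℕ, p.Prime → M < p → aF L p ≠ 0 → 2 ≤ aF K p := by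
  classical
  set φ₁ : 𝓞 K →+* 𝓞 L := RingOfIntegers.mapRingHom σ₁ with hφ₁
  set φ₂ : 𝓞 K →+* 𝓞 L := RingOfIntegers.mapRingHom σ₂ with hφ₂
  have hθ : ∃ θ : 𝓞 K, φ₁ θ ≠ φ₂ θ := by
    by_contra hcon
    push Not at hcon
    apply h
    apply IsLocalization.ringHom_ext (nonZeroDivisors (𝓞 K))
    ext θ
    have h1 := congrArg (fun y : 𝓞 L => (y : L)) (hcon θ)
    simpa [hφ₁, hφ₂] using h1
  obtain ⟨θ, hθ⟩ := hθ
  refine ⟨Ideal.absNorm (Ideal.span {φ₁ θ - φ₂ θ}), fun p hp hMp haL => ?_⟩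
  unfold aF at haL
  have hne : Nat.card {I : Ideal (𝓞 L) // Ideal.absNorm I = p} ≠ 0 := by exact_mod_cast haL
  obtain ⟨⟨P, hP⟩⟩ := (Nat.card_ne_zero.1 hne).1
  have n1 := TwoHoms_norm φ₁ p hp P hP
  have n2 := TwoHoms_norm φ₂ p hp P hP
  have hne12 : Ideal.comap φ₁ P ≠ Ideal.comap φ₂ P := by
    intro heq
    obtain ⟨a, ha⟩ := TwoHoms_int p hp _ n1 θ
    have ha2 := ha
    rw [heq] at ha2
    rw [Ideal.mem_comap, map_sub, map_intCast] at ha ha2
    have hd : φ₁ θ - φ₂ θ ∈ P := by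
      have := P.sub_mem ha ha2
      simpa using this
    have hdv : p ∣ Ideal.absNorm (Ideal.span {φ₁ θ - φ₂ θ}) := by
      rw [← hP]
      apply Ideal.absNorm_dvd_absNorm_of_le
      rw [Ideal.span_le, Set.singleton_subset_iff]
      exact hd
    have hnz : Ideal.absNorm (Ideal.span {φ₁ θ - φ₂ θ}) ≠ 0 := by
      rw [Ne, Ideal.absNorm_eq_zero_iff, Ideal.span_singleton_eq_bot, sub_eq_zero]
      exact hθ
    have := Nat.le_of_dvd (Nat.pos_of_ne_zero hnz) hdv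
    omega
  unfold aF
  have hfin : Finite {I : Ideal (𝓞 K) // Ideal.absNorm I = p} :=
    (Ideal.finite_setOfPred_absNorm_eq p).to_subtype
  have h2 : 1 < Nat.card {I : Ideal (𝓞 K) // Ideal.absNorm I = p} := by
    rw [Finite.one_lt_card_iff_nontrivial]
    exact ⟨⟨_, n1⟩, ⟨_, n2⟩, fun he => hne12 (congrArg Subtype.val he)⟩
  exact_mod_cast h2

end Pool.Agent.AlgD
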