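import Pool.Agent.AlgD.Defs

/-! # ZPRIME. The number of prime ideals above `p` is at most `[F : ℚ]`: the product of the distinct primes
`𝔭 ∋ p` divides `(p)` (`Finset.prod_primes_dvd`), take norms: `p^(#) ≤ N(∏) ≤ N((p)) = p^[F:ℚ]`. The ideals
of norm `p` are prime and contain `p` (`Ideal.absNorm_mem`). Also every nonzero prime ideal has norm
`q^f` (`q` prime, `f ≥ 1`) and contains `q`. -/

open Finset NumberField

namespace Pool.Agent.AlgD

theorem Zprime_absNorm_span (F : Type*) [Field F] [NumberField F] (p : ℕ) :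
    Ideal.absNorm (Ideal.span {(p : 𝓞 F)}) = p ^ Module.finrank ℚ F := by
  rw [Ideal.absNorm_span_singleton]
  have h1 : (p : 𝓞 F) = algebraMap ℤ (𝓞 F) (p : ℤ) := by simp
  rw [h1, Algebra.norm_algebraMap, RingOfIntegers.rank]
  simp [Int.natAbs_pow]

theorem card_primes_above (F : Type*) [Field F] [NumberField F] (p : ℕ) (hp : p.Prime)
    (T : Finset (Ideal (𝓞 F))) (hT : ∀ I ∈ T, I.IsPrime ∧ I ≠ ⊥ ∧ (p : 𝓞 F) ∈ I) :
    #T ≤ Module.finrank ℚ F := by
  classical
  have hdvd : ∏ I ∈ T, I ∣ Ideal.span {(p : 𝓞 F)} := by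
    apply Finset.prod_primes_dvd
    · intro I hI
      exact Ideal.prime_of_isPrime (hT I hI).2.1 (hT I hI).1
    · intro I hI
      rw [Ideal.dvd_span_singleton]
      exact (hT I hI).2.2
  have h1 : Ideal.absNorm (∏ I ∈ T, I) ∣ p ^ Module.finrank ℚ F := by
    rw [← Zprime_absNorm_span F p]
    exact Ideal.absNorm_dvd_absNorm_of_le (Ideal.le_of_dvd hdvd)
  have h2 : ∀ I ∈ T, p ≤ Ideal.absNorm I := by
    intro I hI
    have h3 : Ideal.absNorm I ∣ p ^ Module.finrank ℚ F := by
      rw [← Zprime_absNorm_span F p]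
      apply Ideal.absNorm_dvd_absNorm_of_le
      rw [Ideal.span_le, Set.singleton_subset_iff]
      exact (hT I hI).2.2
    obtain ⟨k, _, hk⟩ := (Nat.dvd_prime_pow hp).1 h3
    rcases Nat.eq_zero_or_pos k with h0 | h0
    · exfalso
      rw [h0, pow_zero] at hk
      exact (hT I hI).1.ne_top (Ideal.absNorm_eq_one_iff.1 hk)
    · rw [hk]
      exact Nat.le_self_pow h0.ne' p
  have h4 : p ^ #T ≤ p ^ Module.finrank ℚ F := by
    calc p ^ #T ≤ ∏ I ∈ T, Ideal.absNorm I := Finset.pow_card_le_prod _ _ _ h2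
      _ = Ideal.absNorm (∏ I ∈ T, I) := by rw [map_prod]
      _ ≤ _ := Nat.le_of_dvd (pow_pos hp.pos _) h1
  exact (Nat.pow_le_pow_iff_right hp.one_lt).1 h4

theorem aF_le (F : Type*) [Field F] [NumberField F] (p : ℕ) (hp : p.Prime) :
    aF F p ≤ Module.finrank ℚ F := by
  classical
  unfold aF
  have hfin : {I : Ideal (𝓞 F) | Ideal.absNorm I = p}.Finite :=
    Ideal.finite_setOfPred_absNorm_eq p
  have h1 : Nat.card {I : Ideal (𝓞 F) // Ideal.absNorm I = p} = hfin.toFinset.card := by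
    change Nat.card ↥{I : Ideal (𝓞 F) | Ideal.absNorm I = p} = _
    rw [Nat.card_coe_set_eq, Set.ncard_eq_toFinset_card _ hfin]
  rw [h1]
  have h2 := card_primes_above F p hp hfin.toFinset ?_
  · exact_mod_cast h2
  · intro I hI
    rw [Set.Finite.mem_toFinset] at hI
    have hI' : Ideal.absNorm I = p := hI
    refine ⟨Ideal.isPrime_of_irreducible_absNorm ?_, ?_, ?_⟩
    · rw [hI']
      exact hp
    · rintro rfl
      rw [Ideal.absNorm_bot] at hI'
      exact hp.ne_zero hI'.symm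
    · have := Ideal.absNorm_mem I
      rwa [hI'] at this

end Pool.Agent.AlgD
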