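import Pool.Agent.AlgD.Zlim
import Pool.Agent.AlgD.Zprime

/-! # ZLOWER. `log (zt F s) ≤ Σ_p aF p * p^(-s) + C`, `1 < s ≤ 2`.
* For `X`: `Σ_{n ≤ X} aF n * n^(-s) ≤ ∏_{N𝔓 ≤ X} (1 - N𝔓^(-s))⁻¹` (sum over the ideals with norm `1 ≤ N ≤ X`,
  which factor uniquely in the primes of norm `≤ X`; induction on the set of primes).
* `(1-x)⁻¹ ≤ exp (x + 2 x^2)` for `0 ≤ x ≤ 1/2`.
* `Σ_𝔓 N𝔓^(-2s) ≤ zt F 2`; the primes `𝔓` with `N𝔓 = p^f`, `f ≥ 2`: at most `[F:ℚ]` above each `p`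
  (`card_primes_above`), `Σ ≤ [F:ℚ] Σ_p p^(-2)`.
* let `X → ∞`. -/

open Finset NumberField

namespace Pool.Agent.AlgD

theorem prime_summable (F : Type*) [Field F] [NumberField F] {s : ℝ} (hs : 1 < s) :
    Summable (fun p : Nat.Primes => aF F p * (p : ℝ) ^ (-s)) :=
  (zeta_summable F hs).comp_injective Nat.Primes.coe_nat_injective

section zl

variable {F : Type*} [Field F] [NumberField F]

theorem zl_norm_pos {I : Ideal (𝓞 F)} (hI : I ≠ ⊥) : 1 ≤ Ideal.absNorm I := by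
  rw [Nat.one_le_iff_ne_zero, Ne, Ideal.absNorm_eq_zero_iff]
  exact hI

theorem zl_norm_two {P : Ideal (𝓞 F)} (hP : P.IsPrime) (h0 : P ≠ ⊥) : 2 ≤ Ideal.absNorm P := by
  have h1 := zl_norm_pos h0
  have h2 : Ideal.absNorm P ≠ 1 := by
    rw [Ne, Ideal.absNorm_eq_one_iff]
    exact hP.ne_top
  omega

theorem zl_geom (x : ℝ) (h0 : 0 ≤ x) (h1 : x < 1) (E : ℕ) :
    ∑ e ∈ range E, x ^ e ≤ (1 - x)⁻¹ := by
  rw [← tsum_geometric_of_lt_one h0 h1]
  exact (summable_geometric_of_lt_one h0 h1).sum_le_tsum _ (fun i _ => pow_nonneg h0 i)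

theorem zl_x_lt {s : ℝ} (hs : 0 < s) {P : Ideal (𝓞 F)} (hP : P.IsPrime) (h0 : P ≠ ⊥) :
    (Ideal.absNorm P : ℝ) ^ (-s) < 1 := by
  apply Real.rpow_lt_one_of_one_lt_of_neg
  · have := zl_norm_two hP h0
    exact_mod_cast (by omega : 1 < Ideal.absNorm P)
  · linarith

/-- Euler product, upper bound -/
theorem zl_euler {s : ℝ} (hs : 0 < s) (S : Finset (Ideal (𝓞 F)))
    (hS : ∀ P ∈ S, P.IsPrime ∧ P ≠ ⊥) :
    ∀ U : Finset (Ideal (𝓞 F)),
      (∀ I ∈ U, I ≠ ⊥ ∧ ∀ P : Ideal (𝓞 F), P.IsPrime → P ≠ ⊥ → P ∣ I → P ∈ S) →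
      ∑ I ∈ U, (Ideal.absNorm I : ℝ) ^ (-s) ≤ ∏ P ∈ S, (1 - (Ideal.absNorm P : ℝ) ^ (-s))⁻¹ := by
  classical
  induction S using Finset.induction_on with
  | empty =>
    intro U hU
    have h1 : U ⊆ {⊤} := by
      intro I hI
      rw [Finset.mem_singleton]
      by_contra hne
      obtain ⟨M, hM, hIM⟩ := Ideal.exists_le_maximal I hne
      have h2 := (hU I hI).2 M hM.isPrime
        (by rintro rfl; exact (hU I hI).1 (le_bot_iff.1 hIM)) (Ideal.dvd_iff_le.2 hIM)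
      simp at h2
    refine (Finset.sum_le_sum_of_subset_of_nonneg h1 (fun _ _ _ => by positivity)).trans ?_
    rw [Finset.sum_singleton, Ideal.absNorm_top]
    simp
  | insert P S hP ih =>
    intro U hU
    obtain ⟨hPp, hP0⟩ := hS P (mem_insert_self _ _)
    have ih' := ih (fun Q hQ => hS Q (mem_insert_of_mem hQ))
    have hdec : ∀ I : Ideal (𝓞 F), ∃ (e : ℕ) (J : Ideal (𝓞 F)), I ≠ ⊥ → I = P ^ e * J ∧ ¬ P ∣ J := by
      intro I
      by_cases hI : I = ⊥
      · exact ⟨0, ⊥, fun h => absurd hI h⟩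
      · have hfm : FiniteMultiplicity P I := by
          apply FiniteMultiplicity.of_not_isUnit
          · rw [Ideal.isUnit_iff]
            exact hPp.ne_top
          · exact hI
        obtain ⟨J, h1, h2⟩ := hfm.exists_eq_pow_mul_and_not_dvd
        exact ⟨_, J, fun _ => ⟨h1, h2⟩⟩
    choose e J hJ using hdec
    set x : ℝ := (Ideal.absNorm P : ℝ) ^ (-s) with hx
    have hx0 : 0 ≤ x := by positivity
    have hx1 : x < 1 := zl_x_lt hs hPp hP0
    let g : ℕ × Ideal (𝓞 F) → ℝ := fun y => x ^ y.1 * (Ideal.absNorm y.2 : ℝ) ^ (-s)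
    have hg0 : ∀ y, 0 ≤ g y := fun y => by positivity
    have h1 : ∑ I ∈ U, (Ideal.absNorm I : ℝ) ^ (-s) = ∑ I ∈ U, g (e I, J I) := by
      refine Finset.sum_congr rfl (fun I hI => ?_)
      have h2 := (hJ I (hU I hI).1).1
      simp only [g, hx]
      conv_lhs => rw [h2]
      rw [map_mul, map_pow, Nat.cast_mul, Nat.cast_pow, Real.mul_rpow (by positivity) (by positivity),
        ← Real.rpow_natCast, ← Real.rpow_natCast, ← Real.rpow_mul (by positivity),
        ← Real.rpow_mul (by positivity), mul_comm (-s)]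
    have hinj : Set.InjOn (fun I => (e I, J I)) (U : Set (Ideal (𝓞 F))) := by
      intro I hI I' hI' h
      have e1 := (hJ I (hU I (mem_coe.1 hI)).1).1
      have e2 := (hJ I' (hU I' (mem_coe.1 hI')).1).1
      have e3 : e I = e I' := congrArg Prod.fst h
      have e4 : J I = J I' := congrArg Prod.snd h
      rw [e1, e2, e3, e4]
    have h2 : ∑ I ∈ U, g (e I, J I) = ∑ y ∈ U.image (fun I => (e I, J I)), g y :=
      (Finset.sum_image hinj).symm
    have h3 : U.image (fun I => (e I, J I)) ⊆ range (U.sup e + 1) ×ˢ U.image J := by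
      intro y hy
      obtain ⟨I, hI, rfl⟩ := Finset.mem_image.1 hy
      rw [Finset.mem_product]
      refine ⟨?_, Finset.mem_image_of_mem _ hI⟩
      rw [Finset.mem_range]
      exact Nat.lt_succ_of_le (Finset.le_sup hI)
    have h4 : ∑ y ∈ range (U.sup e + 1) ×ˢ U.image J, g y =
        (∑ i ∈ range (U.sup e + 1), x ^ i) * ∑ K ∈ U.image J, (Ideal.absNorm K : ℝ) ^ (-s) := by
      rw [Finset.sum_product, Finset.sum_mul_sum]
    have h5 : ∑ K ∈ U.image J, (Ideal.absNorm K : ℝ) ^ (-s) ≤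
        ∏ P ∈ S, (1 - (Ideal.absNorm P : ℝ) ^ (-s))⁻¹ := by
      apply ih'
      intro K hK
      obtain ⟨I, hI, rfl⟩ := Finset.mem_image.1 hK
      obtain ⟨e1, e2⟩ := hJ I (hU I hI).1
      refine ⟨?_, ?_⟩
      · intro h0
        apply (hU I hI).1
        rw [e1, h0, Ideal.mul_bot]
      · intro P' hP' hP0' hd
        have h6 := (hU I hI).2 P' hP' hP0' (by rw [e1]; exact Dvd.dvd.mul_left hd _)
        rcases Finset.mem_insert.1 h6 with h7 | h7
        · exact absurd (h7 ▸ hd) e2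
        · exact h7
    rw [h1, h2, Finset.prod_insert hP]
    refine (Finset.sum_le_sum_of_subset_of_nonneg h3 (fun y _ _ => hg0 y)).trans ?_
    rw [h4]
    exact mul_le_mul (zl_geom x hx0 hx1 _) h5 (Finset.sum_nonneg (fun _ _ => by positivity))
      (inv_nonneg.2 (by linarith))

theorem zl_inv_le (x : ℝ) (h0 : 0 ≤ x) (h1 : x ≤ 1 / 2) : (1 - x)⁻¹ ≤ Real.exp (x + 2 * x ^ 2) := by
  have h2 : 0 < 1 - x := by linarith
  have h3 := Real.add_one_le_exp (x / (1 - x))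
  have h4 : x / (1 - x) + 1 = (1 - x)⁻¹ := by
    field_simp
    ring
  rw [h4] at h3
  refine h3.trans (Real.exp_le_exp.2 ?_)
  rw [div_le_iff₀ h2]
  nlinarith [mul_nonneg h0 h0, mul_nonneg (mul_nonneg h0 h0) (by linarith : 0 ≤ 1 - 2 * x)]

variable (F) in
/-- the nonzero ideals of norm at most `X` -/
noncomputable def zlU (X : ℕ) : Finset (Ideal (𝓞 F)) :=
  by classical exact (Ideal.finite_setOfPred_absNorm_le (S := 𝓞 F) X).toFinset.filter (fun I => I ≠ ⊥)

theorem zl_mem_U {X : ℕ} {I : Ideal (𝓞 F)} : I ∈ zlU F X ↔ Ideal.absNorm I ≤ X ∧ I ≠ ⊥ := by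
  classical
  unfold zlU
  rw [Finset.mem_filter, Set.Finite.mem_toFinset]
  rfl

theorem zl_sum_U (s : ℝ) (hs : s ≠ 0) (X : ℕ) :
    ∑ n ∈ range (X + 1), aF F n * (n : ℝ) ^ (-s) = ∑ I ∈ zlU F X, (Ideal.absNorm I : ℝ) ^ (-s) := by
  classical
  have hmaps : ∀ I ∈ zlU F X, Ideal.absNorm I ∈ range (X + 1) := by
    intro I hI
    rw [Finset.mem_range]
    exact Nat.lt_succ_of_le (zl_mem_U.1 hI).1
  rw [← Finset.sum_fiberwise_of_maps_to hmaps]
  refine Finset.sum_congr rfl (fun n hn => ?_)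
  have h1 : ∑ I ∈ zlU F X with Ideal.absNorm I = n, (Ideal.absNorm I : ℝ) ^ (-s) =
      ∑ I ∈ zlU F X with Ideal.absNorm I = n, (n : ℝ) ^ (-s) := by
    refine Finset.sum_congr rfl fun I hI => ?_
    rw [(Finset.mem_filter.1 hI).2]
  rw [h1, Finset.sum_const, nsmul_eq_mul]
  by_cases h0 : n = 0
  · subst h0
    rw [Nat.cast_zero, Real.zero_rpow (by simpa using hs), mul_zero, mul_zero]
  · congr 1
    unfold aF
    have h2 : (zlU F X).filter (fun I => Ideal.absNorm I = n) =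
        (Ideal.finite_setOfPred_absNorm_eq (S := 𝓞 F) n).toFinset := by
      ext I
      rw [Finset.mem_filter, zl_mem_U, Set.Finite.mem_toFinset]
      constructor
      · rintro ⟨_, h⟩
        exact h
      · intro h
        have h' : Ideal.absNorm I = n := h
        refine ⟨⟨?_, ?_⟩, h'⟩
        · have := Finset.mem_range.1 hn
          omega
        · intro hb
          apply h0
          rw [← h', hb, Ideal.absNorm_bot]
    rw [h2, ← Nat.card_eq_card_finite_toFinset]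
    rfl

variable (F) in
/-- the nonzero prime ideals of norm at most `X` -/
noncomputable def zlS (X : ℕ) : Finset (Ideal (𝓞 F)) :=
  by classical exact (zlU F X).filter (fun I => I.IsPrime)

theorem zl_mem_S {X : ℕ} {I : Ideal (𝓞 F)} :
    I ∈ zlS F X ↔ (Ideal.absNorm I ≤ X ∧ I ≠ ⊥) ∧ I.IsPrime := by
  classical
  unfold zlS
  rw [Finset.mem_filter, zl_mem_U]

theorem zl_partial {s : ℝ} (hs : 1 < s) (X : ℕ) :
    ∑ n ∈ range (X + 1), aF F n * (n : ℝ) ^ (-s) ≤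
      Real.exp (∑ P ∈ zlS F X, ((Ideal.absNorm P : ℝ) ^ (-s) +
        2 * ((Ideal.absNorm P : ℝ) ^ (-s)) ^ 2)) := by
  rw [zl_sum_U s (by linarith) X]
  have h1 := zl_euler (F := F) (s := s) (by linarith) (zlS F X)
    (fun P hP => ⟨(zl_mem_S.1 hP).2, (zl_mem_S.1 hP).1.2⟩) (zlU F X) (by
      intro I hI
      obtain ⟨h2, h3⟩ := zl_mem_U.1 hI
      refine ⟨h3, fun P hP hP0 hd => ?_⟩
      rw [zl_mem_S]
      refine ⟨⟨?_, hP0⟩, hP⟩
      have h4 : Ideal.absNorm P ∣ Ideal.absNorm I :=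
        Ideal.absNorm_dvd_absNorm_of_le (Ideal.dvd_iff_le.1 hd)
      exact (Nat.le_of_dvd (zl_norm_pos h3) h4).trans h2)
  refine h1.trans ?_
  rw [Real.exp_sum]
  refine Finset.prod_le_prod ?_ ?_
  · intro P hP
    have := zl_x_lt (F := F) (s := s) (by linarith) (zl_mem_S.1 hP).2 (zl_mem_S.1 hP).1.2
    exact inv_nonneg.2 (by linarith)
  · intro P hP
    apply zl_inv_le _ (by positivity)
    have h2 := zl_norm_two (zl_mem_S.1 hP).2 (zl_mem_S.1 hP).1.2
    have h3 : (Ideal.absNorm P : ℝ) ^ (-s) ≤ (Ideal.absNorm P : ℝ) ^ (-1 : ℝ) :=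
      Real.rpow_le_rpow_of_exponent_le (by exact_mod_cast (by omega : 1 ≤ Ideal.absNorm P))
        (by linarith)
    refine h3.trans ?_
    rw [Real.rpow_neg_one, one_div]
    exact inv_anti₀ (by norm_num) (by exact_mod_cast h2)

/-- the squares -/
theorem zl_sq {s : ℝ} (hs : 1 < s) (X : ℕ) :
    ∑ P ∈ zlS F X, ((Ideal.absNorm P : ℝ) ^ (-s)) ^ 2 ≤ zt F 2 := by
  classical
  have h1 : ∑ P ∈ zlS F X, ((Ideal.absNorm P : ℝ) ^ (-s)) ^ 2 ≤
      ∑ P ∈ zlS F X, (Ideal.absNorm P : ℝ) ^ (-2 : ℝ) := by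
    refine Finset.sum_le_sum (fun P hP => ?_)
    have h2 := zl_norm_two (zl_mem_S.1 hP).2 (zl_mem_S.1 hP).1.2
    rw [← Real.rpow_natCast, ← Real.rpow_mul (by positivity)]
    apply Real.rpow_le_rpow_of_exponent_le (by exact_mod_cast (by omega : 1 ≤ Ideal.absNorm P))
    push_cast
    linarith
  refine h1.trans ?_
  have h2 : zlS F X ⊆ zlU F X := Finset.filter_subset _ _
  refine (Finset.sum_le_sum_of_subset_of_nonneg h2 (fun _ _ _ => by positivity)).trans ?_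
  rw [← zl_sum_U (2 : ℝ) (by norm_num) X]
  refine (zeta_summable F (by norm_num : (1 : ℝ) < 2)).sum_le_tsum _ (fun n _ => ?_)
  unfold aF
  positivity

/-- primes of prime norm -/
theorem zl_prime {s : ℝ} (hs : 1 < s) (T : Finset (Ideal (𝓞 F)))
    (hT : ∀ P ∈ T, (Ideal.absNorm P).Prime) :
    ∑ P ∈ T, (Ideal.absNorm P : ℝ) ^ (-s) ≤ ∑' p : Nat.Primes, aF F p * (p : ℝ) ^ (-s) := by
  classical
  have hmaps : ∀ P ∈ T, Ideal.absNorm P ∈ T.image Ideal.absNorm :=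
    fun P hP => Finset.mem_image_of_mem _ hP
  rw [← Finset.sum_fiberwise_of_maps_to hmaps]
  have h1 : ∀ n ∈ T.image Ideal.absNorm,
      ∑ P ∈ T with Ideal.absNorm P = n, (Ideal.absNorm P : ℝ) ^ (-s) ≤ aF F n * (n : ℝ) ^ (-s) := by
    intro n _
    have h1 : ∑ P ∈ T with Ideal.absNorm P = n, (Ideal.absNorm P : ℝ) ^ (-s) =
        ∑ P ∈ T with Ideal.absNorm P = n, (n : ℝ) ^ (-s) := by
      refine Finset.sum_congr rfl fun P hP => ?_
      rw [(Finset.mem_filter.1 hP).2]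
    rw [h1, Finset.sum_const, nsmul_eq_mul]
    refine mul_le_mul_of_nonneg_right ?_ (by positivity)
    have hfin : Finite {I : Ideal (𝓞 F) // Ideal.absNorm I = n} :=
      Ideal.finite_setOfPred_absNorm_eq n
    have h2 : Nat.card {P // P ∈ T.filter (fun P => Ideal.absNorm P = n)} ≤
        Nat.card {I : Ideal (𝓞 F) // Ideal.absNorm I = n} := by
      refine Nat.card_le_card_of_injective (fun P => ⟨P.1, (Finset.mem_filter.1 P.2).2⟩) ?_
      intro a b hab
      have := congrArg Subtype.val hab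
      exact Subtype.ext this
    rw [Nat.card_eq_fintype_card, Fintype.card_coe] at h2
    unfold aF
    exact_mod_cast h2
  refine (Finset.sum_le_sum h1).trans ?_
  have hpr : ∀ n ∈ T.image Ideal.absNorm, n.Prime := by
    intro n hn
    obtain ⟨P, hP, rfl⟩ := Finset.mem_image.1 hn
    exact hT P hP
  let S' : Finset Nat.Primes := (T.image Ideal.absNorm).subtype Nat.Prime
  have h2 : ∑ n ∈ T.image Ideal.absNorm, aF F n * (n : ℝ) ^ (-s) =
      ∑ p ∈ S', aF F p * (p : ℝ) ^ (-s) :=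
    (Finset.sum_subtype_of_mem (fun n : ℕ => aF F n * (n : ℝ) ^ (-s)) hpr).symm
  rw [h2]
  have h3 := prime_summable F hs
  refine Summable.sum_le_tsum S' (fun n _ => ?_) h3
  unfold aF
  positivity

/-- primes of other norms -/
theorem zl_nonprime {s : ℝ} (hs : 1 < s) (T : Finset (Ideal (𝓞 F)))
    (hT : ∀ P ∈ T, P.IsPrime ∧ P ≠ ⊥ ∧ ¬ (Ideal.absNorm P).Prime) :
    ∑ P ∈ T, (Ideal.absNorm P : ℝ) ^ (-s) ≤
      Module.finrank ℚ F * ∑' n : ℕ, (n : ℝ) ^ (-2 : ℝ) := by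
  classical
  have hq : ∀ P : Ideal (𝓞 F), ∃ q : ℕ, P ∈ T → q.Prime ∧ (q : 𝓞 F) ∈ P ∧
      (Ideal.absNorm P : ℝ) ^ (-s) ≤ (q : ℝ) ^ (-2 : ℝ) := by
    intro P
    by_cases hP : P ∈ T
    · obtain ⟨h1, h2, h3⟩ := hT P hP
      have hmax : P.IsMaximal := h1.isMaximal h2
      obtain ⟨p, n, hn, hpP, hp, hN⟩ := Ideal.exists_prime_and_absNorm_eq_pow P
      refine ⟨p, fun _ => ⟨hp, hpP, ?_⟩⟩
      have hn2 : 2 ≤ n := by
        by_contra hlt
        have : n = 1 := by omega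
        rw [this, pow_one] at hN
        exact h3 (hN ▸ hp)
      have hp1 : (1 : ℝ) ≤ p := by exact_mod_cast hp.one_lt.le
      rw [hN]
      push_cast
      rw [← Real.rpow_natCast, ← Real.rpow_mul (by positivity)]
      apply Real.rpow_le_rpow_of_exponent_le hp1
      have : (2 : ℝ) ≤ n := by exact_mod_cast hn2
      nlinarith
    · exact ⟨0, fun h => absurd h hP⟩
  choose q hq using hq
  have h1 : ∑ P ∈ T, (Ideal.absNorm P : ℝ) ^ (-s) ≤ ∑ P ∈ T, (q P : ℝ) ^ (-2 : ℝ) :=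
    Finset.sum_le_sum (fun P hP => (hq P hP).2.2)
  refine h1.trans ?_
  have hmaps : ∀ P ∈ T, q P ∈ T.image q := fun P hP => Finset.mem_image_of_mem _ hP
  rw [← Finset.sum_fiberwise_of_maps_to hmaps]
  have h2 : ∀ n ∈ T.image q, ∑ P ∈ T with q P = n, (q P : ℝ) ^ (-2 : ℝ) ≤
      Module.finrank ℚ F * (n : ℝ) ^ (-2 : ℝ) := by
    intro n hn
    have h3 : ∑ P ∈ T with q P = n, (q P : ℝ) ^ (-2 : ℝ) =
        ∑ P ∈ T with q P = n, (n : ℝ) ^ (-2 : ℝ) := by
      refine Finset.sum_congr rfl fun P hP => ?_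
      rw [(Finset.mem_filter.1 hP).2]
    rw [h3, Finset.sum_const, nsmul_eq_mul]
    refine mul_le_mul_of_nonneg_right ?_ (by positivity)
    obtain ⟨P, hP, rfl⟩ := Finset.mem_image.1 hn
    have h4 := card_primes_above F (q P) (hq P hP).1 (T.filter (fun P' => q P' = q P)) (by
      intro I hI
      obtain ⟨h5, h6⟩ := Finset.mem_filter.1 hI
      refine ⟨(hT I h5).1, (hT I h5).2.1, ?_⟩
      rw [← h6]
      exact (hq I h5).2.1)
    exact_mod_cast h4
  refine (Finset.sum_le_sum h2).trans ?_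
  rw [← Finset.mul_sum]
  refine mul_le_mul_of_nonneg_left ?_ (by positivity)
  refine Summable.sum_le_tsum _ (fun n _ => by positivity) ?_
  exact Real.summable_nat_rpow.2 (by norm_num)

theorem zl_zt_pos {s : ℝ} (hs : 1 < s) : 0 < zt F s := by
  have h1 : 0 < aF F 1 * ((1 : ℕ) : ℝ) ^ (-s) := by
    unfold aF
    have hfin : Finite {I : Ideal (𝓞 F) // Ideal.absNorm I = 1} :=
      Ideal.finite_setOfPred_absNorm_eq 1
    have hne : Nonempty {I : Ideal (𝓞 F) // Ideal.absNorm I = 1} := ⟨⟨⊤, Ideal.absNorm_top⟩⟩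
    have : 0 < Nat.card {I : Ideal (𝓞 F) // Ideal.absNorm I = 1} := Nat.card_pos
    rw [Nat.cast_one, Real.one_rpow, mul_one]
    exact_mod_cast this
  refine h1.trans_le ?_
  refine (zeta_summable F hs).le_tsum 1 (fun n _ => ?_)
  unfold aF
  positivity

end zl

theorem zeta_lower (F : Type*) [Field F] [NumberField F] :
    ∃ C : ℝ, ∀ s : ℝ, 1 < s → s ≤ 2 →
      Real.log (zt F s) ≤ ∑' p : Nat.Primes, aF F p * (p : ℝ) ^ (-s) + C := by
  classical
  refine ⟨Module.finrank ℚ F * ∑' n : ℕ, (n : ℝ) ^ (-2 : ℝ) + 2 * zt F 2, ?_⟩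
  intro s hs _
  rw [Real.log_le_iff_le_exp (zl_zt_pos hs)]
  refine Real.tsum_le_of_sum_range_le (fun n => ?_) (fun X => ?_)
  · unfold aF
    positivity
  · have h0 : ∑ n ∈ range X, aF F n * (n : ℝ) ^ (-s) ≤ ∑ n ∈ range (X + 1), aF F n * (n : ℝ) ^ (-s) := by
      refine Finset.sum_le_sum_of_subset_of_nonneg (Finset.range_mono (by omega)) (fun n _ _ => ?_)
      unfold aF
      positivity
    refine h0.trans ((zl_partial hs X).trans (Real.exp_le_exp.2 ?_))
    rw [Finset.sum_add_distrib, ← Finset.mul_sum]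
    have h1 := zl_sq (F := F) hs X
    have h2 : ∑ P ∈ zlS F X, (Ideal.absNorm P : ℝ) ^ (-s) =
        ∑ P ∈ zlS F X with (Ideal.absNorm P).Prime, (Ideal.absNorm P : ℝ) ^ (-s) +
        ∑ P ∈ zlS F X with ¬ (Ideal.absNorm P).Prime, (Ideal.absNorm P : ℝ) ^ (-s) :=
      (Finset.sum_filter_add_sum_filter_not _ _ _).symm
    have h3 := zl_prime (F := F) hs ((zlS F X).filter (fun P => (Ideal.absNorm P).Prime))
      (fun P hP => (Finset.mem_filter.1 hP).2)
    have h4 := zl_nonprime (F := F) hs ((zlS F X).filter (fun P => ¬ (Ideal.absNorm P).Prime))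
      (fun P hP => ⟨(zl_mem_S.1 (Finset.mem_filter.1 hP).1).2,
        (zl_mem_S.1 (Finset.mem_filter.1 hP).1).1.2, (Finset.mem_filter.1 hP).2⟩)
    rw [h2]
    linarith

end Pool.Agent.AlgD
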