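import Pool.Agent.AlgD.Zupper
import Pool.Agent.AlgD.Zlower
import Pool.Agent.AlgD.TwoHoms

/-! # NOROOTFIELD. For a number field `K` with two different homomorphisms to a number field `L` there are
arbitrarily large primes `p` without prime ideal of norm `p` in `K`.
Suppose `1 ≤ aF K p` for all primes `p > M`. With `M' ` of `two_homs`, for every finite set `T` of primes
`> max M M'`: `Σ_{p ∈ T} aF K p p^(-s) ≥ Σ_{p ∈ T} p^(-s) + Σ_{p ∈ T, aF L p ≠ 0} p^(-s)
≥ Σ_{p ∈ T} aF ℚ p p^(-s) + (1/[L:ℚ]) Σ_{p ∈ T} aF L p p^(-s)` (`aF_le` for `ℚ` and `L`). By `zeta_upper`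
(`K`), `zeta_lower` (`ℚ`, `L`) and `zeta_bounds`: `(1 + 1/[L:ℚ]) log (1/(s-1)) ≤ log (1/(s-1)) + C`,
contradiction for `s → 1+`. -/

open NumberField

namespace Pool.Agent.AlgD

theorem NoRootField_aF_nonneg (F : Type*) [Field F] [NumberField F] (n : ℕ) : 0 ≤ aF F n := by
  unfold aF
  positivity

theorem NoRootField_one_le (F : Type*) [Field F] [NumberField F] (n : ℕ) (h : aF F n ≠ 0) :
    1 ≤ aF F n := by
  unfold aF at h ⊢
  have h1 : Nat.card {I : Ideal (𝓞 F) // Ideal.absNorm I = n} ≠ 0 := by exact_mod_cast h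
  exact_mod_cast Nat.one_le_iff_ne_zero.2 h1

theorem no_root_field {K L : Type} [Field K] [NumberField K] [Field L] [NumberField L]
    (σ₁ σ₂ : K →+* L) (h : σ₁ ≠ σ₂) (M : ℕ) : ∃ p : ℕ, p.Prime ∧ M < p ∧ aF K p = 0 := by
  classical
  by_contra hcon
  push Not at hcon
  obtain ⟨M', hM'⟩ := two_homs σ₁ σ₂ h
  obtain ⟨C1, hC1⟩ := zeta_upper K
  obtain ⟨C2, hC2⟩ := zeta_lower ℚ
  obtain ⟨C3, hC3⟩ := zeta_lower L
  obtain ⟨cK, sK, hsK1, hsK2, hK⟩ := zeta_bounds K
  obtain ⟨cQ, sQ, hsQ1, hsQ2, hQ⟩ := zeta_bounds ℚ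
  obtain ⟨cL, sL, hsL1, hsL2, hL⟩ := zeta_bounds L
  set N := max M M' with hN
  have hdpos : (0:ℝ) < (Module.finrank ℚ L : ℝ) := by
    have : 0 < Module.finrank ℚ L := Module.finrank_pos
    exact_mod_cast this
  set d : ℝ := (Module.finrank ℚ L : ℝ) with hd
  have hd1 : (1:ℝ) ≤ d := by
    have : 0 < Module.finrank ℚ L := Module.finrank_pos
    rw [hd]
    exact_mod_cast this
  -- pointwise bound
  have hpt : ∀ p : ℕ, p.Prime → aF ℚ p + aF L p / d ≤ aF K p + (if p ≤ N then 2 else 0) := by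
    intro p hp
    have h1 : aF ℚ p ≤ 1 := by
      have := aF_le ℚ p hp
      simpa using this
    have h2 : aF L p / d ≤ 1 := by
      rw [div_le_one hdpos]
      exact aF_le L p hp
    by_cases hpN : p ≤ N
    · rw [if_pos hpN]
      have := NoRootField_aF_nonneg K p
      linarith
    · rw [if_neg hpN]
      push Not at hpN
      have hpM : M < p := lt_of_le_of_lt (le_max_left _ _) hpN
      have hpM' : M' < p := lt_of_le_of_lt (le_max_right _ _) hpN
      have h3 := NoRootField_one_le K p (hcon p hp hpM)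
      by_cases hL0 : aF L p = 0
      · rw [hL0]
        simp only [zero_div]
        linarith
      · have := hM' p hp hpM' hL0
        linarith
  -- the main inequality
  have hmain : ∀ s : ℝ, 1 < s → s ≤ 2 →
      (Real.log (zt ℚ s) - C2) + (Real.log (zt L s) - C3) / d ≤
        2 * ((N:ℝ)+1) + (Real.log (zt K s) + C1) := by
    intro s hs hs2
    have e2 := hC2 s hs hs2
    have e3 := hC3 s hs hs2
    have sQ' := prime_summable ℚ hs
    have sL' := prime_summable L hs
    have hle : ∑' p : Nat.Primes, (aF ℚ p * (p : ℝ) ^ (-s) + (aF L p * (p : ℝ) ^ (-s)) / d) ≤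
        2 * ((N:ℝ)+1) + (Real.log (zt K s) + C1) := by
      apply Summable.tsum_le_of_sum_le (sQ'.add (sL'.div_const d))
      intro T
      have hT : ∑ p ∈ T, (aF ℚ p * (p : ℝ) ^ (-s) + (aF L p * (p : ℝ) ^ (-s)) / d) ≤
          ∑ p ∈ T, ((if (p:ℕ) ≤ N then (2:ℝ) else 0) + aF K p * (p : ℝ) ^ (-s)) := by
        apply Finset.sum_le_sum
        intro p _
        have hp := p.2
        have hp1 : (1:ℝ) ≤ (p:ℕ) := by exact_mod_cast hp.one_lt.le
        have hpos : (0:ℝ) ≤ ((p:ℕ) : ℝ) ^ (-s) := Real.rpow_nonneg (by positivity) _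
        have hle1 : ((p:ℕ) : ℝ) ^ (-s) ≤ 1 :=
          Real.rpow_le_one_of_one_le_of_nonpos hp1 (by linarith)
        have hb := hpt p hp
        have hif : (0:ℝ) ≤ (if (p:ℕ) ≤ N then (2:ℝ) else 0) := by split_ifs <;> norm_num
        calc aF ℚ p * (p : ℝ) ^ (-s) + (aF L p * (p : ℝ) ^ (-s)) / d
            = (aF ℚ p + aF L p / d) * (p : ℝ) ^ (-s) := by ring
          _ ≤ (aF K p + (if (p:ℕ) ≤ N then 2 else 0)) * (p : ℝ) ^ (-s) :=
              mul_le_mul_of_nonneg_right hb hpos
          _ = (if (p:ℕ) ≤ N then (2:ℝ) else 0) * (p : ℝ) ^ (-s) + aF K p * (p : ℝ) ^ (-s) := by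
              ring
          _ ≤ (if (p:ℕ) ≤ N then (2:ℝ) else 0) + aF K p * (p : ℝ) ^ (-s) := by
              have := mul_le_mul_of_nonneg_left hle1 hif
              linarith
      refine hT.trans ?_
      rw [Finset.sum_add_distrib]
      apply add_le_add
      · rw [← Finset.sum_filter, Finset.sum_const, nsmul_eq_mul]
        have hc : (T.filter (fun p : Nat.Primes => (p:ℕ) ≤ N)).card ≤ N + 1 := by
          have := Finset.card_le_card_of_injOn (s := T.filter (fun p : Nat.Primes => (p:ℕ) ≤ N))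
            (t := Finset.range (N+1)) (fun p => (p:ℕ))
            (fun p hp => by
              have h1 := (Finset.mem_filter.1 (Finset.mem_coe.1 hp)).2
              exact Finset.mem_coe.2 (Finset.mem_range.2 (Nat.lt_succ_of_le h1)))
            (fun a _ b _ hab => Subtype.ext hab)
          simpa using this
        have hc' : ((T.filter (fun p : Nat.Primes => (p:ℕ) ≤ N)).card : ℝ) ≤ (N:ℝ) + 1 := by
          exact_mod_cast hc
        linarith
      · have := hC1 s hs (T.map ⟨fun p : Nat.Primes => (p:ℕ), fun a b hab => Subtype.ext hab⟩)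
          (by
            intro q hq
            rw [Finset.mem_map] at hq
            obtain ⟨p, _, rfl⟩ := hq
            exact p.2)
        rw [Finset.sum_map] at this
        exact this
    rw [(sQ'.tsum_add (sL'.div_const d)), tsum_div_const] at hle
    have e3' : (Real.log (zt L s) - C3) / d ≤
        (∑' p : Nat.Primes, aF L p * (p : ℝ) ^ (-s)) / d := by
      apply div_le_div_of_nonneg_right _ hdpos.le
      linarith
    linarith
  -- choose s
  set B : ℝ := 2 * ((N:ℝ)+1) + C1 + cK + cQ + C2 + (cL + C3) / d with hB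
  set Y : ℝ := max (d * B + 1) (max (- Real.log (sK - 1)) (max (- Real.log (sQ - 1))
    (- Real.log (sL - 1)))) with hY
  have hY1 : d * B + 1 ≤ Y := le_max_left _ _
  have hY2 : - Real.log (sK - 1) ≤ Y := (le_max_left _ _).trans (le_max_right _ _)
  have hY3 : - Real.log (sQ - 1) ≤ Y :=
    ((le_max_left _ _).trans (le_max_right _ _)).trans (le_max_right _ _)
  have hY4 : - Real.log (sL - 1) ≤ Y :=
    ((le_max_right _ _).trans (le_max_right _ _)).trans (le_max_right _ _)
  set s : ℝ := 1 + Real.exp (-Y) with hs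
  have hs1 : 1 < s := by
    have := Real.exp_pos (-Y)
    linarith
  have hsle : ∀ t : ℝ, 1 < t → - Real.log (t - 1) ≤ Y → s ≤ t := by
    intro t ht hty
    have h1 : Real.exp (-Y) ≤ Real.exp (Real.log (t-1)) := Real.exp_le_exp.2 (by linarith)
    rw [Real.exp_log (by linarith)] at h1
    linarith
  have hsK := hsle sK hsK1 hY2
  have hsQ := hsle sQ hsQ1 hY3
  have hsL := hsle sL hsL1 hY4
  have hlog : Real.log (1 / (s - 1)) = Y := by
    have : s - 1 = Real.exp (-Y) := by rw [hs]; ring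
    rw [this, one_div, ← Real.exp_neg, neg_neg, Real.log_exp]
  have bK := (abs_le.1 (hK s hs1 hsK).2).2
  have bQ := (abs_le.1 (hQ s hs1 hsQ).2).1
  have bL := (abs_le.1 (hL s hs1 hsL).2).1
  rw [hlog] at bK bQ bL
  have hm := hmain s hs1 (hsK.trans hsK2)
  have bL' : (Y - cL - C3) / d ≤ (Real.log (zt L s) - C3) / d := by
    apply div_le_div_of_nonneg_right _ hdpos.le
    linarith
  have e1 : (Y - cL - C3) / d = Y / d - (cL + C3) / d := by ring
  rw [e1] at bL'
  have hfin : Y / d ≤ B := by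
    rw [hB]
    linarith
  rw [div_le_iff₀ hdpos] at hfin
  linarith

end Pool.Agent.AlgD
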