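import Pool.Agent.AlgD.Cover

/-! # PATTERN. General expansions and linear patterns, base `b`. -/

open Finset Filter

namespace Pool.Agent.AlgD

open Pool.Agent.DigitG

lemma Pattern_shift {b : ℕ} (hb : 2 ≤ b) {e : ℕ → ℤ} {ξ : ℝ}
    (hs : HasSum (fun k => (e k : ℝ) / (b:ℝ)^k) ξ) (j : ℕ) :
    HasSum (fun k : ℕ => (if k = 0 then (0:ℝ) else (e (k+j) : ℝ) / (b:ℝ)^k))
      ((b:ℝ)^j * ξ - (b:ℝ)^j * ∑ i ∈ range (j+1), (e i : ℝ) / (b:ℝ)^i) := by
  have hb0 : (b:ℝ) ≠ 0 := by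
    have : (0:ℝ) < b := by exact_mod_cast (by omega : 0 < b)
    exact this.ne'
  have h1 : HasSum (fun k : ℕ => (e (k+j) : ℝ) / (b:ℝ)^(k+j))
      (ξ - ∑ i ∈ range j, (e i : ℝ) / (b:ℝ)^i) := by
    rw [hasSum_nat_add_iff (f := fun k => (e k : ℝ) / (b:ℝ)^k) j]
    simpa using hs
  have h2 := (h1.mul_left ((b:ℝ)^j)).add (hasSum_two (-(e j : ℝ)) 0)
  have hval : (b:ℝ)^j * (ξ - ∑ i ∈ range j, (e i : ℝ) / (b:ℝ)^i) + (-(e j : ℝ) + 0)
      = (b:ℝ)^j * ξ - (b:ℝ)^j * ∑ i ∈ range (j+1), (e i : ℝ) / (b:ℝ)^i := by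
    rw [Finset.sum_range_succ]
    field_simp
    ring
  rw [hval] at h2
  refine hasSum_congr' (fun k => ?_) h2
  by_cases hk : k = 0
  · subst hk
    simp
    field_simp
    ring
  · rw [if_neg hk, if_neg hk]
    have : (if k = 1 then (0:ℝ) else 0) = 0 := by split_ifs <;> rfl
    rw [this, pow_add]
    field_simp
    ring

lemma Pattern_one {b : ℕ} (hb : 2 ≤ b) :
    HasSum (fun k : ℕ => (if k = 0 then (0:ℝ) else 1 / (b:ℝ)^k)) (1 / ((b:ℝ) - 1)) := by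
  have hb1 : (1:ℝ) < b := by exact_mod_cast (by omega : 1 < b)
  have hb0 : (0:ℝ) < b := by linarith
  have hg : HasSum (fun k : ℕ => ((b:ℝ)⁻¹)^k) (1 - (b:ℝ)⁻¹)⁻¹ :=
    hasSum_geometric_of_lt_one (by positivity) (inv_lt_one_of_one_lt₀ hb1)
  have h1 := hg.add (hasSum_two (-1) 0)
  have h2 : (1 - (b:ℝ)⁻¹)⁻¹ + (-1 + 0) = 1 / ((b:ℝ) - 1) := by
    have h3 : (b:ℝ) - 1 ≠ 0 := by
      have : 0 < (b:ℝ) - 1 := by linarith
      exact this.ne'
    have h4 : 1 - (b:ℝ)⁻¹ = ((b:ℝ) - 1) / b := by field_simp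
    rw [h4, inv_div]
    field_simp
    ring
  rw [h2] at h1
  refine hasSum_congr' (fun k => ?_) h1
  by_cases hk : k = 0
  · subst hk; simp
  · rw [if_neg hk, if_neg hk]
    simp

theorem pattern_covB {b : ℕ} (hb : 2 ≤ b) {α : ℝ} (hα : IsAlgebraic ℚ α) (hirr : Irrational α)
    {B : ℕ} {e : ℕ → ℤ} (he : ∀ k : ℕ, |e k| ≤ B * ((k:ℤ)+1)^B)
    (hs : HasSum (fun k => (e k : ℝ) / b^k) α)
    (l : ℕ) (c : ℕ → ℤ) (c' : ℤ) (hc : ∑ j ∈ range (l+1), c j * (b:ℤ)^j ≠ 0)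
    (A : ℕ) (δ : ℝ) (hδ : 0 < δ) :
    ∀ᶠ n : ℕ in atTop, ∀ L : ℕ, (L : ℝ) * Real.exp ((Real.log n)^δ) ≤ n →
      ∀ S : Finset ℕ, (#S : ℝ) ≤ (Real.log n)^A →
      ∃ k : ℕ, 1 ≤ k ∧ k ≤ n ∧ ∑ j ∈ range (l+1), c j * e (k+j) ≠ c' ∧
        ∀ s ∈ S, k < s ∨ s + L < k := by
  classical
  have hb0 : (b:ℝ) ≠ 0 := by
    have : (0:ℝ) < b := by exact_mod_cast (by omega : 0 < b)
    exact this.ne'
  set d : ℕ → ℤ := fun k => if k = 0 then 1 else
    (∑ j ∈ range (l+1), c j * e (k+j) - c') + (if k = 1 then - (b:ℤ) else 0) with hd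
  set B' : ℕ := (∑ j ∈ range (l+1), (c j).natAbs) * (B * (l+1)^B) + c'.natAbs + b + 1 + B with hB'
  set q : ℚ := - (∑ j ∈ range (l+1), (c j : ℚ) * ((b:ℚ)^j * ∑ i ∈ range (j+1), (e i : ℚ) / (b:ℚ)^i))
    - c' * (1 / ((b:ℚ) - 1)) with hq
  set m : ℤ := ∑ j ∈ range (l+1), c j * (b:ℤ)^j with hm
  set β : ℝ := (m : ℝ) * α + (q : ℝ) with hβ
  have hβa : IsAlgebraic ℚ β := ((isAlgebraic_int m).mul hα).add (isAlgebraic_rat ℚ q)
  have hβi : Irrational β := (hirr.intCast_mul hc).add_ratCast q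
  have hbd : ∀ k : ℕ, |d k| ≤ B' * ((k:ℤ)+1)^B' := by
    intro k
    have hk1 : (1:ℤ) ≤ (k:ℤ)+1 := by omega
    have hpB : (1:ℤ) ≤ ((k:ℤ)+1)^B := one_le_pow₀ hk1
    have hpp : ((k:ℤ)+1)^B ≤ ((k:ℤ)+1)^B' := pow_le_pow_right₀ hk1 (by omega)
    have h1 : |∑ j ∈ range (l+1), c j * e (k+j)| ≤
        ((∑ j ∈ range (l+1), (c j).natAbs : ℕ) : ℤ) * ((B:ℤ) * ((l:ℤ)+1)^B) * ((k:ℤ)+1)^B := by
      calc |∑ j ∈ range (l+1), c j * e (k+j)|
          ≤ ∑ j ∈ range (l+1), |c j * e (k+j)| := Finset.abs_sum_le_sum_abs _ _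
        _ ≤ ∑ j ∈ range (l+1), ((c j).natAbs : ℤ) *
              (((B:ℤ) * ((l:ℤ)+1)^B) * ((k:ℤ)+1)^B) := by
            refine Finset.sum_le_sum fun j hj => ?_
            have hj' : j ≤ l := by
              have := Finset.mem_range.1 hj
              omega
            rw [abs_mul, Int.natCast_natAbs]
            apply mul_le_mul_of_nonneg_left _ (abs_nonneg _)
            refine (he (k+j)).trans ?_
            rw [mul_assoc, ← mul_pow]
            apply mul_le_mul_of_nonneg_left _ (by positivity)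
            apply pow_le_pow_left₀ (by positivity)
            push_cast
            have h5 : (j:ℤ) ≤ l := by exact_mod_cast hj'
            have h6 : (0:ℤ) ≤ (l:ℤ) * k := by positivity
            nlinarith
        _ = _ := by rw [← Finset.sum_mul]; push_cast; ring
    have h2 : |d k| ≤ |∑ j ∈ range (l+1), c j * e (k+j)| + |c'| + b + 1 := by
      simp only [hd]
      by_cases hk : k = 0
      · rw [if_pos hk, abs_one]
        have := abs_nonneg (∑ j ∈ range (l+1), c j * e (k+j))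
        have := abs_nonneg c'
        have : (0:ℤ) ≤ b := by positivity
        linarith
      · rw [if_neg hk]
        have h3 : |(if k = 1 then - (b:ℤ) else 0)| ≤ b := by
          split_ifs
          · rw [abs_neg, abs_of_nonneg (by positivity)]
          · rw [abs_zero]; positivity
        calc |(∑ j ∈ range (l+1), c j * e (k+j) - c') + (if k = 1 then - (b:ℤ) else 0)|
            ≤ |∑ j ∈ range (l+1), c j * e (k+j) - c'| + |(if k = 1 then - (b:ℤ) else 0)| :=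
              abs_add_le _ _
          _ ≤ (|∑ j ∈ range (l+1), c j * e (k+j)| + |c'|) + b := add_le_add (abs_sub _ _) h3
          _ ≤ _ := by linarith
    have h4 : |c'| + b + 1 ≤ (((c'.natAbs : ℕ):ℤ) + b + 1) * ((k:ℤ)+1)^B := by
      rw [Int.natCast_natAbs]
      exact le_mul_of_one_le_right (by positivity) hpB
    calc |d k| ≤ _ := h2
      _ ≤ ((∑ j ∈ range (l+1), (c j).natAbs : ℕ) : ℤ) * ((B:ℤ) * ((l:ℤ)+1)^B) * ((k:ℤ)+1)^B
          + (((c'.natAbs : ℕ):ℤ) + b + 1) * ((k:ℤ)+1)^B := by linarith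
      _ = (((∑ j ∈ range (l+1), (c j).natAbs : ℕ) : ℤ) * ((B:ℤ) * ((l:ℤ)+1)^B)
            + ((c'.natAbs : ℕ):ℤ) + b + 1) * ((k:ℤ)+1)^B := by ring
      _ ≤ (B' : ℤ) * ((k:ℤ)+1)^B := by
          apply mul_le_mul_of_nonneg_right _ (by positivity)
          rw [hB']
          push_cast
          have : (0:ℤ) ≤ B := by positivity
          linarith
      _ ≤ (B' : ℤ) * ((k:ℤ)+1)^B' := mul_le_mul_of_nonneg_left hpp (by positivity)
  have hsum : HasSum (fun k => (d k : ℝ) / (b:ℝ)^k) β := by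
    have h1 : HasSum (fun k : ℕ => ∑ j ∈ range (l+1), (c j : ℝ) * (if k = 0 then (0:ℝ) else
        (e (k+j) : ℝ) / (b:ℝ)^k))
        (∑ j ∈ range (l+1), (c j : ℝ) * ((b:ℝ)^j * α
          - (b:ℝ)^j * ∑ i ∈ range (j+1), (e i : ℝ) / (b:ℝ)^i)) :=
      hasSum_sum fun j _ => (Pattern_shift hb hs j).mul_left _
    have h2 := (h1.sub ((Pattern_one hb).mul_left (c' : ℝ))).add (hasSum_two 1 (-1))
    have hval : ∑ j ∈ range (l+1), (c j : ℝ) * ((b:ℝ)^j * α
          - (b:ℝ)^j * ∑ i ∈ range (j+1), (e i : ℝ) / (b:ℝ)^i) - c' * (1 / ((b:ℝ) - 1)) + (1 + -1)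
        = β := by
      rw [hβ, hq, hm]
      push_cast
      have e1 : ∑ j ∈ range (l+1), (c j : ℝ) * ((b:ℝ)^j * α
            - (b:ℝ)^j * ∑ i ∈ range (j+1), (e i : ℝ) / (b:ℝ)^i)
          = (∑ j ∈ range (l+1), (c j : ℝ) * (b:ℝ)^j) * α
            - ∑ j ∈ range (l+1), (c j : ℝ) * ((b:ℝ)^j * ∑ i ∈ range (j+1), (e i : ℝ) / (b:ℝ)^i) := by
        rw [Finset.sum_mul, ← Finset.sum_sub_distrib]
        refine Finset.sum_congr rfl fun j _ => ?_
        ring
      rw [e1]; ring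
    rw [hval] at h2
    refine hasSum_congr' (fun k => ?_) h2
    simp only [hd]
    by_cases hk : k = 0
    · simp [hk]
    · simp only [if_neg hk]
      push_cast
      rw [add_div, sub_div, Finset.sum_div]
      congr 1
      · congr 1
        · refine Finset.sum_congr rfl fun j _ => ?_
          rw [mul_div_assoc]
        · rw [mul_one_div]
      · by_cases hk1 : k = 1
        · rw [if_pos hk1, if_pos hk1, hk1, pow_one]
          field_simp
        · rw [if_neg hk1, if_neg hk1]; simp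
  have hdig : DigS b B' β d := ⟨by simp [hd], hbd, hsum⟩
  have hmain := cov_normB hb hβa hβi hdig (A+1) δ hδ
  have hlog : ∀ᶠ n : ℕ in atTop, (2:ℝ) ≤ Real.log n :=
    (Real.tendsto_log_atTop.comp tendsto_natCast_atTop_atTop).eventually_ge_atTop 2
  filter_upwards [hmain, hlog] with n h1 h2
  intro L hL S hS
  have h3 : (1:ℝ) ≤ Real.log n ^ A := one_le_pow₀ (by linarith)
  have h4 : Real.log n ^ A + 1 ≤ Real.log n ^ (A+1) := by
    rw [pow_succ]; nlinarith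
  have hcard : (#(insert 1 S) : ℝ) ≤ Real.log n ^ (A+1) := by
    have : (#(insert 1 S) : ℝ) ≤ (#S : ℝ) + 1 := by exact_mod_cast Finset.card_insert_le _ _
    linarith
  obtain ⟨k, hk1, hkn, hk0, hkS⟩ := h1 L hL (insert 1 S) hcard
  have h5 := hkS 1 (Finset.mem_insert_self _ _)
  refine ⟨k, hk1, hkn, ?_, fun s hs => hkS s (Finset.mem_insert_of_mem hs)⟩
  intro h
  apply hk0
  simp only [hd]
  rw [if_neg (by omega), if_neg (by omega), h]
  ring

end Pool.Agent.AlgD
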