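import Pool.Agent.AlgD.Pattern

/-! # RING. The ring generated by sparse numbers. `ring_sparse_poly`: by `MvPolynomial.induction_on`: the
value `Q(ξ)` has an expansion with digits bounded by `B (k+1)^B` whose nonzero digits are at positions in the
`D`-fold sumset of `T = {0} ∪ {k | ∃ i, e i k ≠ 0}`. -/

open Finset Filter

namespace Pool.Agent.AlgD

/-- the `D`-fold sums of elements of `T` -/
def ring_SS (T : Set ℕ) : ℕ → Set ℕ
  | 0 => {0}
  | (m+1) => {k | ∃ a ∈ T, ∃ s ∈ ring_SS T m, a + s = k}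

theorem ring_SS_succ {T : Set ℕ} (h0 : 0 ∈ T) {m k : ℕ} (h : k ∈ ring_SS T m) :
    k ∈ ring_SS T (m+1) := ⟨0, h0, k, h, zero_add k⟩

theorem ring_SS_mono {T : Set ℕ} (h0 : 0 ∈ T) {m m' k : ℕ} (hm : m ≤ m') (h : k ∈ ring_SS T m) :
    k ∈ ring_SS T m' := by
  induction hm with
  | refl => exact h
  | step _ ih => exact ring_SS_succ h0 ih

theorem ring_SS_add {T : Set ℕ} {m m' k k' : ℕ} (h : k ∈ ring_SS T m) (h' : k' ∈ ring_SS T m') :
    k + k' ∈ ring_SS T (m + m') := by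
  induction m generalizing k with
  | zero =>
    have : k = 0 := h
    rw [this, zero_add, zero_add]
    exact h'
  | succ m ih =>
    obtain ⟨a, ha, s, hs, rfl⟩ := h
    rw [Nat.succ_add, add_assoc]
    exact ⟨a, ha, s + k', ih hs, rfl⟩

theorem ring_SS_fin {T : Set ℕ} {n : ℕ} (F : Finset ℕ) (hF : ∀ a ∈ T, a ≤ n → a ∈ F) {m k : ℕ}
    (h : k ∈ ring_SS T m) (hk : k ≤ n) : k ∈ Pool.Agent.SqrtDC.ss F m := by
  induction m generalizing k with
  | zero =>
    have : k = 0 := h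
    rw [this]
    exact Finset.mem_singleton_self 0
  | succ m ih =>
    obtain ⟨a, ha, s, hs, rfl⟩ := h
    exact Finset.mem_image₂.2 ⟨a, hF a ha (by omega), s, ih hs (by omega), rfl⟩

theorem ring_ss_card (F : Finset ℕ) (m : ℕ) : #(Pool.Agent.SqrtDC.ss F m) ≤ (#F)^m := by
  induction m with
  | zero => simp [Pool.Agent.SqrtDC.ss]
  | succ m ih =>
    calc #(Pool.Agent.SqrtDC.ss F (m+1)) ≤ #F * #(Pool.Agent.SqrtDC.ss F m) :=
          Finset.card_image₂_le _ _ _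
      _ ≤ #F * (#F)^m := Nat.mul_le_mul_left _ ih
      _ = (#F)^(m+1) := by rw [pow_succ, mul_comm]

theorem ring_summable {b : ℕ} (hb : 2 ≤ b) {B : ℕ} {e : ℕ → ℤ}
    (he : ∀ k : ℕ, |e k| ≤ B * ((k:ℤ)+1)^B) : Summable (fun k => ‖(e k : ℝ) / b^k‖) := by
  have hb0 : (0:ℝ) < b := by positivity
  have hr : ‖(1 / b : ℝ)‖ < 1 := by
    rw [Real.norm_of_nonneg (by positivity), div_lt_one hb0]
    exact_mod_cast (by omega : 1 < b)
  have h1 := (summable_nat_add_iff 1).2 (summable_pow_mul_geometric_of_norm_lt_one (R := ℝ) B hr)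
  have h2 := h1.mul_left ((B : ℝ) * b)
  refine Summable.of_nonneg_of_le (fun k => norm_nonneg _) (fun k => ?_) h2
  rw [norm_div, norm_pow, Real.norm_of_nonneg hb0.le, Real.norm_eq_abs]
  have h3 : |(e k : ℝ)| ≤ B * ((k:ℝ)+1)^B := by
    have := he k
    have h4 : ((|e k| : ℤ) : ℝ) ≤ ((B * ((k:ℤ)+1)^B : ℤ) : ℝ) := by exact_mod_cast this
    push_cast at h4
    exact h4
  have e1 : (B : ℝ) * b * (((k + 1 : ℕ) : ℝ)^B * (1 / (b:ℝ))^(k+1)) =
      B * ((k:ℝ)+1)^B / b^k := by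
    push_cast
    rw [one_div, inv_pow, pow_succ]
    field_simp
  rw [e1]
  gcongr

theorem ring_int_pow {k : ℕ} {m m' : ℕ} (h : m ≤ m') : ((k:ℤ)+1)^m ≤ ((k:ℤ)+1)^m' :=
  pow_le_pow_right₀ (by omega) h

/-- expansions of the values of polynomials -/
theorem ring_sparse_poly {b : ℕ} (hb : 2 ≤ b) {r : ℕ} (ξ : Fin r → ℝ)
    {B : ℕ} (e : Fin r → ℕ → ℤ) (he : ∀ i, ∀ k : ℕ, |e i k| ≤ B * ((k:ℤ)+1)^B)
    (hs : ∀ i, HasSum (fun k => (e i k : ℝ) / b^k) (ξ i)) (Q : MvPolynomial (Fin r) ℤ) :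
    ∃ (B' D : ℕ) (e' : ℕ → ℤ), (∀ k : ℕ, |e' k| ≤ B' * ((k:ℤ)+1)^B') ∧
      HasSum (fun k => (e' k : ℝ) / b^k) (MvPolynomial.aeval ξ Q) ∧
      ∀ k, e' k ≠ 0 → k ∈ ring_SS ({0} ∪ {k | ∃ i, e i k ≠ 0}) D := by
  classical
  set T : Set ℕ := {0} ∪ {k | ∃ i, e i k ≠ 0} with hT
  have h0T : (0 : ℕ) ∈ T := Or.inl rfl
  have hb0 : (0:ℝ) < b := by positivity
  induction Q using MvPolynomial.induction_on with
  | C a =>
    refine ⟨a.natAbs, 0, fun k => if k = 0 then a else 0, ?_, ?_, ?_⟩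
    · intro k
      beta_reduce
      split_ifs with h
      · subst h
        rw [Nat.cast_zero, zero_add, one_pow, mul_one, Int.natCast_natAbs]
      · rw [abs_zero]
        positivity
    · rw [MvPolynomial.aeval_C]
      have h1 : HasSum (fun k : ℕ => (((if k = 0 then a else 0 : ℤ)) : ℝ) / (b:ℝ)^k)
          ((((if (0:ℕ) = 0 then a else 0 : ℤ)) : ℝ) / (b:ℝ)^0) := by
        apply hasSum_single 0
        intro k hk
        rw [if_neg hk, Int.cast_zero, zero_div]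
      simpa using h1
    · intro k hk
      by_contra h
      apply hk
      have : k ≠ 0 := fun h' => h h'
      simp only [if_neg this]
  | add p q hp hq =>
    obtain ⟨B1, D1, e1, b1, s1, t1⟩ := hp
    obtain ⟨B2, D2, e2, b2, s2, t2⟩ := hq
    refine ⟨B1 + B2, D1 + D2, fun k => e1 k + e2 k, ?_, ?_, ?_⟩
    · intro k
      have h1 := b1 k
      have h2 := b2 k
      have h3 : (B1 : ℤ) * ((k:ℤ)+1)^B1 ≤ B1 * ((k:ℤ)+1)^(B1+B2) :=
        mul_le_mul_of_nonneg_left (ring_int_pow (Nat.le_add_right _ _)) (by positivity)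
      have h4 : (B2 : ℤ) * ((k:ℤ)+1)^B2 ≤ B2 * ((k:ℤ)+1)^(B1+B2) :=
        mul_le_mul_of_nonneg_left (ring_int_pow (Nat.le_add_left _ _)) (by positivity)
      calc |e1 k + e2 k| ≤ |e1 k| + |e2 k| := abs_add_le _ _
        _ ≤ B1 * ((k:ℤ)+1)^(B1+B2) + B2 * ((k:ℤ)+1)^(B1+B2) := by linarith
        _ = _ := by push_cast; ring
    · rw [map_add]
      convert s1.add s2 using 1
      ext k
      push_cast
      ring
    · intro k hk
      by_cases h : e1 k = 0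
      · have h' : e2 k ≠ 0 := by
          intro h'
          apply hk
          change e1 k + e2 k = 0
          rw [h, h', add_zero]
        exact ring_SS_mono h0T (Nat.le_add_left _ _) (t2 k h')
      · exact ring_SS_mono h0T (Nat.le_add_right _ _) (t1 k h)
  | mul_X p i hp =>
    obtain ⟨B1, D1, e1, b1, s1, t1⟩ := hp
    refine ⟨B1 * B + B1 + B + 1, D1 + 1,
      fun k => ∑ x ∈ antidiagonal k, e1 x.1 * e i x.2, ?_, ?_, ?_⟩
    · intro k
      have hbd : ∀ x ∈ antidiagonal k, |e1 x.1 * e i x.2| ≤ B1 * B * ((k:ℤ)+1)^(B1 + B) := by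
        intro x hx
        have hx' := mem_antidiagonal.1 hx
        rw [abs_mul]
        have h1 : |e1 x.1| ≤ B1 * ((k:ℤ)+1)^B1 := by
          refine (b1 x.1).trans (mul_le_mul_of_nonneg_left ?_ (by positivity))
          exact pow_le_pow_left₀ (by positivity) (by omega) _
        have h2 : |e i x.2| ≤ B * ((k:ℤ)+1)^B := by
          refine (he i x.2).trans (mul_le_mul_of_nonneg_left ?_ (by positivity))
          exact pow_le_pow_left₀ (by positivity) (by omega) _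
        calc |e1 x.1| * |e i x.2| ≤ (B1 * ((k:ℤ)+1)^B1) * (B * ((k:ℤ)+1)^B) :=
              mul_le_mul h1 h2 (abs_nonneg _) (by positivity)
          _ = _ := by rw [pow_add]; ring
      calc |∑ x ∈ antidiagonal k, e1 x.1 * e i x.2|
          ≤ ∑ x ∈ antidiagonal k, |e1 x.1 * e i x.2| := Finset.abs_sum_le_sum_abs _ _
        _ ≤ ∑ x ∈ antidiagonal k, (B1 * B * ((k:ℤ)+1)^(B1 + B)) := Finset.sum_le_sum hbd
        _ = B1 * B * ((k:ℤ)+1)^(B1 + B + 1) := by
            rw [Finset.sum_const, Nat.card_antidiagonal, nsmul_eq_mul, pow_succ]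
            push_cast
            ring
        _ ≤ (B1 * B + B1 + B + 1) * ((k:ℤ)+1)^(B1 * B + B1 + B + 1) := by
            apply mul_le_mul ?_ (ring_int_pow (by omega)) (by positivity) (by positivity)
            linarith [Int.natCast_nonneg B1, Int.natCast_nonneg B]
        _ = _ := by push_cast; ring
    · rw [map_mul, MvPolynomial.aeval_X]
      have hf := ring_summable hb b1
      have hg := ring_summable hb (he i)
      have h1 := (summable_norm_sum_mul_antidiagonal_of_summable_norm hf hg).of_norm.hasSum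
      have h2 := tsum_mul_tsum_eq_tsum_sum_antidiagonal_of_summable_norm hf hg
      rw [s1.tsum_eq, (hs i).tsum_eq] at h2
      rw [← h2] at h1
      have h3 : (fun k => (((∑ x ∈ antidiagonal k, e1 x.1 * e i x.2 : ℤ) : ℝ)) / (b:ℝ)^k) =
          fun k => ∑ x ∈ antidiagonal k, (e1 x.1 : ℝ) / (b:ℝ)^x.1 * ((e i x.2 : ℝ) / (b:ℝ)^x.2) := by
        funext k
        push_cast
        rw [Finset.sum_div]
        refine Finset.sum_congr rfl fun x hx => ?_
        rw [← mem_antidiagonal.1 hx, pow_add]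
        field_simp
      rw [h3]
      exact h1
    · intro k hk
      obtain ⟨x, hx, hx0⟩ := Finset.exists_ne_zero_of_sum_ne_zero hk
      have hx1 : e1 x.1 ≠ 0 := left_ne_zero_of_mul hx0
      have hx2 : e i x.2 ≠ 0 := right_ne_zero_of_mul hx0
      rw [← mem_antidiagonal.1 hx]
      apply ring_SS_add (t1 _ hx1)
      exact ⟨x.2, Or.inr ⟨i, hx2⟩, 0, rfl, add_zero _⟩

/-- the `D`-fold sums of covered numbers are covered -/
theorem ring_SS_cov {T : Set ℕ} {n L : ℕ} (S : Finset ℕ)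
    (hS : ∀ a ∈ T, a ≤ n → ∃ s ∈ S, s ≤ a ∧ a ≤ s + L) {m k : ℕ}
    (h : k ∈ ring_SS T m) (hk : k ≤ n) :
    ∃ s ∈ Pool.Agent.SqrtDC.ss S m, s ≤ k ∧ k ≤ s + m * L := by
  induction m generalizing k with
  | zero =>
    have : k = 0 := h
    rw [this]
    exact ⟨0, Finset.mem_singleton_self 0, le_rfl, Nat.zero_le _⟩
  | succ m ih =>
    obtain ⟨a, ha, t, ht, rfl⟩ := h
    obtain ⟨s, hs, h1, h2⟩ := hS a ha (by omega)
    obtain ⟨s', hs', h3, h4⟩ := ih ht (by omega)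
    refine ⟨s + s', Finset.mem_image₂.2 ⟨s, hs, s', hs', rfl⟩, by omega, ?_⟩
    rw [Nat.succ_mul]
    omega

theorem ring_cov {b : ℕ} (hb : 2 ≤ b) {r : ℕ} (ξ : Fin r → ℝ) (Q : MvPolynomial (Fin r) ℤ)
    (hα : IsAlgebraic ℚ (MvPolynomial.aeval ξ Q)) (hirr : Irrational (MvPolynomial.aeval ξ Q))
    {B : ℕ} (e : Fin r → ℕ → ℤ) (he : ∀ i, ∀ k : ℕ, |e i k| ≤ B * ((k:ℤ)+1)^B)
    (hs : ∀ i, HasSum (fun k => (e i k : ℝ) / b^k) (ξ i)) (A : ℕ) (δ : ℝ) (hδ : 0 < δ) :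
    ∀ᶠ n : ℕ in atTop, ∀ L : ℕ, (L : ℝ) * Real.exp ((Real.log n)^δ) ≤ n →
      ∀ S : Finset ℕ, (#S : ℝ) ≤ (Real.log n)^A →
      ∃ k : ℕ, 1 ≤ k ∧ k ≤ n ∧ (∃ i, e i k ≠ 0) ∧ ∀ s ∈ S, k < s ∨ s + L < k := by
  classical
  obtain ⟨B', D, e', b', s', t'⟩ := ring_sparse_poly hb ξ e he hs Q
  have h1 := pattern_covB hb hα hirr b' s' 0 (fun _ => 1) 0 (by simp) ((A + 1) * D) (δ/2)
    (by positivity)
  have hlog : Tendsto (fun n : ℕ => Real.log n) atTop atTop :=
    Real.tendsto_log_atTop.comp tendsto_natCast_atTop_atTop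
  have h2 : ∀ᶠ n : ℕ in atTop, (2 : ℝ) ≤ Real.log n := hlog.eventually_ge_atTop 2
  have h3 : ∀ᶠ n : ℕ in atTop, (max 2 D : ℝ) ≤ (Real.log n)^(δ/2) :=
    ((tendsto_rpow_atTop (by positivity : (0:ℝ) < δ/2)).comp hlog).eventually_ge_atTop _
  filter_upwards [h1, h2, h3] with n h1 h2 h3 L hL S hSc
  by_contra hcon
  push Not at hcon
  set F : Finset ℕ := insert 0 S with hF
  have hFc : (#F : ℝ) ≤ (Real.log n)^(A+1) := by
    have h4 : (#F : ℝ) ≤ #S + 1 := by exact_mod_cast Finset.card_insert_le _ _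
    have h5 : (1:ℝ) ≤ (Real.log n)^A := one_le_pow₀ (by linarith)
    have h6 : (Real.log n)^(A+1) = (Real.log n)^A * Real.log n := pow_succ _ _
    rw [h6]
    nlinarith
  have hDL : ((D * L : ℕ) : ℝ) * Real.exp ((Real.log n)^(δ/2)) ≤ n := by
    refine le_trans ?_ hL
    set u : ℝ := (Real.log n)^(δ/2) with hu
    have hu2 : (2:ℝ) ≤ u := (le_max_left _ _).trans h3
    have huD : (D:ℝ) ≤ u := (le_max_right _ _).trans h3
    have e1 : (Real.log n)^δ = u * u := by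
      rw [hu, ← Real.rpow_add (by linarith)]
      congr 1
      ring
    rw [e1]
    push_cast
    have h7 : (D:ℝ) * Real.exp u ≤ Real.exp (u * u) := by
      have h8 : (D:ℝ) ≤ Real.exp u := huD.trans (by linarith [Real.add_one_le_exp u])
      calc (D:ℝ) * Real.exp u ≤ Real.exp u * Real.exp u :=
            mul_le_mul_of_nonneg_right h8 (Real.exp_pos _).le
        _ = Real.exp (u + u) := (Real.exp_add _ _).symm
        _ ≤ Real.exp (u * u) := Real.exp_le_exp.2 (by nlinarith)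
    calc (D:ℝ) * L * Real.exp u = L * (D * Real.exp u) := by ring
      _ ≤ L * Real.exp (u * u) := mul_le_mul_of_nonneg_left h7 (Nat.cast_nonneg _)
  obtain ⟨k, hk1, hkn, hk, hkS⟩ := h1 (D * L) hDL (Pool.Agent.SqrtDC.ss F D) (by
    calc (#(Pool.Agent.SqrtDC.ss F D) : ℝ) ≤ ((#F)^D : ℕ) := by
          exact_mod_cast ring_ss_card F D
      _ = (#F : ℝ)^D := by push_cast; rfl
      _ ≤ ((Real.log n)^(A+1))^D := pow_le_pow_left₀ (by positivity) hFc D
      _ = (Real.log n)^((A + 1) * D) := by rw [← pow_mul])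
  have hk0 : e' k ≠ 0 := by simpa using hk
  obtain ⟨s, hsF, hs1, hs2⟩ := ring_SS_cov (n := n) (L := L) F (by
    rintro a (ha | ha) han
    · have : a = 0 := ha
      rw [this]
      exact ⟨0, Finset.mem_insert_self _ _, le_rfl, Nat.zero_le _⟩
    · rcases Nat.eq_zero_or_pos a with rfl | hpos
      · exact ⟨0, Finset.mem_insert_self _ _, le_rfl, Nat.zero_le _⟩
      · obtain ⟨s, hs, h5, h6⟩ := hcon a hpos han ha
        exact ⟨s, Finset.mem_insert_of_mem hs, h5, h6⟩) (t' k hk0) hkn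
  rcases hkS s hsF with h | h <;> omega

/-- the counting form -/
theorem ring_count {b : ℕ} (hb : 2 ≤ b) {r : ℕ} (ξ : Fin r → ℝ) (Q : MvPolynomial (Fin r) ℤ)
    (hα : IsAlgebraic ℚ (MvPolynomial.aeval ξ Q)) (hirr : Irrational (MvPolynomial.aeval ξ Q))
    {B : ℕ} (e : Fin r → ℕ → ℤ) (he : ∀ i, ∀ k : ℕ, |e i k| ≤ B * ((k:ℤ)+1)^B)
    (hs : ∀ i, HasSum (fun k => (e i k : ℝ) / b^k) (ξ i)) (A : ℕ) :
    ∀ᶠ n : ℕ in atTop,
      (Real.log n)^A ≤ (#((Icc 1 n).filter (fun k => ∃ i, e i k ≠ 0)) : ℝ) := by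
  classical
  filter_upwards [ring_cov hb ξ Q hα hirr e he hs A 1 one_pos] with n hn
  by_contra hcon
  push Not at hcon
  obtain ⟨k, h1, h2, h3, h4⟩ := hn 0 (by simp) _ hcon.le
  rcases h4 k (Finset.mem_filter.2 ⟨Finset.mem_Icc.2 ⟨h1, h2⟩, h3⟩) with h | h <;> omega

/-- the expansions of the values of polynomials, with explicit sums -/
theorem sparse_poly {b : ℕ} (hb : 2 ≤ b) {r : ℕ} (ξ : Fin r → ℝ)
    {B : ℕ} (e : Fin r → ℕ → ℤ) (he : ∀ i, ∀ k : ℕ, |e i k| ≤ B * ((k:ℤ)+1)^B)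
    (hs : ∀ i, HasSum (fun k => (e i k : ℝ) / b^k) (ξ i)) (Q : MvPolynomial (Fin r) ℤ) :
    ∃ (B' D : ℕ) (e' : ℕ → ℤ), (∀ k : ℕ, |e' k| ≤ B' * ((k:ℤ)+1)^B') ∧
      HasSum (fun k => (e' k : ℝ) / b^k) (MvPolynomial.aeval ξ Q) ∧
      ∀ k, e' k ≠ 0 → ∃ x : Fin D → ℕ, (∀ j, x j = 0 ∨ ∃ i, e i (x j) ≠ 0) ∧ k = ∑ j, x j := by
  obtain ⟨B', D, e', h1, h2, h3⟩ := ring_sparse_poly hb ξ e he hs Q
  refine ⟨B', D, e', h1, h2, fun k hk => ?_⟩
  have key : ∀ (m k : ℕ), k ∈ ring_SS ({0} ∪ {k | ∃ i, e i k ≠ 0}) m →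
      ∃ x : Fin m → ℕ, (∀ j, x j = 0 ∨ ∃ i, e i (x j) ≠ 0) ∧ k = ∑ j, x j := by
    intro m
    induction m with
    | zero =>
      intro k hk
      have : k = 0 := hk
      exact ⟨fun j => j.elim0, fun j => j.elim0, by rw [this]; simp⟩
    | succ m ih =>
      rintro k ⟨a, ha, t, ht, rfl⟩
      obtain ⟨x, hx, rfl⟩ := ih t ht
      refine ⟨Fin.cons a x, fun j => ?_, ?_⟩
      · refine Fin.cases ?_ (fun j => ?_) j
        · rw [Fin.cons_zero]
          exact ha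
        · rw [Fin.cons_succ]
          exact hx j
      · rw [Fin.sum_univ_succ, Fin.cons_zero]
        simp only [Fin.cons_succ]
  exact key D k (h3 k hk)

end Pool.Agent.AlgD
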