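import Pool.Agent.AlgD.Ring
import Pool.Agent.AlgD.Pattern

/-! # RINGPAT. The final theorem: the ring generated by expansions, with patterns. -/

open Finset Filter

namespace Pool.Agent.AlgD

/-- an integer polynomial in `ξ` is, up to an integer factor, an integer polynomial in `ξ'` if
`D i * ξ i = A i * ξ' i + E i` -/
theorem int_change {r : ℕ} (ξ ξ' : Fin r → ℝ) (D A E : Fin r → ℤ) (hD : ∀ i, D i ≠ 0)
    (h : ∀ i, (D i : ℝ) * ξ i = A i * ξ' i + E i) (Q : MvPolynomial (Fin r) ℤ) :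
    ∃ (N : ℤ) (Q' : MvPolynomial (Fin r) ℤ), N ≠ 0 ∧
      (N : ℝ) * MvPolynomial.aeval ξ Q = MvPolynomial.aeval ξ' Q' := by
  induction Q using MvPolynomial.induction_on with
  | C a => exact ⟨1, MvPolynomial.C a, one_ne_zero, by simp⟩
  | add P Q hP hQ =>
    obtain ⟨N1, P', hN1, h1⟩ := hP
    obtain ⟨N2, Q', hN2, h2⟩ := hQ
    refine ⟨N1 * N2, MvPolynomial.C N2 * P' + MvPolynomial.C N1 * Q', mul_ne_zero hN1 hN2, ?_⟩
    simp only [map_add, map_mul, MvPolynomial.aeval_C, algebraMap_int_eq, eq_intCast, map_intCast,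
      ← h1, ← h2]
    push_cast
    ring
  | mul_X P i hP =>
    obtain ⟨N1, P', hN1, h1⟩ := hP
    refine ⟨N1 * D i, P' * (MvPolynomial.C (A i) * MvPolynomial.X i + MvPolynomial.C (E i)),
      mul_ne_zero hN1 (hD i), ?_⟩
    simp only [map_add, map_mul, MvPolynomial.aeval_C, MvPolynomial.aeval_X, algebraMap_int_eq,
      eq_intCast, map_intCast, ← h1, ← h i]
    push_cast
    ring

open Pool.Agent.DigitG in
/-- the expansion of a pattern sequence -/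
theorem pattern_exp {b : ℕ} (hb : 2 ≤ b) {α : ℝ} {B : ℕ} {e : ℕ → ℤ}
    (he : ∀ k : ℕ, |e k| ≤ B * ((k:ℤ)+1)^B) (hs : HasSum (fun k => (e k : ℝ) / b^k) α)
    (l : ℕ) (c : ℕ → ℤ) (c' : ℤ) : ∃ (B' : ℕ) (ρ : ℚ),
    (∀ k : ℕ, |(if k = 0 then 0 else ∑ j ∈ range (l+1), c j * e (k+j) - c' : ℤ)|
      ≤ B' * ((k:ℤ)+1)^B') ∧
    HasSum (fun k : ℕ => ((if k = 0 then 0 else ∑ j ∈ range (l+1), c j * e (k+j) - c' : ℤ) : ℝ)
      / b^k) (((∑ j ∈ range (l+1), c j * (b:ℤ)^j : ℤ) : ℝ) * α + ρ) := by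
  classical
  have hb0 : (b:ℝ) ≠ 0 := by
    have : (0:ℝ) < b := by exact_mod_cast (by omega : 0 < b)
    exact this.ne'
  set B' : ℕ := (∑ j ∈ range (l+1), (c j).natAbs) * (B * (l+1)^B) + c'.natAbs + B with hB'
  refine ⟨B', - (∑ j ∈ range (l+1), (c j : ℚ) * ((b:ℚ)^j *
      ∑ i ∈ range (j+1), (e i : ℚ) / (b:ℚ)^i)) - c' * (1 / ((b:ℚ) - 1)), ?_, ?_⟩
  · intro k
    have hk1 : (1:ℤ) ≤ (k:ℤ)+1 := by omega
    have hpB : (1:ℤ) ≤ ((k:ℤ)+1)^B := one_le_pow₀ hk1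
    have hpp : ((k:ℤ)+1)^B ≤ ((k:ℤ)+1)^B' := pow_le_pow_right₀ hk1 (by omega)
    have h1 : |∑ j ∈ range (l+1), c j * e (k+j)| ≤
        ((∑ j ∈ range (l+1), (c j).natAbs : ℕ) : ℤ) * ((B:ℤ) * ((l:ℤ)+1)^B) * ((k:ℤ)+1)^B := by
      calc |∑ j ∈ range (l+1), c j * e (k+j)|
          ≤ ∑ j ∈ range (l+1), |c j * e (k+j)| := Finset.abs_sum_le_sum_abs _ _
        _ ≤ ∑ j ∈ range (l+1), ((c j).natAbs : ℤ) *
              (((B:ℤ) * ((l:ℤ)+1)^B) * ((k:ℤ)+1)^B) := by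
            refine Finset.sum_le_sum fun j hj => ?_
            have hj' : j ≤ l := by
              have := Finset.mem_range.1 hj
              omega
            rw [abs_mul, Int.natCast_natAbs]
            apply mul_le_mul_of_nonneg_left _ (abs_nonneg _)
            refine (he (k+j)).trans ?_
            rw [mul_assoc, ← mul_pow]
            apply mul_le_mul_of_nonneg_left _ (by positivity)
            apply pow_le_pow_left₀ (by positivity)
            push_cast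
            have h5 : (j:ℤ) ≤ l := by exact_mod_cast hj'
            have h6 : (0:ℤ) ≤ (l:ℤ) * k := by positivity
            nlinarith
        _ = _ := by rw [← Finset.sum_mul]; push_cast; ring
    have h2 : |(if k = 0 then 0 else ∑ j ∈ range (l+1), c j * e (k+j) - c' : ℤ)|
        ≤ |∑ j ∈ range (l+1), c j * e (k+j)| + |c'| := by
      by_cases hk : k = 0
      · rw [if_pos hk, abs_zero]; positivity
      · rw [if_neg hk]; exact abs_sub _ _
    have h4 : |c'| ≤ ((c'.natAbs : ℕ):ℤ) * ((k:ℤ)+1)^B := by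
      rw [Int.natCast_natAbs]
      exact le_mul_of_one_le_right (by positivity) hpB
    calc |(if k = 0 then 0 else ∑ j ∈ range (l+1), c j * e (k+j) - c' : ℤ)| ≤ _ := h2
      _ ≤ ((∑ j ∈ range (l+1), (c j).natAbs : ℕ) : ℤ) * ((B:ℤ) * ((l:ℤ)+1)^B) * ((k:ℤ)+1)^B
          + ((c'.natAbs : ℕ):ℤ) * ((k:ℤ)+1)^B := by linarith
      _ = (((∑ j ∈ range (l+1), (c j).natAbs : ℕ) : ℤ) * ((B:ℤ) * ((l:ℤ)+1)^B)
            + ((c'.natAbs : ℕ):ℤ)) * ((k:ℤ)+1)^B := by ring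
      _ ≤ (B' : ℤ) * ((k:ℤ)+1)^B := by
          apply mul_le_mul_of_nonneg_right _ (by positivity)
          rw [hB']
          push_cast
          have : (0:ℤ) ≤ B := by positivity
          linarith
      _ ≤ (B' : ℤ) * ((k:ℤ)+1)^B' := mul_le_mul_of_nonneg_left hpp (by positivity)
  · have h1 : HasSum (fun k : ℕ => ∑ j ∈ range (l+1), (c j : ℝ) * (if k = 0 then (0:ℝ) else
        (e (k+j) : ℝ) / (b:ℝ)^k))
        (∑ j ∈ range (l+1), (c j : ℝ) * ((b:ℝ)^j * α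
          - (b:ℝ)^j * ∑ i ∈ range (j+1), (e i : ℝ) / (b:ℝ)^i)) :=
      hasSum_sum fun j _ => (Pattern_shift hb hs j).mul_left _
    have h2 := h1.sub ((Pattern_one hb).mul_left (c' : ℝ))
    have hval : ∑ j ∈ range (l+1), (c j : ℝ) * ((b:ℝ)^j * α
          - (b:ℝ)^j * ∑ i ∈ range (j+1), (e i : ℝ) / (b:ℝ)^i) - c' * (1 / ((b:ℝ) - 1))
        = (((∑ j ∈ range (l+1), c j * (b:ℤ)^j : ℤ) : ℝ) * α +
          ((- (∑ j ∈ range (l+1), (c j : ℚ) * ((b:ℚ)^j *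
      ∑ i ∈ range (j+1), (e i : ℚ) / (b:ℚ)^i)) - c' * (1 / ((b:ℚ) - 1)) : ℚ) : ℝ)) := by
      push_cast
      have e1 : ∑ j ∈ range (l+1), (c j : ℝ) * ((b:ℝ)^j * α
            - (b:ℝ)^j * ∑ i ∈ range (j+1), (e i : ℝ) / (b:ℝ)^i)
          = (∑ j ∈ range (l+1), (c j : ℝ) * (b:ℝ)^j) * α
            - ∑ j ∈ range (l+1), (c j : ℝ) * ((b:ℝ)^j * ∑ i ∈ range (j+1), (e i : ℝ) / (b:ℝ)^i) := by
        rw [Finset.sum_mul, ← Finset.sum_sub_distrib]
        refine Finset.sum_congr rfl fun j _ => ?_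
        ring
      rw [e1]; ring
    rw [hval] at h2
    refine hasSum_congr' (fun k => ?_) h2
    by_cases hk : k = 0
    · simp [hk]
    · simp only [if_neg hk]
      push_cast
      rw [sub_div, Finset.sum_div]
      congr 1
      · refine Finset.sum_congr rfl fun j _ => ?_
        rw [mul_div_assoc]
      · rw [mul_one_div]

theorem ring_pattern {b : ℕ} (hb : 2 ≤ b) {r : ℕ} (ξ : Fin r → ℝ)
    (Q : MvPolynomial (Fin r) ℤ)
    (hα : IsAlgebraic ℚ (MvPolynomial.aeval ξ Q)) (hirr : Irrational (MvPolynomial.aeval ξ Q))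
    {B : ℕ} (e : Fin r → ℕ → ℤ) (he : ∀ i, ∀ k : ℕ, |e i k| ≤ B * ((k:ℤ)+1)^B)
    (hs : ∀ i, HasSum (fun k => (e i k : ℝ) / b^k) (ξ i))
    (l : ℕ) (c : Fin r → ℕ → ℤ) (c' : Fin r → ℤ)
    (hc : ∀ i, ∑ j ∈ range (l+1), c i j * (b:ℤ)^j ≠ 0) (A : ℕ) (δ : ℝ) (hδ : 0 < δ) :
    ∀ᶠ n : ℕ in atTop, ∀ L : ℕ, (L : ℝ) * Real.exp ((Real.log n)^δ) ≤ n →
      ∀ S : Finset ℕ, (#S : ℝ) ≤ (Real.log n)^A →
      ∃ k : ℕ, 1 ≤ k ∧ k ≤ n ∧ (∃ i, ∑ j ∈ range (l+1), c i j * e i (k+j) ≠ c' i) ∧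
        ∀ s ∈ S, k < s ∨ s + L < k := by
  classical
  choose Bi ρ hBi hsum using fun i => pattern_exp hb (he i) (hs i) l (c i) (c' i)
  set C : Fin r → ℤ := fun i => ∑ j ∈ range (l+1), c i j * (b:ℤ)^j with hC
  set ξ' : Fin r → ℝ := fun i => (C i : ℝ) * ξ i + ρ i with hξ'
  obtain ⟨N, Q', hN, hNQ⟩ := int_change ξ ξ' (fun i => C i * (ρ i).den) (fun i => (ρ i).den)
    (fun i => - (ρ i).num) (fun i => mul_ne_zero (hc i) (by exact_mod_cast (ρ i).den_nz))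
    (fun i => by
      simp only [hξ']
      have h1 : ((ρ i).den : ℝ) * (ρ i : ℝ) = ((ρ i).num : ℝ) := by
        have := Rat.den_mul_eq_num (ρ i)
        exact_mod_cast this
      push_cast
      linear_combination -h1) Q
  have hα' : IsAlgebraic ℚ (MvPolynomial.aeval ξ' Q') := by
    rw [← hNQ]
    exact (isAlgebraic_intCast N).mul hα
  have hirr' : Irrational (MvPolynomial.aeval ξ' Q') := by
    rw [← hNQ]
    exact hirr.intCast_mul hN
  set B' : ℕ := ∑ i, Bi i with hB'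
  have hle : ∀ i, Bi i ≤ B' := fun i =>
    Finset.single_le_sum (f := Bi) (fun _ _ => Nat.zero_le _) (mem_univ i)
  have hmain := ring_cov hb ξ' Q' hα' hirr' (B := B')
    (fun i k => if k = 0 then 0 else ∑ j ∈ range (l+1), c i j * e i (k+j) - c' i)
    (fun i k => (hBi i k).trans (by
      have h1 : (1:ℤ) ≤ (k:ℤ)+1 := by omega
      have h2 : ((k:ℤ)+1)^(Bi i) ≤ ((k:ℤ)+1)^B' := pow_le_pow_right₀ h1 (hle i)
      have h3 : ((Bi i : ℕ) : ℤ) ≤ (B' : ℤ) := by exact_mod_cast hle i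
      exact mul_le_mul h3 h2 (by positivity) (by positivity)))
    (fun i => hsum i) A δ hδ
  filter_upwards [hmain] with n hn
  intro L hL S hS
  obtain ⟨k, h1, h2, ⟨i, hi⟩, h4⟩ := hn L hL S hS
  refine ⟨k, h1, h2, ⟨i, ?_⟩, h4⟩
  intro h
  apply hi
  rw [if_neg (by omega), h, sub_self]

end Pool.Agent.AlgD
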