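import Pool.Agent.AlgD.Defs

/-! # ZLIM. Real form of the class number formula.
`zeta_summable`: adapt `partial_sums`, `summable_norm` of `outputs/live/Pool/Agent/H7/Abc/Zeta.lean`
(copy the proofs). `zeta_bounds`: from `NumberField.tendsto_sub_one_mul_dedekindZeta_nhdsGT` and
`NumberField.dedekindZeta_residue_pos`; for real `s > 1` the complex `LSeries` is the real sum `zt`
(`LSeries.term`, `Complex.ofReal_tsum`, `Complex.ofReal_cpow`; take real parts). -/

open Filter Topology NumberField Asymptotics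

namespace Pool.Agent.AlgD

theorem Zlim_partial_sums (K : Type*) [Field K] [NumberField K] :
    (fun n : ℕ => ∑ k ∈ Finset.Icc 1 n, (Nat.card {I : Ideal (𝓞 K) // Ideal.absNorm I = k} : ℝ))
      =O[atTop] fun n => (n : ℝ) ^ (1 : ℝ) := by
  have h : Tendsto (fun n : ℕ => (∑ k ∈ Finset.Icc 1 n,
      (Nat.card {I : Ideal (𝓞 K) // Ideal.absNorm I = k} : ℝ)) / (n : ℝ)) atTop
      (𝓝 (dedekindZeta_residue K)) := by
    refine ((Ideal.tendsto_norm_le_div_atTop₀ K).comp tendsto_natCast_atTop_atTop).congr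
      fun n ↦ ?_
    simp only [Function.comp_apply, Nat.cast_le, ← Nat.cast_sum]
    congr
    rw [← add_left_inj 1, ← Ideal.card_norm_le_eq_card_norm_le_add_one,
      show Finset.Icc 1 n = Finset.Ioc 0 n from Finset.Icc_succ_left_eq_Ioc _ _,
      show 1 = Nat.card {I : Ideal (𝓞 K) // Ideal.absNorm I = 0} by
        simp [Ideal.absNorm_eq_zero_iff],
      Finset.sum_Ioc_add_eq_sum_Icc (n.zero_le),
      ← Finset.card_preimage_eq_sum_card_image_eq
        (fun k _ ↦ Ideal.finite_setOfPred_absNorm_eq k)]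
    simp [Set.coe_eq_subtype]
  have h2 := h.isBigO_one ℝ
  have h3 : (fun n : ℕ => (∑ k ∈ Finset.Icc 1 n,
      (Nat.card {I : Ideal (𝓞 K) // Ideal.absNorm I = k} : ℝ))) =ᶠ[atTop]
      fun n : ℕ => ((∑ k ∈ Finset.Icc 1 n,
      (Nat.card {I : Ideal (𝓞 K) // Ideal.absNorm I = k} : ℝ)) / (n : ℝ)) * (n : ℝ) ^ (1 : ℝ) := by
    filter_upwards [eventually_gt_atTop 0] with n hn
    have : (n : ℝ) ≠ 0 := by exact_mod_cast hn.ne'
    rw [Real.rpow_one, div_mul_cancel₀ _ this]
  refine h3.trans_isBigO ?_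
  have := h2.mul (isBigO_refl (fun n : ℕ => (n : ℝ) ^ (1 : ℝ)) atTop)
  simpa using this

theorem zeta_summable (F : Type*) [Field F] [NumberField F] {s : ℝ} (hs : 1 < s) :
    Summable (fun n : ℕ => aF F n * (n : ℝ) ^ (-s)) := by
  have h := LSeriesSummable_of_sum_norm_bigO_and_nonneg (Zlim_partial_sums F)
    (fun n => Nat.cast_nonneg _) zero_le_one (s := (s : ℂ)) (by simpa using hs)
  unfold LSeriesSummable at h
  have h2 := h.norm
  refine Summable.of_norm_bounded_eventually_nat h2 ?_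
  filter_upwards [eventually_gt_atTop 0] with n hn
  rw [LSeries.norm_term_eq]
  have h0 : n ≠ 0 := hn.ne'
  simp only [h0, if_false, Complex.ofReal_natCast, Complex.norm_natCast, Complex.ofReal_re]
  unfold aF
  rw [Real.norm_of_nonneg (by positivity), Real.rpow_neg (Nat.cast_nonneg n)]
  rfl

theorem Zlim_eq (F : Type*) [Field F] [NumberField F] {s : ℝ} (hs : 1 < s) :
    dedekindZeta F (s : ℂ) = ((zt F s : ℝ) : ℂ) := by
  unfold dedekindZeta LSeries zt
  rw [Complex.ofReal_tsum]
  refine tsum_congr fun n => ?_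
  rcases Nat.eq_zero_or_pos n with rfl | hn
  · rw [LSeries.term_zero]
    rw [Nat.cast_zero, Real.zero_rpow (by linarith), mul_zero, Complex.ofReal_zero]
  · rw [LSeries.term_of_ne_zero hn.ne']
    unfold aF
    rw [Complex.ofReal_mul, Complex.ofReal_cpow (Nat.cast_nonneg n), Complex.ofReal_natCast,
      Complex.ofReal_natCast, Complex.ofReal_neg, Complex.cpow_neg, div_eq_mul_inv]

theorem zeta_bounds (F : Type*) [Field F] [NumberField F] :
    ∃ C s₀ : ℝ, 1 < s₀ ∧ s₀ ≤ 2 ∧ ∀ s, 1 < s → s ≤ s₀ →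
      0 < zt F s ∧ |Real.log (zt F s) - Real.log (1 / (s-1))| ≤ C := by
  have hres := dedekindZeta_residue_pos F
  set r := dedekindZeta_residue F with hr
  have h1 : Tendsto (fun s : ℝ => (s - 1) * zt F s) (𝓝[>] 1) (𝓝 r) := by
    have h := tendsto_sub_one_mul_dedekindZeta_nhdsGT F
    have h2 := (Complex.continuous_re.tendsto _).comp h
    rw [Complex.ofReal_re] at h2
    refine h2.congr' ?_
    filter_upwards [self_mem_nhdsWithin] with s hs
    have hs : 1 < s := hs
    simp only [Function.comp_apply]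
    rw [Zlim_eq F hs, ← Complex.ofReal_one, ← Complex.ofReal_sub, ← Complex.ofReal_mul,
      Complex.ofReal_re]
  have h2 : ∀ᶠ s in 𝓝[>] (1:ℝ), (s - 1) * zt F s ∈ Set.Ioo (r/2) (2*r) :=
    h1.eventually (Ioo_mem_nhds (by linarith) (by linarith))
  obtain ⟨u, hu, hsub⟩ := mem_nhdsGT_iff_exists_Ioo_subset.1 h2
  have hu : 1 < u := hu
  refine ⟨max |Real.log (r/2)| |Real.log (2*r)|, min 2 ((1+u)/2), ?_, min_le_left _ _, ?_⟩
  · exact lt_min (by norm_num) (by linarith)
  intro s hs hs0
  have hsu : s < u := by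
    have : s ≤ (1+u)/2 := hs0.trans (min_le_right _ _)
    linarith
  obtain ⟨h3, h4⟩ := hsub (show s ∈ Set.Ioo 1 u from ⟨hs, hsu⟩)
  have hs1 : 0 < s - 1 := by linarith
  have hz : 0 < zt F s := by
    by_contra hcon
    have : (s-1) * zt F s ≤ 0 := mul_nonpos_of_nonneg_of_nonpos hs1.le (not_lt.1 hcon)
    linarith
  refine ⟨hz, ?_⟩
  have h5 : Real.log (zt F s) - Real.log (1 / (s-1)) = Real.log ((s-1) * zt F s) := by
    rw [Real.log_mul hs1.ne' hz.ne', one_div, Real.log_inv]; ring
  rw [h5]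
  have h6 : Real.log (r/2) ≤ Real.log ((s-1) * zt F s) := Real.log_le_log (by linarith) h3.le
  have h7 : Real.log ((s-1) * zt F s) ≤ Real.log (2*r) := Real.log_le_log (by positivity) h4.le
  rw [abs_le]
  constructor
  · have := neg_abs_le (Real.log (r/2))
    have := le_max_left |Real.log (r/2)| |Real.log (2*r)|
    linarith
  · have := le_abs_self (Real.log (2*r))
    have := le_max_right |Real.log (r/2)| |Real.log (2*r)|
    linarith

end Pool.Agent.AlgD
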